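import Pool.Agent.Lib.MP_1d68e1_al_ts.T0

/-!
# MP_1d68e1_al, Laurent part: definitions

The general setting of the proof: seeds with an arbitrary finite set `ι` of frozen variables in an
arbitrary field.
-/

set_option autoImplicit false

noncomputable section

namespace Pool.Agent.Lib.MP_1d68e1_al.TS.LP

/-! ### General setting -/

/-- Extended exchange matrices: rows `Fin n ⊕ ι`, columns `Fin n`. -/
abbrev EM (n : ℕ) (ι : Type) : Type := Fin n ⊕ ι → Fin n → ℤ

variable {n : ℕ} {ι : Type}

/-- the square part -/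
def top (E : EM n ι) : Matrix (Fin n) (Fin n) ℤ := fun i j => E (Sum.inl i) j

/-- Mutation at `k` of an extended matrix. -/
def mutE [DecidableEq ι] (k : Fin n) (E : EM n ι) : EM n ι := fun a j =>
  if a = Sum.inl k ∨ j = k then -E a j
  else E a j + (|E a k| * E (Sum.inl k) j + E a k * |E (Sum.inl k) j|) / 2

/-- Mutation along a word. -/
def runE [DecidableEq ι] (E : EM n ι) (w : List (Fin n)) : EM n ι :=
  w.foldl (fun M k => mutE k M) E

/-- The first monomial of the exchange relation. -/
def Mp [Fintype ι] {R : Type} [CommSemiring R] (E : EM n ι) (k : Fin n) (x : Fin n ⊕ ι → R) : R :=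
  ∏ a, x a ^ (E a k).toNat

/-- The second monomial of the exchange relation. -/
def Mm [Fintype ι] {R : Type} [CommSemiring R] (E : EM n ι) (k : Fin n) (x : Fin n ⊕ ι → R) : R :=
  ∏ a, x a ^ (-E a k).toNat

/-- Seeds: the cluster together with the frozen variables, and the extended matrix. -/
structure GS (n : ℕ) (ι K : Type) where
  x : Fin n ⊕ ι → K
  E : EM n ι

/-- Seed mutation at `k`. -/
def GS.mut [Fintype ι] [DecidableEq ι] {K : Type} [Field K] (s : GS n ι K) (k : Fin n) :
    GS n ι K where
  x := Function.update s.x (Sum.inl k) ((Mp s.E k s.x + Mm s.E k s.x) / s.x (Sum.inl k))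
  E := mutE k s.E

/-- Seed mutation along a word. -/
def GS.run [Fintype ι] [DecidableEq ι] {K : Type} [Field K] (s : GS n ι K) (w : List (Fin n)) :
    GS n ι K :=
  w.foldl GS.mut s

/-- A positive cone of a field: closed under `+`, `*`, inverses, without `0`. -/
structure Cone (K : Type) [Field K] where
  S : Set K
  one : 1 ∈ S
  add : ∀ {a b : K}, a ∈ S → b ∈ S → a + b ∈ S
  mul : ∀ {a b : K}, a ∈ S → b ∈ S → a * b ∈ S
  inv : ∀ {a : K}, a ∈ S → a⁻¹ ∈ S
  zero : (0 : K) ∉ S

/-! ### The ring of Laurent polynomials -/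

/-- The ring of Laurent polynomials over `ℤ` in the variables indexed by `I`. -/
def Lam (I : Type) [Fintype I] : Type :=
  Localization.Away (∏ i : I, (MvPolynomial.X i : MvPolynomial I ℤ))

section Lam

variable (I : Type) [Fintype I]

instance : CommRing (Lam I) :=
  inferInstanceAs (CommRing (Localization.Away (∏ i : I, (MvPolynomial.X i : MvPolynomial I ℤ))))

instance : Algebra (MvPolynomial I ℤ) (Lam I) :=
  inferInstanceAs (Algebra (MvPolynomial I ℤ)
    (Localization.Away (∏ i : I, (MvPolynomial.X i : MvPolynomial I ℤ))))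

instance : IsLocalization.Away (∏ i : I, (MvPolynomial.X i : MvPolynomial I ℤ)) (Lam I) :=
  inferInstanceAs (IsLocalization.Away _
    (Localization.Away (∏ i : I, (MvPolynomial.X i : MvPolynomial I ℤ))))

variable {I}

/-- the inclusion of the polynomials -/
def Lam.pol : MvPolynomial I ℤ →+* Lam I := algebraMap _ _

/-- the variables -/
def Lam.X (a : I) : Lam I := Lam.pol (MvPolynomial.X a)

/-- Evaluation at units. -/
def Lam.ev {R : Type} [CommRing R] (x : I → R) (hx : ∀ a, IsUnit (x a)) : Lam I →+* R :=
  IsLocalization.Away.lift (∏ i : I, (MvPolynomial.X i : MvPolynomial I ℤ))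
    (g := (MvPolynomial.aeval x : MvPolynomial I ℤ →ₐ[ℤ] R).toRingHom)
    (by
      rw [AlgHom.toRingHom_eq_coe, RingHom.coe_coe, map_prod]
      have : ∀ i, (MvPolynomial.aeval x) (MvPolynomial.X i : MvPolynomial I ℤ) = x i := fun i =>
        MvPolynomial.aeval_X _ _
      simp only [this]
      exact (IsUnit.prod_univ_iff).mpr hx)

end Lam

end Pool.Agent.Lib.MP_1d68e1_al.TS.LP
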