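import Pool.Agent.Lib.MP_1d68e1_al_ts.L0

/-!
# MP_1d68e1_al, Laurent part: the API of the Laurent ring
-/

set_option autoImplicit false

noncomputable section

namespace Pool.Agent.Lib.MP_1d68e1_al.TS.LP

variable {I : Type} [Fintype I]

theorem Lam.prod_X_ne_zero : (∏ i : I, (MvPolynomial.X i : MvPolynomial I ℤ)) ≠ 0 :=
  Finset.prod_ne_zero_iff.mpr fun i _ => MvPolynomial.X_ne_zero i

instance : IsDomain (Lam I) :=
  IsLocalization.isDomain_localization
    (M := Submonoid.powers (∏ i : I, (MvPolynomial.X i : MvPolynomial I ℤ)))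
    (powers_le_nonZeroDivisors_of_noZeroDivisors Lam.prod_X_ne_zero)

theorem Lam.pol_injective : Function.Injective (Lam.pol : MvPolynomial I ℤ →+* Lam I) :=
  IsLocalization.injective (Lam I)
    (M := Submonoid.powers (∏ i : I, (MvPolynomial.X i : MvPolynomial I ℤ)))
    (powers_le_nonZeroDivisors_of_noZeroDivisors Lam.prod_X_ne_zero)

theorem Lam.pol_X (a : I) : Lam.pol (MvPolynomial.X a) = Lam.X a := rfl

theorem Lam.isUnit_X (a : I) : IsUnit (Lam.X a) := by
  have h : IsUnit (algebraMap (MvPolynomial I ℤ) (Lam I)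
      (∏ i : I, (MvPolynomial.X i : MvPolynomial I ℤ))) :=
    IsLocalization.Away.algebraMap_isUnit _
  refine isUnit_of_dvd_unit ?_ h
  exact map_dvd (algebraMap (MvPolynomial I ℤ) (Lam I)) (Finset.dvd_prod_of_mem _ (Finset.mem_univ a))

theorem Lam.X_ne_zero (a : I) : (Lam.X a : Lam I) ≠ 0 := (Lam.isUnit_X a).ne_zero

theorem Lam.ev_pol {R : Type} [CommRing R] (x : I → R) (hx : ∀ a, IsUnit (x a))
    (P : MvPolynomial I ℤ) : Lam.ev x hx (Lam.pol P) = MvPolynomial.aeval x P := by
  unfold Lam.ev Lam.pol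
  rw [IsLocalization.Away.lift_eq]
  rfl

theorem Lam.ev_X {R : Type} [CommRing R] (x : I → R) (hx : ∀ a, IsUnit (x a)) (a : I) :
    Lam.ev x hx (Lam.X a) = x a := by
  rw [← Lam.pol_X, Lam.ev_pol, MvPolynomial.aeval_X]

/-- two homs that agree on the variables are equal -/
theorem Lam.hom_ext {R : Type} [CommRing R] (f g : Lam I →+* R)
    (h : ∀ a, f (Lam.X a) = g (Lam.X a)) : f = g := by
  refine IsLocalization.ringHom_ext
    (Submonoid.powers (∏ i : I, (MvPolynomial.X i : MvPolynomial I ℤ))) ?_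
  refine MvPolynomial.ringHom_ext (fun r => ?_) (fun a => h a)
  simp

/-- every element is a polynomial divided by a power of the product of the variables -/
theorem Lam.repr (f : Lam I) : ∃ (N : ℕ) (P : MvPolynomial I ℤ),
    f * (∏ a, Lam.X a) ^ N = Lam.pol P := by
  obtain ⟨N, P, h⟩ := IsLocalization.Away.surj
    (∏ i : I, (MvPolynomial.X i : MvPolynomial I ℤ)) f
  refine ⟨N, P, ?_⟩
  rw [map_prod] at h
  exact h

/-- `pol P` is a value of `aeval` at the variables -/
theorem Lam.aeval_X (P : MvPolynomial I ℤ) :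
    MvPolynomial.aeval (fun a => (Lam.X a : Lam I)) P = Lam.pol P := by
  have h := Lam.ev_pol (fun a => (Lam.X a : Lam I)) Lam.isUnit_X P
  rw [← h]
  have h2 : Lam.ev (fun a => (Lam.X a : Lam I)) Lam.isUnit_X = RingHom.id _ :=
    Lam.hom_ext _ _ fun a => by rw [Lam.ev_X]; rfl
  rw [h2]; rfl

end Pool.Agent.Lib.MP_1d68e1_al.TS.LP
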