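import Pool.Agent.Lib.MP_1d68e1_al_ts.L9C

/-!
# MP_1d68e1_al, Laurent part: the clusters after the first three mutations
-/

set_option autoImplicit false
set_option linter.unusedSectionVars false

noncomputable section

namespace Pool.Agent.Lib.MP_1d68e1_al.TS.LP

variable {n : ℕ} {κ : Type} [Fintype κ] [DecidableEq κ]

theorem L10B_inv (a : Fin n ⊕ κ) : mon (Pi.single a (-1)) * (Lam.X a : Lam (Fin n ⊕ κ)) = 1 := by
  have h := mon_single a 1
  rw [pow_one] at h
  rw [← h, ← mon_add, ← mon_zero]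
  congr 1
  rw [← Pi.single_add]
  simp

theorem L10B_Mp {R S : Type} [CommRing R] [CommRing S] (f : R →+* S) (E : EM n κ) (k : Fin n)
    (x : Fin n ⊕ κ → R) : Mp E k (fun a => f (x a)) = f (Mp E k x) := by
  unfold Mp
  rw [map_prod]
  exact Finset.prod_congr rfl fun a _ => (map_pow _ _ _).symm

theorem L10B_Mm {R S : Type} [CommRing R] [CommRing S] (f : R →+* S) (E : EM n κ) (k : Fin n)
    (x : Fin n ⊕ κ → R) : Mm E k (fun a => f (x a)) = f (Mm E k x) := by
  unfold Mm
  rw [map_prod]
  exact Finset.prod_congr rfl fun a _ => (map_pow _ _ _).symm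

theorem L10B_div (P : Lam (Fin n ⊕ κ)) (a : Fin n ⊕ κ) :
    iK P / iK (Lam.X a) = iK (P * mon (Pi.single a (-1))) := by
  have h0 : iK (Lam.X a : Lam (Fin n ⊕ κ)) ≠ 0 := (coneU _).ne_zero (X_mem_coneU a)
  rw [div_eq_iff h0, ← map_mul, mul_assoc, L10B_inv, mul_one]

/-- the seeds after the first, second and third mutation -/
theorem univ_mut1 (E : EM n κ) (i : Fin n) (a : Fin n ⊕ κ) :
    ((univ E).mut i).x a = iK (y1 E i a) := by
  unfold y1
  by_cases ha : a = Sum.inl i
  · subst ha
    rw [GS.mut_self, Function.update_self]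
    show (Mp E i (fun a => iK (Lam.X a)) + Mm E i (fun a => iK (Lam.X a))) / iK (Lam.X _) = _
    rw [L10B_Mp, L10B_Mm, ← map_add, L10B_div]
    rfl
  · rw [GS.mut_ne _ _ ha, Function.update_of_ne ha]
    rfl

theorem univ_mut2 (E : EM n κ) {i j : Fin n} (hij : i ≠ j) (a : Fin n ⊕ κ) :
    (((univ E).mut i).mut j).x a = iK (y2 E i j a) := by
  have hx : ((univ E).mut i).x = fun a => iK (y1 E i a) := funext (univ_mut1 E i)
  unfold y2
  by_cases ha : a = Sum.inl j
  · subst ha
    have hj : y1 E i (Sum.inl j) = Lam.X (Sum.inl j) := by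
      unfold y1
      rw [Function.update_of_ne fun h => hij (Sum.inl_injective h).symm]
    rw [GS.mut_self, Function.update_self]
    show (Mp (mutE i E) j ((univ E).mut i).x + Mm (mutE i E) j ((univ E).mut i).x) /
      ((univ E).mut i).x (Sum.inl j) = _
    rw [hx, L10B_Mp, L10B_Mm, ← map_add]
    show _ / iK (y1 E i (Sum.inl j)) = _
    rw [hj, L10B_div]
    rfl
  · rw [GS.mut_ne _ _ ha, Function.update_of_ne ha, univ_mut1]

theorem univ_mut3 (E : EM n κ) {i j : Fin n} (hij : i ≠ j) (v : Lam (Fin n ⊕ κ))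
    (hv : v * zz E i = vn E i j) (a : Fin n ⊕ κ) :
    ((((univ E).mut i).mut j).mut i).x a = iK (Function.update (y2 E i j) (Sum.inl i) v a) := by
  have hx : (((univ E).mut i).mut j).x = fun a => iK (y2 E i j a) := funext (univ_mut2 E hij)
  have hi : y2 E i j (Sum.inl i) = zz E i := by
    unfold y2 y1
    rw [Function.update_of_ne fun h => hij (Sum.inl_injective h), Function.update_self]
  have hz : iK (zz E i) ≠ 0 := by
    have h1 := (coneU (Fin n ⊕ κ)).mut_mem (univ E) (fun a => X_mem_coneU a) i (Sum.inl i)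
    have h2 := (coneU _).ne_zero h1
    rw [univ_mut1] at h2
    unfold y1 at h2
    rwa [Function.update_self] at h2
  by_cases ha : a = Sum.inl i
  · subst ha
    rw [GS.mut_self, Function.update_self]
    show (Mp (mutE j (mutE i E)) i (((univ E).mut i).mut j).x +
      Mm (mutE j (mutE i E)) i (((univ E).mut i).mut j).x) /
      (((univ E).mut i).mut j).x (Sum.inl i) = _
    rw [hx, L10B_Mp, L10B_Mm, ← map_add]
    show _ / iK (y2 E i j (Sum.inl i)) = _
    rw [hi, div_eq_iff hz, ← map_mul, hv]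
    rfl
  · rw [GS.mut_ne _ _ ha, Function.update_of_ne ha, univ_mut2 E hij]

end Pool.Agent.Lib.MP_1d68e1_al.TS.LP
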