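import Pool.Agent.Lib.MP_1d68e1_al_ts.L10A
import Pool.Agent.Lib.MP_1d68e1_al_ts.L10B

/-!
# MP_1d68e1_al, Laurent part: the induction step, main case
-/

set_option autoImplicit false
set_option linter.unusedSectionVars false

noncomputable section

namespace Pool.Agent.Lib.MP_1d68e1_al.TS.LP

/-- The Laurent phenomenon up to the length `N`, for all seeds with frozen index set `κ`. -/
def LPS (n : ℕ) (κ : Type) [Fintype κ] [DecidableEq κ] (N : ℕ) : Prop :=
  ∀ E : EM n κ, TotallySignSkew (top E) → ∀ (K : Type) [Field K] (x : Fin n ⊕ κ → K)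
    (hx : ∀ a, IsUnit (x a)) (S : Cone K), (∀ a, x a ∈ S.S) → ∀ w : List (Fin n), w.length ≤ N →
      ∀ a, ((⟨x, E⟩ : GS n κ K).run w).x a ∈ (Lam.ev x hx).range

variable {n : ℕ} {κ : Type} [Fintype κ] [DecidableEq κ]

/-- one chart -/
theorem chart {N : ℕ} (hLP : LPS n κ N) (s : GS n κ (LK (Fin n ⊕ κ)))
    (hE : TotallySignSkew (top s.E)) (hs : ∀ a, s.x a ∈ (coneU (Fin n ⊕ κ)).S)
    (y : Fin n ⊕ κ → Lam (Fin n ⊕ κ)) (hy : ∀ a, s.x a = iK (y a)) (w : List (Fin n))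
    (hw : w.length ≤ N) (a : Fin n ⊕ κ) :
    ∃ M : ℕ, (s.run w).x a * iK (∏ a, y a) ^ M ∈ (iK : Lam (Fin n ⊕ κ) →+* _).range := by
  have hx : ∀ a, IsUnit (s.x a) := fun a => isUnit_iff_ne_zero.mpr ((coneU _).ne_zero (hs a))
  exact ev_mul_pow_mem iK s.x hx y hy _ (hLP s.E hE _ s.x hx _ hs w hw a)

theorem step_main {N : ℕ} (hLP : LPS n κ N) (E : EM n κ) (hE : TotallySignSkew (top E))
    {i j : Fin n} (hij : i ≠ j) {r : κ} (hri : E (Sum.inr r) i = 1 ∨ E (Sum.inr r) i = -1)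
    (hrj : E (Sum.inr r) j = 0) (w : List (Fin n)) (hw : w.length + 1 ≤ N) (a : Fin n ⊕ κ) :
    ((univ E).run (i :: j :: w)).x a ∈ (iK : Lam (Fin n ⊕ κ) →+* _).range := by
  have hS0 : ∀ a, (univ E).x a ∈ (coneU (Fin n ⊕ κ)).S := fun a => X_mem_coneU a
  have hS1 := (coneU (Fin n ⊕ κ)).mut_mem (univ E) hS0 i
  have hS2 := (coneU (Fin n ⊕ κ)).mut_mem _ hS1 j
  have hS3 := (coneU (Fin n ⊕ κ)).mut_mem _ hS2 i
  have hT1 : TotallySignSkew (top ((univ E).mut i).E) := by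
    show TotallySignSkew (top (mutE i E))
    rw [top_mutE]; exact tss_mutB hE i
  have hT2 : TotallySignSkew (top (((univ E).mut i).mut j).E) := by
    show TotallySignSkew (top (mutE j ((univ E).mut i).E))
    rw [top_mutE]; exact tss_mutB hT1 j
  have hT3 : TotallySignSkew (top ((((univ E).mut i).mut j).mut i).E) := by
    show TotallySignSkew (top (mutE i (((univ E).mut i).mut j).E))
    rw [top_mutE]; exact tss_mutB hT2 i
  obtain ⟨v, hv, T, hT, hpu, hpv⟩ := three E (tss_signSkew hE) hij hri hrj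
  obtain ⟨M1, h1⟩ := chart hLP _ hT1 hS1 (y1 E i) (univ_mut1 E i) (j :: w)
    (by rw [List.length_cons]; exact hw) a
  obtain ⟨M3, h3⟩ := chart hLP _ hT3 hS3 (Function.update (y2 E i j) (Sum.inl i) v)
    (univ_mut3 E hij v hv) (i :: w) (by rw [List.length_cons]; exact hw) a
  have e1 : (univ E).run (i :: j :: w) = ((univ E).mut i).run (j :: w) := rfl
  have e3 : ((((univ E).mut i).mut j).mut i).run (i :: w) = (univ E).run (i :: j :: w) := by
    rw [GS.run_cons, GS.mut_mut (((univ E).mut i).mut j) i ((tss_signSkew hT2).diag i)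
      ((coneU _).ne_zero (hS2 _)) ((coneU _).ne_zero (hS3 _))]
    rfl
  rw [← e1] at h1
  rw [e3] at h3
  exact combine iK iK_injective (prime_prod_y1 E hri)
    (not_dvd E hij ((tss_signSkew hE).diag i) hri v hT hpu hpv) _ h1 h3

end Pool.Agent.Lib.MP_1d68e1_al.TS.LP
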