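import Pool.Agent.Lib.MP_1d68e1_al_ts.L5
import Pool.Agent.Lib.MP_1d68e1_al_ts.L10C

/-!
# MP_1d68e1_al, Laurent part: the induction step
-/

set_option autoImplicit false
set_option linter.unusedSectionVars false

noncomputable section

namespace Pool.Agent.Lib.MP_1d68e1_al.TS.LP

variable {n : ℕ} {κ : Type} [Fintype κ] [DecidableEq κ]

/-- PROOF. Word `[]`, `[i]` (`univ_mut1`), `i :: i :: w` (`GS.mut_mut`, then `hLP` for `w` in the
universal seed itself: `Lam.ev (iK ∘ X) = iK`), `i :: j :: w` (`step_main`). -/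
theorem step {N : ℕ} (hLP : LPS n κ N) (E : EM n κ) (hE : TotallySignSkew (top E))
    (g : Fin n → κ) (hg1 : ∀ i, E (Sum.inr (g i)) i = 1)
    (hg0 : ∀ i j, j ≠ i → E (Sum.inr (g i)) j = 0) : ULP (N + 1) E := by
  have hS0 : ∀ a, (univ E).x a ∈ (coneU (Fin n ⊕ κ)).S := fun a => X_mem_coneU a
  intro w hw a
  rcases w with _ | ⟨i, _ | ⟨j, w⟩⟩
  · exact ⟨Lam.X a, rfl⟩
  · have h1 := univ_mut1 E i a
    exact ⟨y1 E i a, h1.symm⟩
  · have hw' : w.length + 1 ≤ N := by
      simp only [List.length_cons] at hw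
      omega
    by_cases hij : i = j
    · subst hij
      have hS1 := (coneU (Fin n ⊕ κ)).mut_mem (univ E) hS0 i
      have e1 : (univ E).run (i :: i :: w) = (univ E).run w := by
        rw [GS.run_cons, GS.run_cons, GS.mut_mut (univ E) i ((tss_signSkew hE).diag i)
          ((coneU _).ne_zero (hS0 _)) ((coneU _).ne_zero (hS1 _))]
      rw [e1]
      have hx : ∀ a, IsUnit ((univ E).x a) := fun a =>
        isUnit_iff_ne_zero.mpr ((coneU _).ne_zero (hS0 a))
      have h2 := hLP E hE _ (univ E).x hx _ hS0 w (by omega) a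
      have h3 : Lam.ev (univ E).x hx = (iK : Lam (Fin n ⊕ κ) →+* LK (Fin n ⊕ κ)) :=
        Lam.hom_ext _ _ fun a => by
          rw [Lam.ev_X]
          rfl
      rw [h3] at h2
      exact h2
    · exact step_main hLP E hE hij (Or.inl (hg1 i)) (hg0 i j (Ne.symm hij)) w hw' a

end Pool.Agent.Lib.MP_1d68e1_al.TS.LP
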