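import Pool.Agent.Lib.MP_1d68e1_al_ts.L9C

/-!
# MP_1d68e1_al, Laurent part: `∏ y1` is prime and does not divide the product of the third cluster
-/

set_option autoImplicit false
set_option linter.unusedSectionVars false

noncomputable section

namespace Pool.Agent.Lib.MP_1d68e1_al.TS.LP

variable {n : ℕ} {κ : Type} [Fintype κ] [DecidableEq κ]

/-- `∏ y1 = UU * (unit)` -/
theorem prime_prod_y1 (E : EM n κ) {i : Fin n} {r : κ}
    (hri : E (Sum.inr r) i = 1 ∨ E (Sum.inr r) i = -1) : Prime (∏ a, y1 E i a) := by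
  have h1 := prime_UU E i r hri
  have e1 : ∏ a, y1 E i a = UU E i * (mon (Pi.single (Sum.inl i) (-1)) *
      ∏ a ∈ Finset.univ \ {(Sum.inl i : Fin n ⊕ κ)}, Lam.X a) := by
    unfold y1 zz
    rw [Finset.prod_update_of_mem (Finset.mem_univ _), mul_assoc]
  have h2 : IsUnit (mon (Pi.single (Sum.inl i) (-1)) *
      ∏ a ∈ Finset.univ \ {(Sum.inl i : Fin n ⊕ κ)}, (Lam.X a : Lam (Fin n ⊕ κ))) := by
    refine (isUnit_mon _).mul ?_
    exact Finset.prod_induction _ IsUnit (fun _ _ ha hb => ha.mul hb) isUnit_one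
      fun a _ => Lam.isUnit_X a
  rw [e1]
  exact (associated_mul_unit_right (UU E i) _ h2).prime h1

/-- evaluate at the test point: the left side vanishes there, the right side does not -/
theorem not_dvd (E : EM n κ) {i j : Fin n} (hij : i ≠ j) {r : κ} (hd : E (Sum.inl i) i = 0)
    (hri : E (Sum.inr r) i = 1 ∨ E (Sum.inr r) i = -1) (v : Lam (Fin n ⊕ κ)) {T : ℚ} (hT : T ≠ 0)
    (hu : psi i r T hT (uu E i j) ≠ 0) (hv : psi i r T hT v ≠ 0) :
    ¬ (∏ a, y1 E i a) ∣ ∏ a, Function.update (y2 E i j) (Sum.inl i) v a := by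
  intro hdvd
  have h1 := map_dvd (psi i r T hT) hdvd
  have h2 : psi i r T hT (∏ a, y1 E i a) = 0 := by
    rw [map_prod]
    refine Finset.prod_eq_zero (Finset.mem_univ (Sum.inl i)) ?_
    unfold y1
    rw [Function.update_self]
    exact psi_zz E i r hd hri T hT
  rw [h2, zero_dvd_iff, map_prod, Finset.prod_eq_zero_iff] at h1
  obtain ⟨a, -, ha⟩ := h1
  by_cases h3 : a = Sum.inl i
  · rw [h3, Function.update_self] at ha
    exact hv ha
  · rw [Function.update_of_ne h3] at ha
    unfold y2 at ha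
    by_cases h4 : a = Sum.inl j
    · rw [h4, Function.update_self] at ha
      exact hu ha
    · rw [Function.update_of_ne h4] at ha
      unfold y1 at ha
      rw [Function.update_of_ne h3] at ha
      exact ((Lam.isUnit_X a).map (psi i r T hT)).ne_zero ha

end Pool.Agent.Lib.MP_1d68e1_al.TS.LP
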