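import Pool.Agent.Lib.MP_1d68e1_al_ts.L10

/-!
# MP_1d68e1_al, Laurent part: the Laurent phenomenon
-/

set_option autoImplicit false
set_option linter.unusedSectionVars false

noncomputable section

namespace Pool.Agent.Lib.MP_1d68e1_al.TS.LP

theorem lps (n : ℕ) (N : ℕ) : ∀ (ι : Type) [Fintype ι] [DecidableEq ι], LPS n ι N := by
  induction N with
  | zero =>
    intro ι _ _ E _ K _ x hx S _ w hw a
    have h0 : w = [] := List.length_eq_zero_iff.mp (Nat.le_zero.mp hw)
    subst h0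
    exact ⟨Lam.X a, Lam.ev_X x hx a⟩
  | succ N ih =>
    intro ι _ _ E hE K _ x hx S hS w hw a
    refine descent (N + 1) E ?_ x hx S hS w hw a
    refine step (ih (ι ⊕ Fin n)) (extE E) hE (fun i => Sum.inr i) (fun i => ?_) fun i j hij => ?_
    · show (if i = i then (1 : ℤ) else 0) = 1
      rw [if_pos rfl]
    · show (if i = j then (1 : ℤ) else 0) = 0
      rw [if_neg (Ne.symm hij)]

variable {n : ℕ} {ι : Type} [Fintype ι] [DecidableEq ι]

/-- The Laurent phenomenon for the universal seed. -/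
theorem ulp (E : EM n ι) (hE : TotallySignSkew (top E)) (w : List (Fin n)) (a : Fin n ⊕ ι) :
    ((univ E).run w).x a ∈ (iK : Lam (Fin n ⊕ ι) →+* _).range := by
  have hu : ∀ a, IsUnit ((univ E).x a) := fun a =>
    isUnit_iff_ne_zero.mpr ((coneU _).ne_zero (X_mem_coneU a))
  obtain ⟨f, hf⟩ := lps n w.length ι E hE (LK (Fin n ⊕ ι)) (univ E).x hu (coneU _)
    (fun a => X_mem_coneU a) w le_rfl a
  refine ⟨f, ?_⟩
  have h2 : Lam.ev (univ E).x hu = iK := Lam.hom_ext _ _ fun a => by rw [Lam.ev_X]; rfl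
  rw [h2] at hf
  exact hf

end Pool.Agent.Lib.MP_1d68e1_al.TS.LP
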