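import Pool.Agent.Lib.MP_1d68e1_al_ts.L12Defs

/-!
# MP_1d68e1_al, Laurent part: the frozen variables do not occur in the denominators
-/

set_option autoImplicit false
set_option linter.unusedSectionVars false

noncomputable section

namespace Pool.Agent.Lib.MP_1d68e1_al.TS.LP

variable {n : ℕ} {ι : Type} [Fintype ι] [DecidableEq ι]

/-- the induction over the exponents of the frozen variables -/
theorem frozen_reduce_aux (f : Lam (Fin n ⊕ ι))
    (h : ∀ c : ι, ∃ P Q : MvPolynomial (Fin n ⊕ ι) ℤ, epsc c Q ≠ 0 ∧ f * Lam.pol Q = Lam.pol P)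
    (N : ℕ) (m : ℕ) : ∀ (e : ι → ℕ) (P : MvPolynomial (Fin n ⊕ ι) ℤ), ∑ c, e c = m →
      f * (∏ i : Fin n, Lam.X (Sum.inl i)) ^ N * ∏ c, Lam.X (Sum.inr c) ^ e c = Lam.pol P →
      ∃ P' : MvPolynomial (Fin n ⊕ ι) ℤ,
        f * (∏ i : Fin n, Lam.X (Sum.inl i)) ^ N = Lam.pol P' := by
  induction m with
  | zero =>
    intro e P he hP
    have h0 : ∀ c, e c = 0 := fun c =>
      (Finset.sum_eq_zero_iff.mp he) c (Finset.mem_univ c)
    refine ⟨P, ?_⟩
    rw [← hP]
    simp [h0]
  | succ m ih =>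
    intro e P he hP
    obtain ⟨c, hc⟩ : ∃ c, e c ≠ 0 := by
      by_contra hcon
      push Not at hcon
      rw [Finset.sum_eq_zero fun c _ => hcon c] at he
      omega
    obtain ⟨P1, Q1, hQ1, hf⟩ := h c
    have hsplit : ∀ (R : Type) [CommRing R] (z : ι → R),
        ∏ c', z c' ^ e c' = z c * ∏ c', z c' ^ (Function.update e c (e c - 1)) c' := by
      intro R _ z
      rw [← Finset.mul_prod_erase Finset.univ (fun c' => z c' ^ e c') (Finset.mem_univ c),
        ← Finset.mul_prod_erase Finset.univ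
          (fun c' => z c' ^ (Function.update e c (e c - 1)) c') (Finset.mem_univ c),
        ← mul_assoc]
      congr 1
      · rw [Function.update_self, ← pow_succ']
        congr 1
        omega
      · refine Finset.prod_congr rfl fun c' hc' => ?_
        rw [Function.update_of_ne (Finset.ne_of_mem_erase hc')]
    have hsum : ∑ c', (Function.update e c (e c - 1)) c' = m := by
      have h1 := Finset.add_sum_erase Finset.univ e (Finset.mem_univ c)
      have h2 := Finset.add_sum_erase Finset.univ (Function.update e c (e c - 1))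
        (Finset.mem_univ c)
      have h3 : ∑ c' ∈ Finset.univ.erase c, (Function.update e c (e c - 1)) c' =
          ∑ c' ∈ Finset.univ.erase c, e c' :=
        Finset.sum_congr rfl fun c' hc' => by
          rw [Function.update_of_ne (Finset.ne_of_mem_erase hc')]
      rw [Function.update_self, h3] at h2
      omega
    have hpq : P * Q1 = P1 * (∏ i : Fin n, MvPolynomial.X (Sum.inl i)) ^ N *
        ∏ c', MvPolynomial.X (Sum.inr c') ^ e c' := by
      apply Lam.pol_injective
      rw [map_mul, ← hP, map_mul, map_mul, map_pow, map_prod, map_prod, ← hf]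
      simp only [map_pow, Lam.pol_X]
      ring
    have hprime : Prime (MvPolynomial.X (Sum.inr c) : MvPolynomial (Fin n ⊕ ι) ℤ) :=
      MvPolynomial.X_prime
    have hdvd : (MvPolynomial.X (Sum.inr c) : MvPolynomial (Fin n ⊕ ι) ℤ) ∣ P * Q1 := by
      rw [hpq, hsplit]
      exact Dvd.dvd.mul_left (dvd_mul_right _ _) _
    have hnQ : ¬ (MvPolynomial.X (Sum.inr c) : MvPolynomial (Fin n ⊕ ι) ℤ) ∣ Q1 := by
      rintro ⟨Q2, rfl⟩
      apply hQ1
      rw [map_mul, epsc_X, if_pos rfl, zero_mul]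
    obtain ⟨P2, rfl⟩ := (hprime.dvd_or_dvd hdvd).resolve_right hnQ
    refine ih (Function.update e c (e c - 1)) P2 hsum ?_
    rw [hsplit, map_mul, Lam.pol_X] at hP
    apply mul_left_cancel₀ (Lam.X_ne_zero (Sum.inr c))
    rw [← hP]
    ring

/-- PROOF. By `Lam.repr` there are `N`, `P` and exponents `e : ι → ℕ` with
`f * (∏ i, X (inl i)) ^ N * ∏ c, X (inr c) ^ e c = pol P`; choose one with `∑ c, e c` minimal (strong
induction).  If `e c > 0` for some `c`: `f * pol Q = pol P'` with `epsc c Q ≠ 0`; so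
`P * Q = P' * (∏ X (inl i)) ^ N * ∏ X (inr c) ^ e c` (`Lam.pol_injective`), `X (inr c)` is prime and
divides the right side, it does not divide `Q` (apply `epsc c`), so it divides `P`; cancel it. -/
theorem frozen_reduce (f : Lam (Fin n ⊕ ι))
    (h : ∀ c : ι, ∃ P Q : MvPolynomial (Fin n ⊕ ι) ℤ, epsc c Q ≠ 0 ∧ f * Lam.pol Q = Lam.pol P) :
    ∃ (N : ℕ) (P : MvPolynomial (Fin n ⊕ ι) ℤ),
      f * (∏ i : Fin n, Lam.X (Sum.inl i)) ^ N = Lam.pol P := by
  obtain ⟨N, P, hP⟩ := Lam.repr f
  refine ⟨N, frozen_reduce_aux f h N (∑ _c : ι, N) (fun _ => N) P rfl ?_⟩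
  rw [← hP, Fintype.prod_sum_type, mul_pow, Finset.prod_pow]
  ring

end Pool.Agent.Lib.MP_1d68e1_al.TS.LP
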