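import Pool.Agent.Lib.MP_1d68e1_al_ts.L12Defs

/-!
# MP_1d68e1_al, Laurent part: values at `y_c = 0`
-/

set_option autoImplicit false
set_option linter.unusedSectionVars false

noncomputable section

namespace Pool.Agent.Lib.MP_1d68e1_al.TS.LP

variable {n : ℕ} {ι : Type} [Fintype ι] [DecidableEq ι]

/-- the ring homomorphism used for the cone -/
def L12B_j : MvPolynomial (Fin n ⊕ ι) ℤ →+* LK (Fin n ⊕ ι) := iK.comp Lam.pol

theorem L12B_inj : Function.Injective (L12B_j : MvPolynomial (Fin n ⊕ ι) ℤ →+* _) :=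
  iK_injective.comp Lam.pol_injective

/-- weakly positive -/
def L12B_W (c : ι) (z : LK (Fin n ⊕ ι)) : Prop :=
  ∃ P Q : MvPolynomial (Fin n ⊕ ι) ℤ, 0 ≤ epsc c P ∧ 0 < epsc c Q ∧
    z = L12B_j P / L12B_j Q

theorem L12B_ne {c : ι} {Q : MvPolynomial (Fin n ⊕ ι) ℤ} (h : 0 < epsc c Q) :
    (L12B_j Q : LK (Fin n ⊕ ι)) ≠ 0 := by
  intro h0
  have h1 : Q = 0 := L12B_inj (by rw [h0, map_zero])
  rw [h1, map_zero] at h
  exact lt_irrefl _ h

theorem L12B_add {c : ι} {z z' : LK (Fin n ⊕ ι)} (h : L12B_W c z)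
    (h' : z' ∈ (coneOf (L12B_j : MvPolynomial (Fin n ⊕ ι) ℤ →+* _) L12B_inj (epsc c)).S) :
    z + z' ∈ (coneOf (L12B_j : MvPolynomial (Fin n ⊕ ι) ℤ →+* _) L12B_inj (epsc c)).S := by
  obtain ⟨P, Q, hP, hQ, rfl⟩ := h
  obtain ⟨P', Q', hP', hQ', rfl⟩ := h'
  refine ⟨P * Q' + P' * Q, Q * Q', ?_, ?_, ?_⟩
  · rw [map_add, map_mul, map_mul]
    have h1 := mul_nonneg hP hQ'.le
    have h2 := mul_pos hP' hQ
    linarith
  · rw [map_mul]
    exact mul_pos hQ hQ'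
  · rw [map_add, map_mul, map_mul, map_mul, div_add_div _ _ (L12B_ne hQ) (L12B_ne hQ'),
      mul_comm (L12B_j P') (L12B_j Q)]

theorem L12B_prod (c : ι) (x : Fin n ⊕ ι → LK (Fin n ⊕ ι))
    (hc : x (Sum.inr c) = iK (Lam.pol (MvPolynomial.X (Sum.inr c))))
    (h : ∀ a, a ≠ Sum.inr c →
      x a ∈ (coneOf (L12B_j : MvPolynomial (Fin n ⊕ ι) ℤ →+* _) L12B_inj (epsc c)).S)
    (m : Fin n ⊕ ι → ℕ) : L12B_W c (∏ a, x a ^ m a) ∧ (m (Sum.inr c) = 0 →
      ∏ a, x a ^ m a ∈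
        (coneOf (L12B_j : MvPolynomial (Fin n ⊕ ι) ℤ →+* _) L12B_inj (epsc c)).S) := by
  set C := coneOf (L12B_j : MvPolynomial (Fin n ⊕ ι) ℤ →+* _) L12B_inj (epsc c) with hC
  have h1 : ∏ a ∈ Finset.univ.erase (Sum.inr c), x a ^ m a ∈ C.S :=
    C.prod _ _ fun a ha => C.pow (h a (Finset.ne_of_mem_erase ha)) _
  have h2 : ∏ a, x a ^ m a = x (Sum.inr c) ^ m (Sum.inr c) *
      ∏ a ∈ Finset.univ.erase (Sum.inr c), x a ^ m a :=
    (Finset.mul_prod_erase _ _ (Finset.mem_univ _)).symm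
  constructor
  · obtain ⟨P, Q, hP, hQ, hPQ⟩ := h1
    refine ⟨MvPolynomial.X (Sum.inr c) ^ m (Sum.inr c) * P, Q, ?_, hQ, ?_⟩
    · rw [map_mul, map_pow, epsc_X, if_pos rfl]
      exact mul_nonneg (pow_nonneg le_rfl _) hP.le
    · rw [h2, hPQ, hc, map_mul, map_pow, mul_div_assoc]
      rfl
  · intro h0
    rw [h2, h0, pow_zero, one_mul]
    exact h1

/-- One step: if every variable of the seed is a fraction `P / Q` of polynomials with
`epsc c P, epsc c Q > 0` (`a ≠ inr c`), resp. the variable `X (inr c)` itself (`a = inr c`), this is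
preserved by mutation.  PROOF. The cone `coneOf (iK ∘ pol) _ (epsc c)`.  In
`(Mp + Mm) / x_k` at most one of `Mp, Mm` contains `X (inr c)`; if it does, then that summand is a
fraction `P / Q` with `epsc c P = 0 < epsc c Q`, the other one lies in the cone, and the sum lies in
the cone. -/
theorem frozen_step (c : ι) (s : GS n ι (LK (Fin n ⊕ ι)))
    (hc : s.x (Sum.inr c) = iK (Lam.pol (MvPolynomial.X (Sum.inr c))))
    (h : ∀ a, a ≠ Sum.inr c → ∃ P Q : MvPolynomial (Fin n ⊕ ι) ℤ, 0 < epsc c P ∧ 0 < epsc c Q ∧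
      s.x a = iK (Lam.pol P) / iK (Lam.pol Q)) (k : Fin n) (a : Fin n ⊕ ι) (ha : a ≠ Sum.inr c) :
    ∃ P Q : MvPolynomial (Fin n ⊕ ι) ℤ, 0 < epsc c P ∧ 0 < epsc c Q ∧
      (s.mut k).x a = iK (Lam.pol P) / iK (Lam.pol Q) := by
  by_cases hak : a = Sum.inl k
  · subst hak
    set C := coneOf (L12B_j : MvPolynomial (Fin n ⊕ ι) ℤ →+* _) L12B_inj (epsc c) with hC
    have h' : ∀ a, a ≠ Sum.inr c → s.x a ∈ C.S := fun a ha => h a ha
    rw [GS.mut_self]
    have hp := L12B_prod c s.x hc h' fun a => (s.E a k).toNat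
    have hm := L12B_prod c s.x hc h' fun a => (-s.E a k).toNat
    have hsum : Mp s.E k s.x + Mm s.E k s.x ∈ C.S := by
      unfold Mp Mm
      rcases le_total (s.E (Sum.inr c) k) 0 with h0 | h0
      · rw [add_comm]
        exact L12B_add hm.1 (hp.2 (Int.toNat_of_nonpos h0))
      · exact L12B_add hp.1 (hm.2 (Int.toNat_of_nonpos (by linarith)))
    exact C.div hsum (h' _ ha)
  · rw [GS.mut_ne s k hak]
    exact h a ha

end Pool.Agent.Lib.MP_1d68e1_al.TS.LP
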