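import Pool.Agent.Lib.MP_1d68e1_al_ts.L4

/-!
# MP_1d68e1_al, Laurent part: evaluation at `y_c = 0`
-/

set_option autoImplicit false
set_option linter.unusedSectionVars false

noncomputable section

namespace Pool.Agent.Lib.MP_1d68e1_al.TS.LP

variable {n : ℕ} {ι : Type} [Fintype ι] [DecidableEq ι]

/-- evaluation of a polynomial at the point `X_(inr c) = 0`, all other coordinates `1` -/
def epsc (c : ι) : MvPolynomial (Fin n ⊕ ι) ℤ →+* ℤ :=
  (MvPolynomial.aeval (fun a : Fin n ⊕ ι => if a = Sum.inr c then (0 : ℤ) else 1) :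
    MvPolynomial (Fin n ⊕ ι) ℤ →ₐ[ℤ] ℤ).toRingHom

theorem epsc_X (c : ι) (a : Fin n ⊕ ι) :
    epsc c (MvPolynomial.X a : MvPolynomial (Fin n ⊕ ι) ℤ) = if a = Sum.inr c then 0 else 1 := by
  show MvPolynomial.aeval _ _ = _
  rw [MvPolynomial.aeval_X]

end Pool.Agent.Lib.MP_1d68e1_al.TS.LP
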