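import Pool.Agent.Lib.MP_1d68e1_al_ts.L11
import Pool.Agent.Lib.MP_1d68e1_al_ts.L12A
import Pool.Agent.Lib.MP_1d68e1_al_ts.L12B

/-!
# MP_1d68e1_al, Laurent part: the Laurent phenomenon, polynomial in the frozen variables
-/

set_option autoImplicit false
set_option linter.unusedSectionVars false

noncomputable section

namespace Pool.Agent.Lib.MP_1d68e1_al.TS.LP

variable {n : ℕ}

private theorem upoly_frac {ι : Type} [Fintype ι] [DecidableEq ι] (E : EM n ι) (c : ι)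
    (w : List (Fin n)) :
    ((univ E).run w).x (Sum.inr c) = iK (Lam.pol (MvPolynomial.X (Sum.inr c))) ∧
    ∀ a, a ≠ Sum.inr c → ∃ P Q : MvPolynomial (Fin n ⊕ ι) ℤ, 0 < epsc c P ∧ 0 < epsc c Q ∧
      ((univ E).run w).x a = iK (Lam.pol P) / iK (Lam.pol Q) := by
  induction w using List.reverseRecOn with
  | nil =>
    refine ⟨rfl, fun a ha => ⟨MvPolynomial.X a, 1, ?_, ?_, ?_⟩⟩
    · rw [epsc_X, if_neg ha]; exact one_pos
    · rw [map_one]; exact one_pos
    · rw [map_one, map_one, div_one]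
      rfl
  | append_singleton w k ih =>
    rw [GS.run_concat]
    refine ⟨?_, fun a ha => frozen_step c _ ih.1 ih.2 k a ha⟩
    rw [GS.mut_inr]
    exact ih.1

/-- PROOF. `ulp` gives `f`; `frozen_reduce` with `frozen_step` along the word. -/
theorem upoly {ι : Type} [Fintype ι] [DecidableEq ι] (E : EM n ι) (hE : TotallySignSkew (top E))
    (w : List (Fin n)) (i : Fin n) : ∃ (f : Lam (Fin n ⊕ ι)) (N : ℕ)
      (P : MvPolynomial (Fin n ⊕ ι) ℤ), ((univ E).run w).x (Sum.inl i) = iK f ∧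
      f * (∏ i : Fin n, Lam.X (Sum.inl i)) ^ N = Lam.pol P := by
  obtain ⟨f, hf⟩ := ulp E hE w (Sum.inl i)
  obtain ⟨N, P, hP⟩ := frozen_reduce f (fun c => by
    obtain ⟨P, Q, _, hQ, h⟩ := (upoly_frac E c w).2 (Sum.inl i) Sum.inl_ne_inr
    refine ⟨P, Q, ne_of_gt hQ, ?_⟩
    have hQ0 : Q ≠ 0 := by
      rintro rfl
      rw [map_zero] at hQ
      exact lt_irrefl _ hQ
    have hQ1 : (iK (Lam.pol Q) : LK (Fin n ⊕ ι)) ≠ 0 := by
      rw [Ne, map_eq_zero_iff _ iK_injective, map_eq_zero_iff _ Lam.pol_injective]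
      exact hQ0
    apply iK_injective
    rw [map_mul, hf, h, div_mul_cancel₀ _ hQ1])
  exact ⟨f, N, P, hf.symm, hP⟩

end Pool.Agent.Lib.MP_1d68e1_al.TS.LP
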