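import Pool.Agent.Lib.MP_1d68e1_al_ts.L4

/-!
# MP_1d68e1_al, Laurent part: the seeds in the ambient field
-/

set_option autoImplicit false
set_option linter.unusedSectionVars false

noncomputable section

namespace Pool.Agent.Lib.MP_1d68e1_al.TS.LP

variable {n : ℕ}

/-- the general seed attached to a seed in `Amb n` -/
def toGS (s : Seed n) : GS n (Fin n) (Amb n) := ⟨Sum.elim s.x yv, Sum.elim s.B s.C⟩

theorem toGS_mutate (s : Seed n) (k : Fin n) : toGS (s.mutate k) = (toGS s).mut k := by
  have hE : (Sum.elim (s.mutate k).B (s.mutate k).C : EM n (Fin n)) =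
      mutE k (Sum.elim s.B s.C : EM n (Fin n)) := by
    funext a j
    rcases a with i | c
    · show mutB k s.B i j = mutE k (Sum.elim s.B s.C) (Sum.inl i) j
      unfold mutB mutE
      simp only [Sum.inl.injEq, Sum.elim_inl]
    · show mutC k s.B s.C c j = mutE k (Sum.elim s.B s.C) (Sum.inr c) j
      unfold mutC mutE
      simp only [Sum.elim_inl, Sum.elim_inr, reduceCtorEq, false_or]
  have hX : (Sum.elim (s.mutate k).x yv : Fin n ⊕ Fin n → Amb n) = ((toGS s).mut k).x := by
    have hM : ((∏ i, s.x i ^ (s.B i k).toNat) * (∏ j, yv j ^ (s.C j k).toNat) +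
        (∏ i, s.x i ^ (-s.B i k).toNat) * (∏ j, yv j ^ (-s.C j k).toNat)) / s.x k =
        (Mp (toGS s).E k (toGS s).x + Mm (toGS s).E k (toGS s).x) / (toGS s).x (Sum.inl k) := by
      unfold Mp Mm toGS
      simp only [Fintype.prod_sum_type, Sum.elim_inl, Sum.elim_inr]
    funext a
    rcases a with i | c
    · by_cases hi : i = k
      · subst hi
        rw [GS.mut_self, ← hM]
        show Function.update s.x i _ i = _
        rw [Function.update_self]
      · rw [GS.mut_ne _ _ (fun h => hi (Sum.inl.inj h))]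
        show Function.update s.x k _ i = s.x i
        rw [Function.update_of_ne hi]
    · rw [GS.mut_inr]
      rfl
  show (⟨Sum.elim (s.mutate k).x yv, Sum.elim (s.mutate k).B (s.mutate k).C⟩ :
    GS n (Fin n) (Amb n)) = ⟨((toGS s).mut k).x, mutE k (Sum.elim s.B s.C)⟩
  rw [hE, hX]

theorem toGS_foldl (s : Seed n) (w : List (Fin n)) :
    toGS (w.foldl Seed.mutate s) = (toGS s).run w := by
  induction w generalizing s with
  | nil => rfl
  | cons k w ih => rw [List.foldl_cons, ih, toGS_mutate]; rfl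

/-- the positive cone of the ambient field -/
def coneA (n : ℕ) : Cone (Amb n) :=
  coneOf (algebraMap (MvPolynomial (Fin n ⊕ Fin n) ℤ) (Amb n))
    (IsFractionRing.injective (MvPolynomial (Fin n ⊕ Fin n) ℤ) (Amb n))
    (MvPolynomial.aeval (fun _ => (1 : ℤ)) : MvPolynomial (Fin n ⊕ Fin n) ℤ →ₐ[ℤ] ℤ).toRingHom

/-- all variables of reachable seeds are positive -/
theorem good_mem_cone {s : Seed n} (h : Good s) (a : Fin n ⊕ Fin n) :
    (toGS s).x a ∈ (coneA n).S := by
  obtain ⟨B, w, _, rfl⟩ := h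
  unfold seedAt
  rw [toGS_foldl]
  refine (coneA n).run_mem _ ?_ w a
  intro b
  have hb : (toGS (initSeed B)).x b = algebraMap (MvPolynomial (Fin n ⊕ Fin n) ℤ) (Amb n)
      (MvPolynomial.X b) := by
    rcases b with i | c
    · rfl
    · rfl
  rw [hb]
  unfold coneA
  refine mem_coneOf _ _ _ ?_
  show 0 < MvPolynomial.aeval (fun _ => (1 : ℤ)) (MvPolynomial.X b : MvPolynomial (Fin n ⊕ Fin n) ℤ)
  rw [MvPolynomial.aeval_X]
  exact one_pos

theorem good_tss {s : Seed n} (h : Good s) : TotallySignSkew s.B := by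
  obtain ⟨B, w, hB, rfl⟩ := h
  have h1 := GS.run_top (toGS (initSeed B)) w
  rw [← toGS_foldl] at h1
  have h2 : (seedAt B w).B = mutWord B w := h1
  rw [h2]
  exact tss_mutWord hB w

end Pool.Agent.Lib.MP_1d68e1_al.TS.LP
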