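import Pool.Agent.Lib.MP_1d68e1_al_ts.L13A
import Pool.Agent.Lib.MP_1d68e1_al_ts.L13B

/-!
# MP_1d68e1_al, Laurent part: the Laurent phenomenon in the ambient field
-/

set_option autoImplicit false
set_option linter.unusedSectionVars false

noncomputable section

namespace Pool.Agent.Lib.MP_1d68e1_al.TS.LP

variable {n : ℕ}

theorem laurent_GS {s : Seed n} (h : Good s) (w : List (Fin n)) (i : Fin n) :
    ∃ (N : ℕ) (P : MvPolynomial (Fin n ⊕ Fin n) ℤ),
      ((toGS s).run w).x (Sum.inl i) * (∏ i, s.x i) ^ N =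
        MvPolynomial.aeval (Sum.elim s.x yv) P := by
  have hS : ∀ a, (toGS s).x a ∈ (coneA n).S := good_mem_cone h
  have hx : ∀ a, IsUnit ((toGS s).x a) := fun a =>
    isUnit_iff_ne_zero.mpr ((coneA n).ne_zero (hS a))
  have hE : TotallySignSkew (top (toGS s).E) := good_tss h
  obtain ⟨f, N, P, hf, hP⟩ := upoly (toGS s).E hE w i
  have htr : Tr (id : Fin n → Fin n) iK (Lam.ev (toGS s).x hx) (univ (toGS s).E) (toGS s)
      (Lam.X : Fin n ⊕ Fin n → Lam (Fin n ⊕ Fin n)) :=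
    { hE := fun a m => by
        rw [Sum.map_id_id]; rfl
      hx := fun a => rfl
      hΦ := fun a => by rw [Sum.map_id_id, Lam.ev_X]; rfl
      h1 := fun c hc => absurd ⟨c, rfl⟩ hc }
  obtain ⟨y', h'⟩ := htr.run Function.injective_id iK_injective (coneU _) (fun a => X_mem_coneU a)
    (coneA n) hS w (fun u _ a => ulp _ hE u a)
  have e1 : y' (Sum.inl i) = f := by
    apply iK_injective
    rw [← h'.hx, hf]
  have e2 := h'.hΦ (Sum.inl i)
  rw [Sum.map_inl, id, e1] at e2
  refine ⟨N, P, ?_⟩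
  rw [← e2]
  have e3 := congrArg (Lam.ev (toGS s).x hx) hP
  rw [map_mul, map_pow, map_prod, Lam.ev_pol] at e3
  simp only [Lam.ev_X] at e3
  have e4 : ∀ Q : MvPolynomial (Fin n ⊕ Fin n) ℤ,
      MvPolynomial.eval₂ (algebraMap ℤ (Amb n)) (Sum.elim s.x yv) Q =
        MvPolynomial.eval₂ (Int.castRingHom (Amb n)) (Sum.elim s.x yv) Q := by
    intro Q
    congr 1
    exact RingHom.ext_int _ _
  rw [MvPolynomial.aeval_def, e4]
  exact e3

end Pool.Agent.Lib.MP_1d68e1_al.TS.LP
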