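import Pool.Agent.Lib.MP_1d68e1_al_ts.L13C

/-!
# MP_1d68e1_al, Laurent part: the four theorems of the interface
-/

set_option autoImplicit false
set_option linter.unusedSectionVars false

noncomputable section

namespace Pool.Agent.Lib.MP_1d68e1_al.TS

variable {n : ℕ}

theorem good_init {B : Matrix (Fin n) (Fin n) ℤ} (hB : TotallySignSkew B) : Good (initSeed B) :=
  ⟨B, [], hB, rfl⟩

theorem good_mutate {s : Seed n} (h : Good s) (k : Fin n) : Good (s.mutate k) := by
  obtain ⟨B, w, hB, rfl⟩ := h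
  refine ⟨B, w ++ [k], hB, ?_⟩
  unfold seedAt
  rw [List.foldl_append]; rfl

theorem Good.tss {s : Seed n} (h : Good s) : TotallySignSkew s.B := LP.good_tss h

private theorem toGS_inj {s t : Seed n} (h : LP.toGS s = LP.toGS t) : s = t := by
  have hx : s.x = t.x := by
    funext i
    exact congrFun (congrArg LP.GS.x h) (Sum.inl i)
  have hB : s.B = t.B := by
    funext i j
    exact congrFun (congrFun (congrArg LP.GS.E h) (Sum.inl i)) j
  have hC : s.C = t.C := by
    funext i j
    exact congrFun (congrFun (congrArg LP.GS.E h) (Sum.inr i)) j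
  obtain ⟨x, B, C⟩ := s
  obtain ⟨x', B', C'⟩ := t
  simp only at hx hB hC
  rw [hx, hB, hC]

theorem mutate_mutate {s : Seed n} (h : Good s) (k : Fin n) : (s.mutate k).mutate k = s := by
  apply toGS_inj
  rw [LP.toGS_mutate, LP.toGS_mutate]
  refine LP.GS.mut_mut _ k ?_ ?_ ?_
  · show s.B k k = 0
    rcases h.tss [] k k with h1 | h1
    · exact h1.1
    · exact absurd h1 (not_lt.2 (mul_self_nonneg _))
  · exact (LP.coneA n).ne_zero (LP.good_mem_cone h _)
  · rw [← LP.toGS_mutate]
    exact (LP.coneA n).ne_zero (LP.good_mem_cone (good_mutate h k) _)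

theorem laurent {s : Seed n} (h : Good s) (w : List (Fin n)) (i : Fin n) :
    Lau s ((w.foldl Seed.mutate s).x i) := by
  obtain ⟨N, P, hP⟩ := LP.laurent_GS h w i
  refine ⟨N, P, ?_⟩
  rw [← hP, ← LP.toGS_foldl]
  rfl

end Pool.Agent.Lib.MP_1d68e1_al.TS
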