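import Pool.Agent.Lib.MP_1d68e1_al_ts.L1

/-!
# MP_1d68e1_al, Laurent part: extended matrices
-/

set_option autoImplicit false

noncomputable section

namespace Pool.Agent.Lib.MP_1d68e1_al.TS.LP

variable {n : ℕ} {ι κ : Type} [DecidableEq ι] [DecidableEq κ]

theorem top_mutE (k : Fin n) (E : EM n ι) : top (mutE k E) = mutB k (top E) := by
  funext i j
  unfold top mutE mutB
  simp only [Sum.inl.injEq]

theorem mutE_col (k : Fin n) (E : EM n ι) (a : Fin n ⊕ ι) : mutE k E a k = -E a k := by
  unfold mutE; rw [if_pos (Or.inr rfl)]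

theorem mutE_row (k j : Fin n) (E : EM n ι) : mutE k E (Sum.inl k) j = -E (Sum.inl k) j := by
  unfold mutE; rw [if_pos (Or.inl rfl)]

theorem mutE_ne {k j : Fin n} {a : Fin n ⊕ ι} (E : EM n ι) (ha : a ≠ Sum.inl k) (hj : j ≠ k) :
    mutE k E a j = E a j + (max (E a k) 0 * E (Sum.inl k) j + E a k * max (-E (Sum.inl k) j) 0) := by
  unfold mutE
  rw [if_neg (by push Not; exact ⟨ha, hj⟩), half_eq]

theorem mutE_mutE (k : Fin n) (E : EM n ι) : mutE k (mutE k E) = E := by
  funext a j
  by_cases ha : a = Sum.inl k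
  · subst ha; rw [mutE_row, mutE_row, neg_neg]
  by_cases hj : j = k
  · subst hj; rw [mutE_col, mutE_col, neg_neg]
  rw [mutE_ne _ ha hj, mutE_ne _ ha hj, mutE_col, mutE_row, neg_neg]
  have h1 := max_sub_max (E a k)
  have h2 := max_sub_max (E (Sum.inl k) j)
  linear_combination (E (Sum.inl k) j) * h1 - (E a k) * h2

/-- mutation commutes with the change of all signs -/
theorem mutE_neg (k : Fin n) (E : EM n ι) : mutE k (fun a j => -E a j) = fun a j => -mutE k E a j := by
  funext a j
  by_cases ha : a = Sum.inl k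
  · subst ha; rw [mutE_row, mutE_row]
  by_cases hj : j = k
  · subst hj; rw [mutE_col, mutE_col]
  rw [mutE_ne _ ha hj, mutE_ne _ ha hj, neg_neg]
  have h1 := max_sub_max (E a k)
  have h2 := max_sub_max (E (Sum.inl k) j)
  linear_combination (E (Sum.inl k) j) * h1 - (E a k) * h2

/-- compatibility of mutation with the restriction to a part of the frozen rows -/
theorem mutE_restrict (g : ι → κ) {E' : EM n κ} {E : EM n ι}
    (h : ∀ a j, E' (Sum.map id g a) j = E a j) (k : Fin n) (a : Fin n ⊕ ι) (j : Fin n) :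
    mutE k E' (Sum.map id g a) j = mutE k E a j := by
  have hk : E' (Sum.inl k) j = E (Sum.inl k) j := h (Sum.inl k) j
  by_cases ha : a = Sum.inl k
  · subst ha
    show mutE k E' (Sum.inl k) j = _
    rw [mutE_row, mutE_row, hk]
  by_cases hj : j = k
  · subst hj; rw [mutE_col, mutE_col, h]
  have ha' : Sum.map id g a ≠ Sum.inl k := by
    rcases a with i | c
    · intro h0; apply ha; simpa using h0
    · simp
  rw [mutE_ne _ ha' hj, mutE_ne _ ha hj, h, h, hk]

theorem mutWord_cons (B : Matrix (Fin n) (Fin n) ℤ) (k : Fin n) (w : List (Fin n)) :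
    mutWord B (k :: w) = mutWord (mutB k B) w := rfl

theorem tss_signSkew {B : Matrix (Fin n) (Fin n) ℤ} (h : TotallySignSkew B) :
    SignSkew B := h []

theorem tss_mutB {B : Matrix (Fin n) (Fin n) ℤ} (h : TotallySignSkew B) (k : Fin n) :
    TotallySignSkew (mutB k B) := fun w => h (k :: w)

theorem tss_mutWord {B : Matrix (Fin n) (Fin n) ℤ} (h : TotallySignSkew B)
    (w : List (Fin n)) : TotallySignSkew (mutWord B w) := by
  intro w'
  have := h (w ++ w')
  unfold MP_1d68e1_al.mutWord at this ⊢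
  rwa [List.foldl_append] at this

end Pool.Agent.Lib.MP_1d68e1_al.TS.LP
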