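import Pool.Agent.Lib.MP_1d68e1_al_ts.L2

/-!
# MP_1d68e1_al, Laurent part: seeds in a field
-/

set_option autoImplicit false
set_option linter.unusedSectionVars false

noncomputable section

namespace Pool.Agent.Lib.MP_1d68e1_al.TS.LP

variable {n : ℕ} {ι : Type} [Fintype ι] [DecidableEq ι] {K : Type} [Field K]

/-! ### cones -/

theorem Cone.ne_zero (S : Cone K) {a : K} (h : a ∈ S.S) : a ≠ 0 := fun h0 => S.zero (h0 ▸ h)

theorem Cone.pow (S : Cone K) {a : K} (h : a ∈ S.S) (m : ℕ) : a ^ m ∈ S.S := by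
  induction m with
  | zero => rw [pow_zero]; exact S.one
  | succ m ih => rw [pow_succ]; exact S.mul ih h

theorem Cone.prod (S : Cone K) {α : Type} (T : Finset α) (f : α → K) (h : ∀ a ∈ T, f a ∈ S.S) :
    ∏ a ∈ T, f a ∈ S.S := by
  classical
  induction T using Finset.induction_on with
  | empty => rw [Finset.prod_empty]; exact S.one
  | insert a T ha ih =>
    rw [Finset.prod_insert ha]
    exact S.mul (h a (Finset.mem_insert_self a T))
      (ih fun i hi => h i (Finset.mem_insert_of_mem hi))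

theorem Cone.div (S : Cone K) {a b : K} (ha : a ∈ S.S) (hb : b ∈ S.S) : a / b ∈ S.S := by
  rw [div_eq_mul_inv]; exact S.mul ha (S.inv hb)

theorem Cone.mut_mem (S : Cone K) (s : GS n ι K) (h : ∀ a, s.x a ∈ S.S) (k : Fin n)
    (a : Fin n ⊕ ι) : (s.mut k).x a ∈ S.S := by
  show Function.update s.x (Sum.inl k) _ a ∈ S.S
  by_cases ha : a = Sum.inl k
  · subst ha
    rw [Function.update_self]
    exact S.div (S.add (S.prod _ _ fun a _ => S.pow (h a) _) (S.prod _ _ fun a _ => S.pow (h a) _))
      (h _)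
  · rw [Function.update_of_ne ha]; exact h a

theorem Cone.run_mem (S : Cone K) (s : GS n ι K) (h : ∀ a, s.x a ∈ S.S) (w : List (Fin n))
    (a : Fin n ⊕ ι) : (s.run w).x a ∈ S.S := by
  induction w generalizing s a with
  | nil => exact h a
  | cons k w ih => exact ih (s.mut k) (S.mut_mem s h k) a

/-! ### runs -/

theorem GS.run_nil (s : GS n ι K) : s.run [] = s := rfl

theorem GS.run_cons (s : GS n ι K) (k : Fin n) (w : List (Fin n)) :
    s.run (k :: w) = (s.mut k).run w := rfl

theorem GS.run_append (s : GS n ι K) (w w' : List (Fin n)) :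
    s.run (w ++ w') = (s.run w).run w' := by
  unfold GS.run; rw [List.foldl_append]

theorem GS.run_concat (s : GS n ι K) (w : List (Fin n)) (k : Fin n) :
    s.run (w ++ [k]) = (s.run w).mut k := by rw [GS.run_append]; rfl

theorem GS.run_top (s : GS n ι K) (w : List (Fin n)) :
    top (s.run w).E = mutWord (top s.E) w := by
  induction w generalizing s with
  | nil => rfl
  | cons k w ih =>
    rw [GS.run_cons, ih, mutWord_cons]
    show mutWord (top (mutE k s.E)) w = _
    rw [top_mutE]

theorem GS.mut_ne (s : GS n ι K) (k : Fin n) {a : Fin n ⊕ ι} (ha : a ≠ Sum.inl k) :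
    (s.mut k).x a = s.x a := by
  exact Function.update_of_ne ha _ _

/-- the frozen variables do not change -/
theorem GS.mut_inr (s : GS n ι K) (k : Fin n) (c : ι) :
    (s.mut k).x (Sum.inr c) = s.x (Sum.inr c) := GS.mut_ne s k Sum.inr_ne_inl

theorem GS.mut_self (s : GS n ι K) (k : Fin n) :
    (s.mut k).x (Sum.inl k) = (Mp s.E k s.x + Mm s.E k s.x) / s.x (Sum.inl k) := by
  exact Function.update_self _ _ _

/-- the exchange relation -/
theorem GS.exchange (s : GS n ι K) (k : Fin n) (h : s.x (Sum.inl k) ≠ 0) :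
    s.x (Sum.inl k) * (s.mut k).x (Sum.inl k) = Mp s.E k s.x + Mm s.E k s.x := by
  rw [GS.mut_self, mul_div_cancel₀ _ h]

theorem Mp_congr {R : Type} [CommSemiring R] {E : EM n ι} {k : Fin n} {x y : Fin n ⊕ ι → R}
    (h : ∀ a, 0 < E a k → x a = y a) : Mp E k x = Mp E k y := by
  refine Finset.prod_congr rfl fun a _ => ?_
  by_cases ha : 0 < E a k
  · rw [h a ha]
  · rw [Int.toNat_of_nonpos (by omega), pow_zero, pow_zero]

theorem Mm_congr {R : Type} [CommSemiring R] {E : EM n ι} {k : Fin n} {x y : Fin n ⊕ ι → R}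
    (h : ∀ a, E a k < 0 → x a = y a) : Mm E k x = Mm E k y := by
  refine Finset.prod_congr rfl fun a _ => ?_
  by_cases ha : E a k < 0
  · rw [h a ha]
  · rw [Int.toNat_of_nonpos (by omega), pow_zero, pow_zero]

/-- two successive mutations at the same index cancel -/
theorem GS.mut_mut (s : GS n ι K) (k : Fin n) (hd : s.E (Sum.inl k) k = 0)
    (hx : s.x (Sum.inl k) ≠ 0) (hx' : (s.mut k).x (Sum.inl k) ≠ 0) : (s.mut k).mut k = s := by
  have hE : mutE k (mutE k s.E) = s.E := mutE_mutE k s.E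
  have hne : ∀ a, s.E a k ≠ 0 → a ≠ Sum.inl k := by
    rintro a h rfl; exact h hd
  have h1 : Mp (mutE k s.E) k (s.mut k).x = Mm s.E k s.x := by
    unfold Mp Mm
    refine Finset.prod_congr rfl fun a _ => ?_
    rw [mutE_col]
    by_cases ha : s.E a k = 0
    · rw [ha]; simp
    · rw [GS.mut_ne s k (hne a ha)]
  have h2 : Mm (mutE k s.E) k (s.mut k).x = Mp s.E k s.x := by
    unfold Mp Mm
    refine Finset.prod_congr rfl fun a _ => ?_
    rw [mutE_col, neg_neg]
    by_cases ha : s.E a k = 0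
    · rw [ha]; simp
    · rw [GS.mut_ne s k (hne a ha)]
  have hX : ((s.mut k).mut k).x = s.x := by
    funext a
    by_cases ha : a = Sum.inl k
    · subst ha
      rw [GS.mut_self]
      show (Mp (mutE k s.E) k (s.mut k).x + Mm (mutE k s.E) k (s.mut k).x) / _ = _
      rw [h1, h2, add_comm, ← GS.exchange s k hx, mul_div_cancel_right₀ _ hx']
    · rw [GS.mut_ne _ k ha, GS.mut_ne _ k ha]
  show (⟨((s.mut k).mut k).x, mutE k (mutE k s.E)⟩ : GS n ι K) = s
  rw [hX, hE]

end Pool.Agent.Lib.MP_1d68e1_al.TS.LP
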