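import Pool.Agent.Lib.MP_1d68e1_al_ts.L3

/-!
# MP_1d68e1_al, Laurent part: cones from points, the universal seed, transport of seeds
-/

set_option autoImplicit false
set_option linter.unusedSectionVars false

noncomputable section

namespace Pool.Agent.Lib.MP_1d68e1_al.TS.LP

/-- The cone of the fractions `j P / j Q` with `ε P, ε Q > 0`. -/
def coneOf {R K : Type} [CommRing R] [Field K] (j : R →+* K) (hj : Function.Injective j)
    (ε : R →+* ℤ) : Cone K where
  S := {z | ∃ P Q : R, 0 < ε P ∧ 0 < ε Q ∧ z = j P / j Q}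
  one := ⟨1, 1, by simp, by simp, by simp⟩
  add := by
    rintro _ _ ⟨P, Q, hP, hQ, rfl⟩ ⟨P', Q', hP', hQ', rfl⟩
    have h0 : ∀ A : R, 0 < ε A → j A ≠ 0 := fun A hA h => by
      rw [(map_eq_zero_iff j hj).mp h, map_zero] at hA
      exact lt_irrefl _ hA
    refine ⟨P * Q' + Q * P', Q * Q', ?_, ?_, ?_⟩
    · rw [map_add, map_mul, map_mul]; exact add_pos (mul_pos hP hQ') (mul_pos hQ hP')
    · rw [map_mul]; exact mul_pos hQ hQ'
    · rw [div_add_div _ _ (h0 Q hQ) (h0 Q' hQ'), map_add, map_mul, map_mul, map_mul]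
  mul := by
    rintro _ _ ⟨P, Q, hP, hQ, rfl⟩ ⟨P', Q', hP', hQ', rfl⟩
    refine ⟨P * P', Q * Q', ?_, ?_, ?_⟩
    · rw [map_mul]; exact mul_pos hP hP'
    · rw [map_mul]; exact mul_pos hQ hQ'
    · rw [div_mul_div_comm, map_mul, map_mul]
  inv := by
    rintro _ ⟨P, Q, hP, hQ, rfl⟩
    exact ⟨Q, P, hQ, hP, by rw [inv_div]⟩
  zero := by
    rintro ⟨P, Q, hP, hQ, h⟩
    have h0 : ∀ A : R, 0 < ε A → j A ≠ 0 := fun A hA h => by
      rw [(map_eq_zero_iff j hj).mp h, map_zero] at hA
      exact lt_irrefl _ hA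
    rcases div_eq_zero_iff.mp h.symm with h1 | h1
    · exact h0 P hP h1
    · exact h0 Q hQ h1

theorem mem_coneOf {R K : Type} [CommRing R] [Field K] (j : R →+* K) (hj : Function.Injective j)
    (ε : R →+* ℤ) {P : R} (hP : 0 < ε P) : j P ∈ (coneOf j hj ε).S :=
  ⟨P, 1, hP, by simp, by simp⟩

/-! ### the universal seed -/

/-- The field of fractions of the Laurent ring. -/
abbrev LK (I : Type) [Fintype I] : Type := FractionRing (Lam I)

/-- The inclusion. -/
def iK {I : Type} [Fintype I] : Lam I →+* LK I := algebraMap _ _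

theorem iK_injective {I : Type} [Fintype I] : Function.Injective (iK : Lam I →+* LK I) :=
  IsFractionRing.injective (Lam I) (LK I)

/-- evaluation at the point `(1, ..., 1)` -/
def eps {I : Type} [Fintype I] : Lam I →+* ℤ := Lam.ev (fun _ => (1 : ℤ)) (fun _ => isUnit_one)

/-- the positive cone -/
def coneU (I : Type) [Fintype I] : Cone (LK I) := coneOf iK iK_injective eps

theorem X_mem_coneU {I : Type} [Fintype I] (a : I) : iK (Lam.X a) ∈ (coneU I).S :=
  mem_coneOf _ _ _ (by unfold eps; rw [Lam.ev_X]; exact one_pos)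

variable {n : ℕ} {ι κ : Type} [Fintype ι] [DecidableEq ι] [Fintype κ] [DecidableEq κ]

/-- The universal seed with extended matrix `E`. -/
def univ (E : EM n κ) : GS n κ (LK (Fin n ⊕ κ)) := ⟨fun a => iK (Lam.X a), E⟩

/-- all variables in the run of the universal seed up to the length `N` are Laurent polynomials -/
def ULP (N : ℕ) (E : EM n κ) : Prop :=
  ∀ w : List (Fin n), w.length ≤ N → ∀ a, ((univ E).run w).x a ∈ (iK : Lam (Fin n ⊕ κ) →+* _).range

/-! ### transport -/

/-- The seed `s'` in `K'`, with variables in the subring `R`, specialises to the seed `s` in `K` under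
`Φ : R → K`; the frozen variables outside the range of `g` go to `1`. -/
structure Tr {R K' K : Type} [CommRing R] [Field K'] [Field K] (g : ι → κ) (j : R →+* K')
    (Φ : R →+* K) (s' : GS n κ K') (s : GS n ι K) (y : Fin n ⊕ κ → R) : Prop where
  hE : ∀ a m, s'.E (Sum.map id g a) m = s.E a m
  hx : ∀ a, s'.x a = j (y a)
  hΦ : ∀ a, Φ (y (Sum.map id g a)) = s.x a
  h1 : ∀ c, c ∉ Set.range g → Φ (y (Sum.inr c)) = 1

theorem prod_res {K : Type} [CommRing K] (g : ι → κ) (hg : Function.Injective g)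
    (f : Fin n ⊕ κ → K) (f' : Fin n ⊕ ι → K) (h : ∀ a, f (Sum.map id g a) = f' a)
    (h1 : ∀ c, c ∉ Set.range g → f (Sum.inr c) = 1) : ∏ a, f a = ∏ a, f' a := by
  symm
  refine Fintype.prod_of_injective (Sum.map id g) (Function.injective_id.sumMap hg) f' f ?_
    (fun a => (h a).symm)
  intro a ha
  rcases a with i | c
  · exact absurd ⟨Sum.inl i, rfl⟩ ha
  · refine h1 c fun hc => ha ?_
    obtain ⟨c', hc'⟩ := hc
    exact ⟨Sum.inr c', by rw [Sum.map_inr, hc']⟩

theorem Tr.step {R K' K : Type} [CommRing R] [Field K'] [Field K] {g : ι → κ}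
    (hg : Function.Injective g) {j : R →+* K'} (hj : Function.Injective j)
    {Φ : R →+* K} {s' : GS n κ K'} {s : GS n ι K} {y : Fin n ⊕ κ → R} (h : Tr g j Φ s' s y)
    (k : Fin n) (h0' : s'.x (Sum.inl k) ≠ 0) (h0 : s.x (Sum.inl k) ≠ 0)
    (hR : (s'.mut k).x (Sum.inl k) ∈ j.range) : ∃ y', Tr g j Φ (s'.mut k) (s.mut k) y' := by
  obtain ⟨z, hz⟩ := hR
  refine ⟨Function.update y (Sum.inl k) z, ?_, ?_, ?_, ?_⟩
  · exact fun a m => mutE_restrict g h.hE k a m
  · intro a
    by_cases ha : a = Sum.inl k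
    · subst ha; rw [Function.update_self, hz]
    · rw [Function.update_of_ne ha, GS.mut_ne _ _ ha, h.hx]
  · intro a
    by_cases ha : a = Sum.inl k
    · subst ha
      show Φ (Function.update y (Sum.inl k) z (Sum.inl k)) = _
      rw [Function.update_self, GS.mut_self, eq_div_iff h0, ← h.hΦ]
      show Φ z * Φ (y (Sum.inl k)) = _
      have e1 := GS.exchange s' k h0'
      have e2 : y (Sum.inl k) * z = Mp s'.E k y + Mm s'.E k y := by
        apply hj
        rw [map_mul, hz, ← h.hx, e1, map_add]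
        unfold Mp Mm
        rw [map_prod, map_prod]
        congr 1 <;> exact Finset.prod_congr rfl fun a _ => by rw [map_pow, h.hx]
      have e3 := congrArg Φ e2
      rw [map_mul, map_add] at e3
      rw [mul_comm, e3]
      unfold Mp Mm
      rw [map_prod, map_prod]
      congr 1
      · refine prod_res g hg _ _ (fun a => ?_) fun c hc => ?_
        · rw [map_pow, h.hE, h.hΦ]
        · rw [map_pow, h.h1 c hc, one_pow]
      · refine prod_res g hg _ _ (fun a => ?_) fun c hc => ?_
        · rw [map_pow, h.hE, h.hΦ]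
        · rw [map_pow, h.h1 c hc, one_pow]
    · have ha' : Sum.map id g a ≠ Sum.inl k := by
        rcases a with i | c
        · intro h0; apply ha; simpa using h0
        · simp
      rw [Function.update_of_ne ha', GS.mut_ne _ _ ha, h.hΦ]
  · intro c hc
    rw [Function.update_of_ne Sum.inr_ne_inl]; exact h.h1 c hc

theorem Tr.run {R K' K : Type} [CommRing R] [Field K'] [Field K] {g : ι → κ}
    (hg : Function.Injective g) {j : R →+* K'} (hj : Function.Injective j)
    {Φ : R →+* K} {s' : GS n κ K'} {s : GS n ι K} {y : Fin n ⊕ κ → R} (h : Tr g j Φ s' s y)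
    (S' : Cone K') (hS' : ∀ a, s'.x a ∈ S'.S) (S : Cone K) (hS : ∀ a, s.x a ∈ S.S)
    (w : List (Fin n)) (hR : ∀ u, u <+: w → ∀ a, (s'.run u).x a ∈ j.range) :
    ∃ y', Tr g j Φ (s'.run w) (s.run w) y' := by
  induction w using List.reverseRecOn with
  | nil => exact ⟨y, h⟩
  | append_singleton w k ih =>
    obtain ⟨y', h'⟩ := ih fun u hu a => hR u (hu.trans (List.prefix_append _ _)) a
    rw [GS.run_concat, GS.run_concat]
    refine h'.step hg hj k (S'.ne_zero (S'.run_mem s' hS' w _)) (S.ne_zero (S.run_mem s hS w _)) ?_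
    have := hR (w ++ [k]) (List.prefix_refl _) (Sum.inl k)
    rwa [GS.run_concat] at this

end Pool.Agent.Lib.MP_1d68e1_al.TS.LP
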