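import Pool.Agent.Lib.MP_1d68e1_al_ts.L4

/-!
# MP_1d68e1_al, Laurent part: removing the principal frozen variables
-/

set_option autoImplicit false
set_option linter.unusedSectionVars false

noncomputable section

namespace Pool.Agent.Lib.MP_1d68e1_al.TS.LP

variable {n : ℕ} {ι : Type} [Fintype ι] [DecidableEq ι]

/-- The extended matrix with `n` additional frozen rows, which form the identity matrix. -/
def extE (E : EM n ι) : EM n (ι ⊕ Fin n)
  | Sum.inl i => E (Sum.inl i)
  | Sum.inr (Sum.inl c) => E (Sum.inr c)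
  | Sum.inr (Sum.inr m) => fun j => if m = j then 1 else 0

theorem top_extE (E : EM n ι) : top (extE E) = top E := rfl

private def dropF {R : Type} [One R] (x : Fin n ⊕ ι → R) : Fin n ⊕ (ι ⊕ Fin n) → R
  | Sum.inl i => x (Sum.inl i)
  | Sum.inr (Sum.inl c) => x (Sum.inr c)
  | Sum.inr (Sum.inr _) => 1

private theorem dropF_unit {R : Type} [CommRing R] (x : Fin n ⊕ ι → R) (hx : ∀ a, IsUnit (x a))
    (a : Fin n ⊕ (ι ⊕ Fin n)) : IsUnit (dropF x a) := by
  rcases a with i | c | m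
  · exact hx _
  · exact hx _
  · exact isUnit_one

/-- The Laurent phenomenon (up to the length `N`) for the universal seed of `extE E` implies it for
all seeds with extended matrix `E`. -/
theorem descent (N : ℕ) (E : EM n ι) (hU : ULP N (extE E)) {K : Type} [Field K]
    (x : Fin n ⊕ ι → K) (hx : ∀ a, IsUnit (x a)) (S : Cone K) (hS : ∀ a, x a ∈ S.S)
    (w : List (Fin n)) (hw : w.length ≤ N) (a : Fin n ⊕ ι) :
    ((⟨x, E⟩ : GS n ι K).run w).x a ∈ (Lam.ev x hx).range := by
  have hTr : Tr (n := n) (ι := ι) (κ := ι ⊕ Fin n) Sum.inl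
      (iK : Lam (Fin n ⊕ (ι ⊕ Fin n)) →+* LK (Fin n ⊕ (ι ⊕ Fin n)))
      (Lam.ev (dropF x) (dropF_unit x hx)) (univ (extE E)) (⟨x, E⟩ : GS n ι K)
      (fun a => Lam.X a) := by
    refine ⟨?_, fun a => rfl, ?_, ?_⟩
    · rintro (i | c) m
      · rfl
      · rfl
    · rintro (i | c)
      · rw [Lam.ev_X]; rfl
      · rw [Lam.ev_X]; rfl
    · rintro (c | m) hc
      · exact absurd ⟨c, rfl⟩ hc
      · rw [Lam.ev_X]; rfl
  obtain ⟨y', hy'⟩ := hTr.run Sum.inl_injective iK_injective (coneU _)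
    (fun a => X_mem_coneU a) S hS w (fun u hu b => hU u (hu.length_le.trans hw) b)
  rw [← hy'.hΦ a]
  have hcomp : (Lam.ev x hx).comp (Lam.ev (dropF (fun a => (Lam.X a : Lam (Fin n ⊕ ι))))
      (dropF_unit _ Lam.isUnit_X)) = Lam.ev (dropF x) (dropF_unit x hx) := by
    refine Lam.hom_ext _ _ fun b => ?_
    rw [RingHom.comp_apply, Lam.ev_X, Lam.ev_X]
    rcases b with i | c | m
    · exact Lam.ev_X x hx _
    · exact Lam.ev_X x hx _
    · exact map_one _
  rw [← hcomp]
  exact ⟨_, rfl⟩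

end Pool.Agent.Lib.MP_1d68e1_al.TS.LP
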