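import Pool.Agent.Lib.MP_1d68e1_al_ts.L4

/-!
# MP_1d68e1_al, Laurent part: denominators, and the combination of two charts
-/

set_option autoImplicit false
set_option linter.unusedSectionVars false

noncomputable section

namespace Pool.Agent.Lib.MP_1d68e1_al.TS.LP

/-- Elements of the Laurent ring of another chart are fractions with denominator a power of the
product of the variables of this chart. -/
theorem ev_mul_pow_mem {I : Type} [Fintype I] {R K : Type} [CommRing R] [Field K] (j : R →+* K)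
    (x : I → K) (hx : ∀ a, IsUnit (x a)) (y : I → R) (hy : ∀ a, x a = j (y a)) (z : K)
    (hz : z ∈ (Lam.ev x hx).range) : ∃ N : ℕ, z * j (∏ a, y a) ^ N ∈ j.range := by
  obtain ⟨f, rfl⟩ := hz
  obtain ⟨N, P, h⟩ := Lam.repr f
  refine ⟨N, MvPolynomial.aeval y P, ?_⟩
  have h1 : Lam.ev x hx f * (∏ a, x a) ^ N = MvPolynomial.aeval x P := by
    rw [← Lam.ev_pol x hx P, ← h, map_mul, map_pow, map_prod]
    congr 2
    exact Finset.prod_congr rfl fun a _ => (Lam.ev_X x hx a).symm
  have h2 : j (∏ a, y a) = ∏ a, x a := by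
    rw [map_prod]
    exact Finset.prod_congr rfl fun a _ => (hy a).symm
  rw [h2, h1]
  have h3 : x = fun a => j (y a) := funext hy
  rw [h3, MvPolynomial.aeval_def, MvPolynomial.aeval_def, MvPolynomial.hom_eval₂]
  congr 1
  exact RingHom.ext_int _ _

/-- Combination of two charts. -/
theorem combine {R K : Type} [CommRing R] [IsDomain R] [Field K] (j : R →+* K)
    (hj : Function.Injective j) {p q : R} (hp : Prime p) (hpq : ¬ p ∣ q) (z : K) {N M : ℕ}
    (hN : z * j p ^ N ∈ j.range) (hM : z * j q ^ M ∈ j.range) : z ∈ j.range := by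
  obtain ⟨a, ha⟩ := hN
  obtain ⟨b, hb⟩ := hM
  have h1 : a * q ^ M = b * p ^ N := by
    apply hj
    rw [map_mul, map_mul, map_pow, map_pow, ha, hb]
    ring
  have h2 : ¬ p ∣ q ^ M := fun h => hpq (hp.dvd_of_dvd_pow h)
  have h3 : p ^ N ∣ a := hp.pow_dvd_of_dvd_mul_right N h2 ⟨b, by rw [h1, mul_comm]⟩
  obtain ⟨c, rfl⟩ := h3
  refine ⟨c, ?_⟩
  have h4 : j p ≠ 0 := by
    intro h
    exact hp.ne_zero (hj (by rw [h, map_zero]))
  have h5 : j p ^ N ≠ 0 := pow_ne_zero N h4
  rw [map_mul, map_pow, mul_comm] at ha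
  exact mul_right_cancel₀ h5 ha

/-- A domain quotient gives a prime element. -/
theorem prime_of_hom {R D : Type} [CommRing R] [CommRing D] [IsDomain D] (φ : R →+* D) (p : R)
    (hp : p ≠ 0) (hker : ∀ f, φ f = 0 ↔ p ∣ f) : Prime p := by
  refine ⟨hp, fun hu => ?_, fun a b hab => ?_⟩
  · have h1 : φ 1 = 0 := (hker 1).2 hu.dvd
    rw [map_one] at h1
    exact one_ne_zero h1
  · have h1 := (hker (a * b)).2 hab
    rw [map_mul] at h1
    rcases mul_eq_zero.1 h1 with h | h
    · exact Or.inl ((hker a).1 h)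
    · exact Or.inr ((hker b).1 h)

end Pool.Agent.Lib.MP_1d68e1_al.TS.LP
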