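import Pool.Agent.Lib.MP_1d68e1_al_ts.L4

/-!
# MP_1d68e1_al, Laurent part: monomials with integer exponents
-/

set_option autoImplicit false
set_option linter.unusedSectionVars false

noncomputable section

namespace Pool.Agent.Lib.MP_1d68e1_al.TS.LP

variable {I : Type} [Fintype I] [DecidableEq I]

/-- the variables as units -/
def XU (a : I) : (Lam I)ˣ := (Lam.isUnit_X a).unit

theorem XU_val (a : I) : ((XU a : (Lam I)ˣ) : Lam I) = Lam.X a := rfl

/-- The monomial with exponent vector `e`. -/
def mon (e : I → ℤ) : Lam I := ((∏ a, XU a ^ e a : (Lam I)ˣ) : Lam I)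

theorem isUnit_mon (e : I → ℤ) : IsUnit (mon e) := Units.isUnit _

theorem mon_zero : mon (0 : I → ℤ) = 1 := by
  unfold mon; simp

theorem mon_add (e f : I → ℤ) : mon (e + f) = mon e * mon f := by
  unfold mon
  rw [← Units.val_mul, ← Finset.prod_mul_distrib]
  congr 1
  exact Finset.prod_congr rfl fun a _ => zpow_add _ _ _

theorem mon_pow (e : I → ℤ) (m : ℕ) : mon e ^ m = mon (fun a => m * e a) := by
  unfold mon
  rw [← Units.val_pow_eq_pow_val, ← Finset.prod_pow]
  congr 1
  refine Finset.prod_congr rfl fun a _ => ?_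
  show (XU a ^ e a) ^ m = XU a ^ ((m : ℤ) * e a)
  rw [mul_comm, zpow_mul, zpow_natCast]

theorem mon_single (a : I) (m : ℕ) : mon (Pi.single a (m : ℤ)) = Lam.X a ^ m := by
  unfold mon
  rw [Finset.prod_eq_single a]
  · rw [Pi.single_eq_same, zpow_natCast, Units.val_pow_eq_pow_val, XU_val]
  · intro b _ hb
    rw [Pi.single_eq_of_ne hb, zpow_zero]
  · intro h; exact absurd (Finset.mem_univ _) h

/-- a monomial with nonnegative exponents -/
theorem prod_pow_eq_mon (m : I → ℕ) : ∏ a, (Lam.X a : Lam I) ^ m a = mon (fun a => (m a : ℤ)) := by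
  unfold mon
  rw [Units.coe_prod]
  refine Finset.prod_congr rfl fun a _ => ?_
  rw [zpow_natCast, Units.val_pow_eq_pow_val, XU_val]

/-- the product after a change of the variable at `i` -/
theorem prod_update_pow {R : Type} [CommRing R] (x : I → R) (i : I) (z : R) (m : I → ℕ) :
    ∏ a, Function.update x i z a ^ m a = z ^ m i * ∏ a, x a ^ (if a = i then 0 else m a) := by
  rw [← Finset.mul_prod_erase _ _ (Finset.mem_univ i), ← Finset.mul_prod_erase Finset.univ
    (fun a => x a ^ (if a = i then 0 else m a)) (Finset.mem_univ i), Function.update_self,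
    if_pos rfl, pow_zero, one_mul]
  congr 1
  refine Finset.prod_congr rfl fun a ha => ?_
  have h := Finset.ne_of_mem_erase ha
  rw [Function.update_of_ne h, if_neg h]

/-- value of a monomial under an evaluation in a field -/
theorem ev_mon {K : Type} [Field K] (x : I → K) (hx : ∀ a, IsUnit (x a)) (e : I → ℤ) :
    Lam.ev x hx (mon e) = ∏ a, x a ^ e a := by
  unfold mon
  rw [Units.coe_prod, map_prod]
  refine Finset.prod_congr rfl fun a _ => ?_
  have h1 : Lam.ev x hx (((XU a ^ e a : (Lam I)ˣ)) : Lam I)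
      = ((Units.map (Lam.ev x hx : Lam I →* K) (XU a ^ e a) : Kˣ) : K) := rfl
  rw [h1, map_zpow, Units.val_zpow_eq_zpow_val]
  congr 1
  show Lam.ev x hx (XU a : Lam I) = x a
  rw [XU_val, Lam.ev_X]

end Pool.Agent.Lib.MP_1d68e1_al.TS.LP
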