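import Pool.Agent.Lib.MP_1d68e1_al_ts.L6
import Pool.Agent.Lib.MP_1d68e1_al_ts.L7

/-!
# MP_1d68e1_al, Laurent part: the exchange polynomial is prime
-/

set_option autoImplicit false
set_option linter.unusedSectionVars false

noncomputable section

namespace Pool.Agent.Lib.MP_1d68e1_al.TS.LP

variable {n : ℕ} {κ : Type} [Fintype κ] [DecidableEq κ]

private lemma L8_prime {I : Type} [Fintype I] [DecidableEq I] (m m' : I → ℕ) (r : I)
    (hm : m r = 1) (hm' : m' r = 0) :
    Prime (∏ a, (Lam.X a : Lam I) ^ m a + ∏ a, Lam.X a ^ m' a) := by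
  have huA : IsUnit (∏ a ∈ Finset.univ.erase r, (Lam.X a : Lam I) ^ m a) :=
    (IsUnit.prod_iff).mpr fun a _ => (Lam.isUnit_X a).pow _
  have huM' : IsUnit (∏ a, (Lam.X a : Lam I) ^ m' a) :=
    (IsUnit.prod_univ_iff).mpr fun a => (Lam.isUnit_X a).pow _
  obtain ⟨u, hu⟩ := huA
  set A : Lam I := ∏ a ∈ Finset.univ.erase r, (Lam.X a : Lam I) ^ m a with hA
  set M' : Lam I := ∏ a, (Lam.X a : Lam I) ^ m' a with hM'
  have hM : ∏ a, (Lam.X a : Lam I) ^ m a = Lam.X r * A := by
    rw [← Finset.mul_prod_erase Finset.univ _ (Finset.mem_univ r), hm, pow_one]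
  have hAu : A * ((u⁻¹ : (Lam I)ˣ) : Lam I) = 1 := by
    rw [← hu]; exact Units.mul_inv u
  set x : I → Lam I := Function.update Lam.X r (-(M' * ((u⁻¹ : (Lam I)ˣ) : Lam I))) with hx
  have hxr : x r = -(M' * ((u⁻¹ : (Lam I)ˣ) : Lam I)) := by rw [hx, Function.update_self]
  have hxa : ∀ a, a ≠ r → x a = Lam.X a := fun a ha => by rw [hx, Function.update_of_ne ha]
  have hxu : ∀ a, IsUnit (x a) := by
    intro a
    by_cases ha : a = r
    · subst ha
      rw [hxr]
      exact (huM'.mul (Units.isUnit _)).neg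
    · rw [hxa a ha]; exact Lam.isUnit_X a
  have hφA : Lam.ev x hxu A = A := by
    rw [hA, map_prod]
    refine Finset.prod_congr rfl fun a ha => ?_
    rw [map_pow, Lam.ev_X, hxa a (Finset.ne_of_mem_erase ha)]
  have hφM' : Lam.ev x hxu M' = M' := by
    rw [hM', map_prod]
    refine Finset.prod_congr rfl fun a _ => ?_
    by_cases ha : a = r
    · subst ha; rw [hm', pow_zero, map_one]
    · rw [map_pow, Lam.ev_X, hxa a ha]
  rw [hM]
  have hφ : Lam.ev x hxu (Lam.X r * A + M') = 0 := by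
    rw [map_add, map_mul, Lam.ev_X, hφA, hφM', hxr]
    have : -(M' * ((u⁻¹ : (Lam I)ˣ) : Lam I)) * A + M' =
        M' * (1 - A * ((u⁻¹ : (Lam I)ˣ) : Lam I)) := by ring
    rw [this, hAu, sub_self, mul_zero]
  refine prime_of_hom (Lam.ev x hxu) _ ?_ fun f => ⟨fun hf => ?_, ?_⟩
  · intro h0
    have h1 := congrArg eps h0
    rw [map_zero, map_add, ← hM, hM', map_prod, map_prod] at h1
    have h2 : ∀ (k : I → ℕ), ∏ a, eps ((Lam.X a : Lam I) ^ k a) = 1 := by
      intro k
      refine Finset.prod_eq_one fun a _ => ?_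
      unfold eps
      rw [map_pow, Lam.ev_X, one_pow]
    rw [h2, h2] at h1
    norm_num at h1
  · have h3 : (Ideal.Quotient.mk (Ideal.span {Lam.X r * A + M'})).comp (Lam.ev x hxu) =
        Ideal.Quotient.mk (Ideal.span {Lam.X r * A + M'}) := by
      refine Lam.hom_ext _ _ fun a => ?_
      rw [RingHom.comp_apply, Lam.ev_X]
      by_cases ha : a = r
      · subst ha
        rw [Ideal.Quotient.eq, hxr, Ideal.mem_span_singleton]
        refine ⟨-((u⁻¹ : (Lam I)ˣ) : Lam I), ?_⟩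
        have : (Lam.X a * A + M') * -((u⁻¹ : (Lam I)ˣ) : Lam I) =
            -(M' * ((u⁻¹ : (Lam I)ˣ) : Lam I)) -
              Lam.X a * (A * ((u⁻¹ : (Lam I)ˣ) : Lam I)) := by ring
        rw [this, hAu, mul_one]
      · rw [hxa a ha]
    have h4 := congrArg (fun g => g f) h3
    simp only [RingHom.comp_apply] at h4
    rw [hf, map_zero] at h4
    exact Ideal.mem_span_singleton.mp (Ideal.Quotient.eq_zero_iff_mem.mp h4.symm)
  · rintro ⟨g, rfl⟩
    rw [map_mul, hφ, zero_mul]

/-- the exchange polynomial at `i` in the universal seed -/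
def UU (E : EM n κ) (i : Fin n) : Lam (Fin n ⊕ κ) := Mp E i Lam.X + Mm E i Lam.X

/-- PROOF. Let `M` be the one of the two monomials `Mp, Mm` which contains `X_r` (to the power 1),
`M = X_r * A`, and `M'` the other one; `A` and `M'` do not contain `X_r`, `A` is a unit.  Let
`φ = Lam.ev (Function.update X (inr r) (-M' A⁻¹))`.  Then `φ A = A`, `φ M' = M'`, `φ (UU) = 0`.
If `φ f = 0` then `UU ∣ f`: modulo `UU` the homomorphisms `mk` and `mk ∘ φ` agree on all variables
(`X_r + M' A⁻¹ = UU A⁻¹`), hence are equal (`Lam.hom_ext`), so `mk f = mk (φ f) = 0`.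
`UU ≠ 0` since its value at `(1, ..., 1)` (`eps`) is `2`.  Use `prime_of_hom`. -/
theorem prime_UU (E : EM n κ) (i : Fin n) (r : κ)
    (hr : E (Sum.inr r) i = 1 ∨ E (Sum.inr r) i = -1) : Prime (UU E i) := by
  unfold UU Mp Mm
  rcases hr with h | h
  · exact L8_prime _ _ (Sum.inr r) (by rw [h]; rfl) (by rw [h]; rfl)
  · rw [add_comm]
    exact L8_prime _ _ (Sum.inr r) (by rw [h]; rfl) (by rw [h]; rfl)

end Pool.Agent.Lib.MP_1d68e1_al.TS.LP
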