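import Pool.Agent.Lib.MP_1d68e1_al_ts.L14

/-!
# MP_1d68e1_al: the Laurent phenomenon (see L14: good_init, good_mutate, mutate_mutate, laurent)
-/
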