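import Pool.Agent.Lib.MP_1d68e1_al_ts.L9Defs

/-!
# MP_1d68e1_al, Laurent part: the three-step lemma, `b_ij = 0`
-/

set_option autoImplicit false
set_option linter.unusedSectionVars false

noncomputable section

namespace Pool.Agent.Lib.MP_1d68e1_al.TS.LP

variable {n : ℕ} {κ : Type} [Fintype κ] [DecidableEq κ]

theorem L9A_diag (E : EM n κ) (hs : SignSkew (top E)) (i : Fin n) : E (Sum.inl i) i = 0 := by
  rcases hs i i with h | h
  · exact h.1
  · exact absurd h (not_lt.mpr (mul_self_nonneg _))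

theorem L9A_zero (E : EM n κ) (hs : SignSkew (top E)) {i j : Fin n}
    (h0 : E (Sum.inl i) j = 0) : E (Sum.inl j) i = 0 := by
  rcases hs i j with h | h
  · exact h.2
  · exfalso
    have h1 : top E i j = 0 := h0
    rw [h1, zero_mul] at h
    exact lt_irrefl _ h

/-- PROOF.  `b_ji = 0` and `b_ii = b_jj = 0` by sign-skew-symmetry.  `E1 = mutE i E` has
`E1 a j = E a j` for `a ≠ inl i` (`mutE_ne`), `E1 (inl i) j = -b_ij = 0`; so `Mp E1 j (y1 E i)` and
`Mm E1 j (y1 E i)` do not involve the variable `inl i` and equal `Mp E j X`, `Mm E j X`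
(`Mp_congr, Mm_congr`); at the test point (any `T ≠ 0`, say `T = 1`) both have the value `1` (the
exponent of `X_r` is `(E (inr r) j).toNat = 0`).  So `psi uu = 2`.
`E2 = mutE j E1`: `E2 a i = E1 a i = -E a i` for all `a` (as `E1 (inl j) i = -b_ji = 0`), and
`E2 (inl i) i = E2 (inl j) i = 0`, so `vn = Mm E i X + Mp E i X = UU E i = X_i * zz`; `v = X_i`. -/
theorem three_zero (E : EM n κ) (hs : SignSkew (top E)) {i j : Fin n} (hij : i ≠ j) {r : κ}
    (hri : E (Sum.inr r) i = 1 ∨ E (Sum.inr r) i = -1) (hrj : E (Sum.inr r) j = 0)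
    (h0 : E (Sum.inl i) j = 0) : Three E i j r := by
  have hii := L9A_diag E hs i
  have hji := L9A_zero E hs h0
  have hE1j : ∀ a, mutE i E a j = E a j := by
    intro a
    by_cases ha : a = Sum.inl i
    · subst ha; rw [mutE_row, h0, neg_zero]
    · rw [mutE_ne _ ha hij.symm, h0]; simp
  have hE2i : ∀ a, mutE j (mutE i E) a i = -E a i := by
    intro a
    by_cases ha : a = Sum.inl j
    · subst ha; rw [mutE_row, mutE_col, hji, neg_zero, neg_zero]
    · rw [mutE_ne _ ha hij, mutE_col, mutE_col, hji]; simp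
  have hy1 : ∀ a, a ≠ Sum.inl i → y1 E i a = Lam.X a := fun a ha => Function.update_of_ne ha _ _
  have hy2 : ∀ a, a ≠ Sum.inl i → a ≠ Sum.inl j → y2 E i j a = Lam.X a := fun a ha hb => by
    unfold y2
    rw [Function.update_of_ne hb, hy1 a ha]
  have hvn : vn E i j = UU E i := by
    unfold vn UU
    rw [add_comm]
    congr 1
    · unfold Mp Mm
      refine Finset.prod_congr rfl fun a _ => ?_
      rw [hE2i, neg_neg]
      by_cases h1 : a = Sum.inl i
      · subst h1; rw [hii]; simp
      by_cases h2 : a = Sum.inl j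
      · subst h2; rw [hji]; simp
      rw [hy2 a h1 h2]
    · unfold Mp Mm
      refine Finset.prod_congr rfl fun a _ => ?_
      rw [hE2i]
      by_cases h1 : a = Sum.inl i
      · subst h1; rw [hii]; simp
      by_cases h2 : a = Sum.inl j
      · subst h2; rw [hji]; simp
      rw [hy2 a h1 h2]
  refine ⟨Lam.X (Sum.inl i), ?_, 1, one_ne_zero, ?_, ?_⟩
  · rw [hvn]
    unfold zz
    have h1 : (Lam.X (Sum.inl i) : Lam (Fin n ⊕ κ)) * mon (Pi.single (Sum.inl i) (-1)) = 1 := by
      have h2 := mon_single (I := Fin n ⊕ κ) (Sum.inl i) 1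
      rw [pow_one] at h2
      rw [← h2, ← mon_add, ← Pi.single_add]
      simp [mon_zero]
    calc Lam.X (Sum.inl i) * (UU E i * mon (Pi.single (Sum.inl i) (-1)))
        = UU E i * (Lam.X (Sum.inl i) * mon (Pi.single (Sum.inl i) (-1))) := by ring
      _ = UU E i := by rw [h1, mul_one]
  · have hX : ∀ a, a ≠ Sum.inr r → psi i r 1 one_ne_zero (Lam.X a) = 1 := by
      intro a ha
      unfold psi
      rw [Lam.ev_X]
      unfold pt
      split_ifs <;> rfl
    have hP : psi i r 1 one_ne_zero (Mp (mutE i E) j (y1 E i)) = 1 := by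
      unfold Mp
      rw [map_prod]
      refine Finset.prod_eq_one fun a _ => ?_
      rw [hE1j, map_pow]
      by_cases h1 : a = Sum.inl i
      · subst h1; rw [h0]; simp
      by_cases h2 : a = Sum.inr r
      · subst h2; rw [hrj]; simp
      rw [hy1 a h1, hX a h2, one_pow]
    have hM : psi i r 1 one_ne_zero (Mm (mutE i E) j (y1 E i)) = 1 := by
      unfold Mm
      rw [map_prod]
      refine Finset.prod_eq_one fun a _ => ?_
      rw [hE1j, map_pow]
      by_cases h1 : a = Sum.inl i
      · subst h1; rw [h0]; simp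
      by_cases h2 : a = Sum.inr r
      · subst h2; rw [hrj]; simp
      rw [hy1 a h1, hX a h2, one_pow]
    unfold uu
    rw [map_mul, map_add, hP, hM, psi_mon]
    have h1 : (Pi.single (Sum.inl j) (-1) : Fin n ⊕ κ → ℤ) (Sum.inr r) = 0 :=
      Pi.single_eq_of_ne Sum.inr_ne_inl _
    rw [h1]
    norm_num
  · unfold psi
    rw [Lam.ev_X]
    unfold pt
    rw [if_pos rfl]
    norm_num

end Pool.Agent.Lib.MP_1d68e1_al.TS.LP
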