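import Pool.Agent.Lib.MP_1d68e1_al_ts.L9BDefs

/-!
# MP_1d68e1_al, Laurent part: the three-step lemma, `b_ij > 0`, the formula for `u`
-/

set_option autoImplicit false
set_option linter.unusedSectionVars false

noncomputable section

namespace Pool.Agent.Lib.MP_1d68e1_al.TS.LP

variable {n : ℕ} {κ : Type} [Fintype κ] [DecidableEq κ]

theorem L9B1_diag (E : EM n κ) (hs : SignSkew (top E)) (i : Fin n) : E (Sum.inl i) i = 0 := by
  rcases hs i i with h | h
  · exact h.1
  · exact absurd h (not_lt.mpr (mul_self_nonneg _))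

theorem L9B1_neg (E : EM n κ) (hs : SignSkew (top E)) {i j : Fin n}
    (h0 : 0 < E (Sum.inl i) j) : E (Sum.inl j) i < 0 := by
  rcases hs i j with h | h
  · exfalso
    have h1 : E (Sum.inl i) j = 0 := h.1
    omega
  · have h1 : E (Sum.inl i) j * E (Sum.inl j) i < 0 := h
    by_contra h2
    exact absurd h1 (not_lt.mpr (mul_nonneg h0.le (not_lt.mp h2)))

/-- PROOF.  `E1 = mutE i E`, `E1 (inl i) j = -b_ij < 0`, `E1 (inl j) j = b_jj + [b_ji]_+ b_ij = 0`.
`Mp E1 j y1 = ∏ y1_a ^ (E1 a j).toNat` does not involve `inl i`, `Mm E1 j y1` contains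
`zz ^ b_ij`; use `prod_update_pow`, `prod_pow_eq_mon`, `mon_add`. -/
theorem uu_pos (E : EM n κ) (hs : SignSkew (top E)) {i j : Fin n} (hij : i ≠ j)
    (h0 : 0 < E (Sum.inl i) j) :
    uu E i j = mon (be E i j) + zz E i ^ (E (Sum.inl i) j).toNat * mon (al E i j) := by
  have hji := L9B1_neg E hs h0
  have hjj := L9B1_diag E hs j
  have e1 : mutE i E (Sum.inl j) j = 0 := by
    have hne : (Sum.inl j : Fin n ⊕ κ) ≠ Sum.inl i := fun h => hij (Sum.inl.inj h).symm
    rw [mutE_ne _ hne hij.symm, hjj, max_eq_right hji.le, max_eq_right (by omega)]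
    ring
  have hP : Mp (mutE i E) j (y1 E i) * mon (Pi.single (Sum.inl j) (-1)) = mon (be E i j) := by
    unfold Mp y1
    rw [prod_update_pow, prod_pow_eq_mon, mutE_row, Int.toNat_of_nonpos (by omega), pow_zero,
      one_mul, ← mon_add]
    congr 1
    funext a
    rw [Pi.add_apply]
    unfold be
    by_cases h1 : a = Sum.inl i
    · subst h1
      have hne : (Sum.inl i : Fin n ⊕ κ) ≠ Sum.inl j := fun h => hij (Sum.inl.inj h)
      rw [if_pos rfl, if_pos rfl, Pi.single_eq_of_ne hne]
      rfl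
    · rw [if_neg h1, if_neg h1]
      by_cases h2 : a = Sum.inl j
      · subst h2
        rw [if_pos rfl, Pi.single_eq_same, e1]
        rfl
      · rw [if_neg h2, Pi.single_eq_of_ne h2, add_zero, Int.toNat_eq_max]
  have hM : Mm (mutE i E) j (y1 E i) * mon (Pi.single (Sum.inl j) (-1)) =
      zz E i ^ (E (Sum.inl i) j).toNat * mon (al E i j) := by
    unfold Mm y1
    rw [prod_update_pow, prod_pow_eq_mon, mutE_row, neg_neg, mul_assoc, ← mon_add]
    congr 2
    funext a
    rw [Pi.add_apply]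
    unfold al
    by_cases h1 : a = Sum.inl i
    · subst h1
      have hne : (Sum.inl i : Fin n ⊕ κ) ≠ Sum.inl j := fun h => hij (Sum.inl.inj h)
      rw [if_pos rfl, if_pos rfl, Pi.single_eq_of_ne hne]
      rfl
    · rw [if_neg h1, if_neg h1]
      by_cases h2 : a = Sum.inl j
      · subst h2
        rw [if_pos rfl, Pi.single_eq_same, e1]
        rfl
      · rw [if_neg h2, Pi.single_eq_of_ne h2, add_zero, Int.toNat_eq_max]
  unfold uu
  rw [add_mul, hP, hM]

end Pool.Agent.Lib.MP_1d68e1_al.TS.LP
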