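import Pool.Agent.Lib.MP_1d68e1_al_ts.L9BDefs

/-!
# MP_1d68e1_al, Laurent part: the three-step lemma, `b_ij > 0`, the formula for the numerator of `v`
-/

set_option autoImplicit false
set_option linter.unusedSectionVars false

noncomputable section

namespace Pool.Agent.Lib.MP_1d68e1_al.TS.LP

variable {n : ℕ} {κ : Type} [Fintype κ] [DecidableEq κ]

theorem L9B2_diag (E : EM n κ) (hs : SignSkew (top E)) (i : Fin n) : E (Sum.inl i) i = 0 := by
  rcases hs i i with h | h
  · exact h.1
  · exact absurd h (not_lt.mpr (mul_self_nonneg _))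

theorem L9B2_neg (E : EM n κ) (hs : SignSkew (top E)) {i j : Fin n}
    (h0 : 0 < E (Sum.inl i) j) : E (Sum.inl j) i < 0 := by
  rcases hs i j with h | h
  · exfalso
    have h1 : E (Sum.inl i) j = 0 := h.1
    omega
  · have h1 : E (Sum.inl i) j * E (Sum.inl j) i < 0 := h
    by_contra h2
    exact absurd h1 (not_lt.mpr (mul_nonneg h0.le (not_lt.mp h2)))

/-- PROOF.  `E2 = mutE j E1`, `E2 (inl j) i = -E1 (inl j) i = b_ji < 0`,
`E2 (inl i) i = -b_ii + [-b_ij]_+ * (-b_ji) = 0`. `y2 = update (update X (inl i) zz) (inl j) uu`;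
use `prod_update_pow` twice. -/
theorem vn_pos (E : EM n κ) (hs : SignSkew (top E)) {i j : Fin n} (hij : i ≠ j)
    (h0 : 0 < E (Sum.inl i) j) :
    vn E i j = mon (ep E i j) + uu E i j ^ (-E (Sum.inl j) i).toNat * mon (de E i j) := by
  have hji := L9B2_neg E hs h0
  have hii := L9B2_diag E hs i
  have hnei : (Sum.inl i : Fin n ⊕ κ) ≠ Sum.inl j := fun h => hij (Sum.inl.inj h)
  have e1 : mutE j (mutE i E) (Sum.inl j) i = E (Sum.inl j) i := by
    rw [mutE_row, mutE_col, neg_neg]
  have e2 : mutE j (mutE i E) (Sum.inl i) i = 0 := by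
    rw [mutE_ne _ hnei hij, mutE_col, mutE_row, mutE_col, hii, max_eq_right (by omega),
      neg_neg, max_eq_right hji.le]
    ring
  have hP : Mp (mutE j (mutE i E)) i (y2 E i j) = mon (ep E i j) := by
    unfold Mp y2
    rw [prod_update_pow, e1, Int.toNat_of_nonpos hji.le, pow_zero, one_mul]
    unfold y1
    rw [prod_update_pow, if_neg hnei, e2, Int.toNat_zero, pow_zero, one_mul, prod_pow_eq_mon]
    congr 1
    funext a
    unfold ep
    by_cases h1 : a = Sum.inl i
    · rw [if_pos h1, if_pos h1]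
      rfl
    · rw [if_neg h1, if_neg h1]
      by_cases h2 : a = Sum.inl j
      · rw [if_pos h2, if_pos h2]
        rfl
      · rw [if_neg h2, if_neg h2, Int.toNat_eq_max]
  have hM : Mm (mutE j (mutE i E)) i (y2 E i j) =
      uu E i j ^ (-E (Sum.inl j) i).toNat * mon (de E i j) := by
    unfold Mm y2
    rw [prod_update_pow, e1]
    congr 1
    unfold y1
    rw [prod_update_pow, if_neg hnei, e2, neg_zero, Int.toNat_zero, pow_zero, one_mul,
      prod_pow_eq_mon]
    congr 1
    funext a
    unfold de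
    by_cases h1 : a = Sum.inl i
    · rw [if_pos h1, if_pos h1]
      rfl
    · rw [if_neg h1, if_neg h1]
      by_cases h2 : a = Sum.inl j
      · rw [if_pos h2, if_pos h2]
        rfl
      · rw [if_neg h2, if_neg h2, Int.toNat_eq_max]
  unfold vn
  rw [hP, hM]

end Pool.Agent.Lib.MP_1d68e1_al.TS.LP
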