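import Pool.Agent.Lib.MP_1d68e1_al_ts.L9BDefs

/-!
# MP_1d68e1_al, Laurent part: the three-step lemma, `b_ij > 0`, the key identity
-/

set_option autoImplicit false
set_option linter.unusedSectionVars false

noncomputable section

namespace Pool.Agent.Lib.MP_1d68e1_al.TS.LP

variable {n : ℕ} {κ : Type} [Fintype κ] [DecidableEq κ]

theorem L9B3_exp (E : EM n κ) (hs : SignSkew (top E)) {i j : Fin n} (hij : i ≠ j)
    (hc : E (Sum.inl j) i < 0) (a : Fin n ⊕ κ) :
    (-E (Sum.inl j) i) * be E i j a + de E i j a = ep E i j a + E a i := by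
  have hii : E (Sum.inl i) i = 0 := hs.diag i
  by_cases h1 : a = Sum.inl i
  · subst h1
    unfold be de ep
    rw [if_pos rfl, if_pos rfl, if_pos rfl, hii]
    ring
  · by_cases h2 : a = Sum.inl j
    · subst h2
      unfold be de ep
      rw [if_neg h1, if_pos rfl, if_neg h1, if_pos rfl, if_neg h1, if_pos rfl]
      ring
    · unfold be de ep
      rw [if_neg h1, if_neg h2, if_neg h1, if_neg h2, if_neg h1, if_neg h2]
      have h3 : mutE j (mutE i E) a i = -E a i + (-E (Sum.inl j) i) * max (mutE i E a j) 0 := by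
        rw [mutE_ne (mutE i E) h2 hij, mutE_col, mutE_col,
          max_eq_right (a := - -E (Sum.inl j) i) (by linarith)]
        ring
      have h4 := max_sub_max (mutE j (mutE i E) a i)
      linarith

/-- PROOF.  Exponents (`c = -b_ji > 0`): `c * be a + de a - ep a = E a i` for all `a`:
for `a ≠ i, j`: `E2 a i = -E a i + c * max (E1 a j) 0` by `mutE_ne` (`E1 (inl j) i = -b_ji = c > 0`);
`a = i`: `0 = b_ii`;  `a = j`: `-c = b_ji`.
Hence `mon be ^ c * mon de + mon ep = mon (ep - [-E · i]_+) * (mon [E · i]_+ + mon [-E · i]_+)`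
`= mon (ep - [-E · i]_+) * UU E i` (`UU_eq`), and `UU E i = zz * X_i`. -/
theorem key_pos (E : EM n κ) (hs : SignSkew (top E)) {i j : Fin n} (hij : i ≠ j)
    (h0 : 0 < E (Sum.inl i) j) :
    mon (be E i j) ^ (-E (Sum.inl j) i).toNat * mon (de E i j) + mon (ep E i j) =
      mon (nu E i j) * zz E i := by
  have hc : E (Sum.inl j) i < 0 := by
    rcases hs i j with ⟨h1, -⟩ | h1
    · exact absurd h1 h0.ne'
    · exact neg_of_mul_neg_right h1 h0.le
  have hcast : (((-E (Sum.inl j) i).toNat : ℕ) : ℤ) = -E (Sum.inl j) i :=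
    Int.toNat_of_nonneg (by linarith)
  unfold zz
  rw [UU_eq, mon_pow, ← mon_add, add_mul, mul_add, ← mon_add, ← mon_add, ← mon_add, ← mon_add]
  congr 2
  · funext a
    have h1 := L9B3_exp E hs hij hc a
    have h2 := max_sub_max (E a i)
    simp only [Pi.add_apply, hcast]
    unfold nu
    rw [Pi.single_apply]
    split_ifs <;> linarith
  · funext a
    simp only [Pi.add_apply]
    unfold nu
    rw [Pi.single_apply]
    split_ifs <;> linarith

end Pool.Agent.Lib.MP_1d68e1_al.TS.LP
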