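import Pool.Agent.Lib.MP_1d68e1_al_ts.L9Defs

/-!
# MP_1d68e1_al, Laurent part: the three-step lemma, `b_ij > 0`, the exponents
-/

set_option autoImplicit false
set_option linter.unusedSectionVars false

noncomputable section

namespace Pool.Agent.Lib.MP_1d68e1_al.TS.LP

variable {n : ℕ} {κ : Type} [Fintype κ] [DecidableEq κ]

/-- exponents -/
def be (E : EM n κ) (i j : Fin n) : Fin n ⊕ κ → ℤ := fun a =>
  if a = Sum.inl i then 0 else if a = Sum.inl j then -1 else max (mutE i E a j) 0

/-- exponents -/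
def al (E : EM n κ) (i j : Fin n) : Fin n ⊕ κ → ℤ := fun a =>
  if a = Sum.inl i then 0 else if a = Sum.inl j then -1 else max (-mutE i E a j) 0

/-- exponents -/
def ep (E : EM n κ) (i j : Fin n) : Fin n ⊕ κ → ℤ := fun a =>
  if a = Sum.inl i then 0 else if a = Sum.inl j then 0 else max (mutE j (mutE i E) a i) 0

/-- exponents -/
def de (E : EM n κ) (i j : Fin n) : Fin n ⊕ κ → ℤ := fun a =>
  if a = Sum.inl i then 0 else if a = Sum.inl j then 0 else max (-mutE j (mutE i E) a i) 0

/-- exponents -/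
def nu (E : EM n κ) (i j : Fin n) : Fin n ⊕ κ → ℤ := fun a =>
  ep E i j a - max (-E a i) 0 + if a = Sum.inl i then 1 else 0

end Pool.Agent.Lib.MP_1d68e1_al.TS.LP
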