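import Pool.Agent.Lib.MP_1d68e1_al_ts.L9C1

/-!
# MP_1d68e1_al, Laurent part: the three-step lemma, `b_ij < 0`
-/

set_option autoImplicit false
set_option linter.unusedSectionVars false

noncomputable section

namespace Pool.Agent.Lib.MP_1d68e1_al.TS.LP

variable {n : ℕ} {κ : Type} [Fintype κ] [DecidableEq κ]

theorem L9C2_Mp (E : EM n κ) (k : Fin n) {R : Type} [CommSemiring R] (x : Fin n ⊕ κ → R) :
    Mp (fun a j => -E a j) k x = Mm E k x := rfl

theorem L9C2_Mm (E : EM n κ) (k : Fin n) {R : Type} [CommSemiring R] (x : Fin n ⊕ κ → R) :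
    Mm (fun a j => -E a j) k x = Mp E k x := by
  unfold Mm Mp
  refine Finset.prod_congr rfl fun a _ => ?_
  rw [neg_neg]

theorem L9C2_zz (E : EM n κ) (i : Fin n) : zz (fun a j => -E a j) i = zz E i := by
  unfold zz UU
  rw [L9C2_Mp, L9C2_Mm, add_comm]

theorem L9C2_y1 (E : EM n κ) (i : Fin n) : y1 (fun a j => -E a j) i = y1 E i := by
  unfold y1
  rw [L9C2_zz]

theorem L9C2_uu (E : EM n κ) (i j : Fin n) : uu (fun a j => -E a j) i j = uu E i j := by
  unfold uu
  rw [L9C2_y1, mutE_neg, L9C2_Mp, L9C2_Mm, add_comm (Mm (mutE i E) j (y1 E i))]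

theorem L9C2_y2 (E : EM n κ) (i j : Fin n) : y2 (fun a j => -E a j) i j = y2 E i j := by
  unfold y2
  rw [L9C2_y1, L9C2_uu]

theorem L9C2_vn (E : EM n κ) (i j : Fin n) : vn (fun a j => -E a j) i j = vn E i j := by
  unfold vn
  rw [L9C2_y2, mutE_neg, mutE_neg, L9C2_Mp, L9C2_Mm, add_comm]

/-- PROOF.  Apply `three_pos` to `-E` (`mutE_neg`; `Mp (-E) k x = Mm E k x` etc., so that
`UU, zz, y1, uu, y2, vn` are the same for `-E`). -/
theorem three_neg (E : EM n κ) (hs : SignSkew (top E)) {i j : Fin n} (hij : i ≠ j) {r : κ}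
    (hri : E (Sum.inr r) i = 1 ∨ E (Sum.inr r) i = -1) (hrj : E (Sum.inr r) j = 0)
    (h0 : E (Sum.inl i) j < 0) : Three E i j r := by
  have h := three_pos (fun a j => -E a j) (i := i) (j := j) (r := r) ?_ hij ?_ ?_ ?_
  · unfold Three at h ⊢
    rw [L9C2_zz, L9C2_vn, L9C2_uu] at h
    exact h
  · intro a b
    rcases hs a b with ⟨h1, h2⟩ | h1
    · left
      show -top E a b = 0 ∧ -top E b a = 0
      rw [h1, h2, neg_zero]
      exact ⟨rfl, rfl⟩
    · right
      show -top E a b * -top E b a < 0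
      rw [neg_mul_neg]
      exact h1
  · show -E (Sum.inr r) i = 1 ∨ -E (Sum.inr r) i = -1
    rcases hri with h | h
    · right
      rw [h]
    · left
      rw [h, neg_neg]
  · show -E (Sum.inr r) j = 0
    rw [hrj, neg_zero]
  · show 0 < -E (Sum.inl i) j
    exact neg_pos.mpr h0

end Pool.Agent.Lib.MP_1d68e1_al.TS.LP
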