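import Pool.Agent.Lib.MP_1d68e1_al_ts.L9A
import Pool.Agent.Lib.MP_1d68e1_al_ts.L9C2

/-!
# MP_1d68e1_al, Laurent part: the three-step lemma
-/

set_option autoImplicit false
set_option linter.unusedSectionVars false

noncomputable section

namespace Pool.Agent.Lib.MP_1d68e1_al.TS.LP

variable {n : ℕ} {κ : Type} [Fintype κ] [DecidableEq κ]

theorem three (E : EM n κ) (hs : SignSkew (top E)) {i j : Fin n} (hij : i ≠ j) {r : κ}
    (hri : E (Sum.inr r) i = 1 ∨ E (Sum.inr r) i = -1) (hrj : E (Sum.inr r) j = 0) :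
    Three E i j r := by
  rcases lt_trichotomy (E (Sum.inl i) j) 0 with h | h | h
  · exact three_neg E hs hij hri hrj h
  · exact three_zero E hs hij hri hrj h
  · exact three_pos E hs hij hri hrj h

end Pool.Agent.Lib.MP_1d68e1_al.TS.LP
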