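import Pool.Agent.Lib.MP_1d68e1_al_ts.L9B1
import Pool.Agent.Lib.MP_1d68e1_al_ts.L9B2
import Pool.Agent.Lib.MP_1d68e1_al_ts.L9B3

/-!
# MP_1d68e1_al, Laurent part: the three-step lemma, `b_ij > 0`
-/

set_option autoImplicit false
set_option linter.unusedSectionVars false

noncomputable section

namespace Pool.Agent.Lib.MP_1d68e1_al.TS.LP

variable {n : ℕ} {κ : Type} [Fintype κ] [DecidableEq κ]

theorem abs_psi_mon (i : Fin n) (r : κ) (T : ℚ) (hT : T ≠ 0) (h1 : 0 < T)
    (e : Fin n ⊕ κ → ℤ) : |psi i r T hT (mon e)| = T ^ e (Sum.inl i) := by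
  rw [psi_mon, abs_mul, abs_zpow, abs_zpow, abs_neg, abs_one, one_zpow, mul_one, abs_of_pos h1]

theorem three_pos (E : EM n κ) (hs : SignSkew (top E)) {i j : Fin n} (hij : i ≠ j) {r : κ}
    (hri : E (Sum.inr r) i = 1 ∨ E (Sum.inr r) i = -1) (hrj : E (Sum.inr r) j = 0)
    (h0 : 0 < E (Sum.inl i) j) : Three E i j r := by
  have hii : E (Sum.inl i) i = 0 := hs.diag i
  obtain ⟨b, hb⟩ : ∃ b : ℕ, (E (Sum.inl i) j).toNat = b + 1 :=
    ⟨(E (Sum.inl i) j).toNat - 1, by omega⟩
  have e1 := uu_pos E hs hij h0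
  have e2 := vn_pos E hs hij h0
  have e3 := key_pos E hs hij h0
  rw [hb] at e1
  unfold Three
  rw [e2]
  generalize hc : (-E (Sum.inl j) i).toNat = c at e3 ⊢
  generalize hz : zz E i = z at e1 e3 ⊢
  generalize hu : uu E i j = u at e1 ⊢
  generalize hq : mon (be E i j) = q at e1 e3
  refine ⟨mon (de E i j) * mon (al E i j) * z ^ b *
    (∑ m ∈ Finset.range c, u ^ m * q ^ (c - 1 - m)) + mon (nu E i j), ?_, (c : ℚ) + 1,
    by positivity, ?_, ?_⟩
  · have e4 : (∑ m ∈ Finset.range c, u ^ m * q ^ (c - 1 - m)) * (u - q) = u ^ c - q ^ c :=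
      (Commute.all u q).geom_sum₂_mul c
    have e5 : u - q = z ^ (b + 1) * mon (al E i j) := by rw [e1]; ring
    rw [e5] at e4
    linear_combination (mon (de E i j)) * e4 - e3
  · have hT : ((c : ℚ) + 1) ≠ 0 := by positivity
    have hz0 : psi i r ((c : ℚ) + 1) hT z = 0 := by rw [← hz]; exact psi_zz E i r hii hri _ _
    rw [e1, map_add, map_mul, map_pow, hz0, zero_pow (Nat.succ_ne_zero b), zero_mul, add_zero, ← hq]
    exact ((isUnit_mon _).map _).ne_zero
  · have hT : ((c : ℚ) + 1) ≠ 0 := by positivity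
    have hT1 : (0 : ℚ) < (c : ℚ) + 1 := by positivity
    have hz0 : psi i r ((c : ℚ) + 1) hT z = 0 := by rw [← hz]; exact psi_zz E i r hii hri _ _
    have hu0 : psi i r ((c : ℚ) + 1) hT u = psi i r ((c : ℚ) + 1) hT q := by
      rw [e1, map_add, map_mul, map_pow, hz0, zero_pow (Nat.succ_ne_zero b), zero_mul, add_zero]
    have hnu : |psi i r ((c : ℚ) + 1) hT (mon (nu E i j))| = (c : ℚ) + 1 := by
      rw [abs_psi_mon _ _ _ _ hT1]
      have : nu E i j (Sum.inl i) = 1 := by
        unfold nu ep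
        rw [if_pos rfl, if_pos rfl, hii]
        simp
      rw [this, zpow_one]
    have hq1 : |psi i r ((c : ℚ) + 1) hT q| = 1 := by
      rw [← hq, abs_psi_mon _ _ _ _ hT1]
      have : be E i j (Sum.inl i) = 0 := by
        unfold be
        rw [if_pos rfl]
      rw [this, zpow_zero]
    have hal1 : |psi i r ((c : ℚ) + 1) hT (mon (al E i j))| = 1 := by
      rw [abs_psi_mon _ _ _ _ hT1]
      have : al E i j (Sum.inl i) = 0 := by
        unfold al
        rw [if_pos rfl]
      rw [this, zpow_zero]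
    have hde1 : |psi i r ((c : ℚ) + 1) hT (mon (de E i j))| = 1 := by
      rw [abs_psi_mon _ _ _ _ hT1]
      have : de E i j (Sum.inl i) = 0 := by
        unfold de
        rw [if_pos rfl]
      rw [this, zpow_zero]
    intro hv
    rw [map_add, map_mul, map_mul, map_mul, map_pow, hz0, map_sum] at hv
    have h1 : ∀ m ∈ Finset.range c, psi i r ((c : ℚ) + 1) hT (u ^ m * q ^ (c - 1 - m)) =
        psi i r ((c : ℚ) + 1) hT q ^ (c - 1) := by
      intro m hm
      rw [map_mul, map_pow, map_pow, hu0, ← pow_add]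
      congr 1
      have := Finset.mem_range.mp hm
      omega
    rw [Finset.sum_congr rfl h1, Finset.sum_const, Finset.card_range, nsmul_eq_mul] at hv
    have h2 := eq_neg_of_add_eq_zero_right hv
    have h3 := congrArg abs h2
    rw [hnu, abs_neg, abs_mul, abs_mul, abs_mul, abs_mul, hde1, hal1, abs_pow (psi i r _ hT q), hq1,
      one_pow, mul_one, mul_one, one_mul, Nat.abs_cast, abs_pow, abs_zero] at h3
    have h4 : (0 : ℚ) ^ b ≤ 1 := pow_le_one₀ le_rfl zero_le_one
    have h5 : (0 : ℚ) ^ b * c ≤ 1 * c := mul_le_mul_of_nonneg_right h4 (Nat.cast_nonneg c)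
    linarith

end Pool.Agent.Lib.MP_1d68e1_al.TS.LP
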