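import Pool.Agent.Lib.MP_1d68e1_al_ts.L8

/-!
# MP_1d68e1_al, Laurent part: the three-step lemma, definitions
-/

set_option autoImplicit false
set_option linter.unusedSectionVars false

noncomputable section

namespace Pool.Agent.Lib.MP_1d68e1_al.TS.LP

variable {n : ℕ} {κ : Type} [Fintype κ] [DecidableEq κ]

/-- The new variable `z = U_i / X_i`. -/
def zz (E : EM n κ) (i : Fin n) : Lam (Fin n ⊕ κ) := UU E i * mon (Pi.single (Sum.inl i) (-1))

/-- The cluster after the mutation at `i`. -/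
def y1 (E : EM n κ) (i : Fin n) : Fin n ⊕ κ → Lam (Fin n ⊕ κ) :=
  Function.update Lam.X (Sum.inl i) (zz E i)

/-- The new variable after the mutations at `i, j`. -/
def uu (E : EM n κ) (i j : Fin n) : Lam (Fin n ⊕ κ) :=
  (Mp (mutE i E) j (y1 E i) + Mm (mutE i E) j (y1 E i)) * mon (Pi.single (Sum.inl j) (-1))

/-- The cluster after the mutations at `i, j`. -/
def y2 (E : EM n κ) (i j : Fin n) : Fin n ⊕ κ → Lam (Fin n ⊕ κ) :=
  Function.update (y1 E i) (Sum.inl j) (uu E i j)

/-- The numerator of the new variable after the mutations at `i, j, i`. -/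
def vn (E : EM n κ) (i j : Fin n) : Lam (Fin n ⊕ κ) :=
  Mp (mutE j (mutE i E)) i (y2 E i j) + Mm (mutE j (mutE i E)) i (y2 E i j)

/-- The coordinates of the test point: `X_i = T`, `X_r = -1`, all others are `1`. -/
def pt (i : Fin n) (r : κ) (T : ℚ) : Fin n ⊕ κ → ℚ := fun a =>
  if a = Sum.inl i then T else if a = Sum.inr r then -1 else 1

theorem pt_unit (i : Fin n) (r : κ) {T : ℚ} (hT : T ≠ 0) (a : Fin n ⊕ κ) : IsUnit (pt i r T a) := by
  unfold pt
  split_ifs
  · exact isUnit_iff_ne_zero.mpr hT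
  · exact isUnit_iff_ne_zero.mpr (by norm_num)
  · exact isUnit_one

/-- The value at the test point. -/
def psi (i : Fin n) (r : κ) (T : ℚ) (hT : T ≠ 0) : Lam (Fin n ⊕ κ) →+* ℚ :=
  Lam.ev (pt i r T) (pt_unit i r hT)

/-- The conclusion of the three-step lemma: there is `v` with `v * z = (numerator)`, and there is a
test point where `z` vanishes and `u, v` do not. -/
def Three (E : EM n κ) (i j : Fin n) (r : κ) : Prop :=
  ∃ v : Lam (Fin n ⊕ κ), v * zz E i = vn E i j ∧
    ∃ (T : ℚ) (hT : T ≠ 0), psi i r T hT (uu E i j) ≠ 0 ∧ psi i r T hT v ≠ 0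

theorem L9Defs_pt_inl (i : Fin n) (r : κ) (T : ℚ) : pt i r T (Sum.inl i) = T := by
  unfold pt; rw [if_pos rfl]

theorem L9Defs_pt_inr (i : Fin n) (r : κ) (T : ℚ) : pt i r T (Sum.inr r) = -1 := by
  unfold pt; rw [if_neg Sum.inr_ne_inl, if_pos rfl]

theorem L9Defs_UU (E : EM n κ) (i : Fin n) :
    UU E i = mon (fun a => max (E a i) 0) + mon (fun a => max (-E a i) 0) := by
  unfold UU Mp Mm
  rw [prod_pow_eq_mon, prod_pow_eq_mon]
  congr 2
  · funext a; exact Int.ofNat_toNat _
  · funext a; exact Int.ofNat_toNat _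

/-- value of a monomial at the test point -/
theorem psi_mon (i : Fin n) (r : κ) (T : ℚ) (hT : T ≠ 0) (e : Fin n ⊕ κ → ℤ) :
    psi i r T hT (mon e) = T ^ e (Sum.inl i) * (-1) ^ e (Sum.inr r) := by
  unfold psi
  rw [ev_mon, Fintype.prod_sum_type]
  congr 1
  · rw [Finset.prod_eq_single i]
    · rw [L9Defs_pt_inl]
    · intro m _ hm
      unfold pt
      rw [if_neg (fun h => hm (Sum.inl_injective h)), if_neg Sum.inl_ne_inr, one_zpow]
    · intro h; exact absurd (Finset.mem_univ i) h
  · rw [Finset.prod_eq_single r]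
    · rw [L9Defs_pt_inr]
    · intro m _ hm
      unfold pt
      rw [if_neg Sum.inr_ne_inl, if_neg (fun h => hm (Sum.inr_injective h)), one_zpow]
    · intro h; exact absurd (Finset.mem_univ r) h

/-- `z` vanishes at the test point -/
theorem psi_zz (E : EM n κ) (i : Fin n) (r : κ) (hd : E (Sum.inl i) i = 0)
    (hr : E (Sum.inr r) i = 1 ∨ E (Sum.inr r) i = -1) (T : ℚ) (hT : T ≠ 0) :
    psi i r T hT (zz E i) = 0 := by
  have h : psi i r T hT (UU E i) = 0 := by
    rw [L9Defs_UU, map_add, psi_mon, psi_mon]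
    simp only [hd]
    rcases hr with h | h
    · simp [h]
    · simp [h]
  unfold zz
  rw [map_mul, h, zero_mul]

theorem UU_eq (E : EM n κ) (i : Fin n) :
    UU E i = mon (fun a => max (E a i) 0) + mon (fun a => max (-E a i) 0) :=
  L9Defs_UU E i

end Pool.Agent.Lib.MP_1d68e1_al.TS.LP
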