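import Pool.Agent.Lib.MP_1d68e1_al_ts.T0

/-!
# P1 (40 min): calculus of places

`Plc f z τ`: `f Q ≠ 0`, `z * Q = P`, `τ * f Q = f P`. From `f Q ≠ 0` we get `Q ≠ 0`, so `algebraMap Q ≠ 0` in `Amb n`
(IsFractionRing.injective, as in Lib Hom). unique: z Q = P, z Q' = P' give P Q' = P' Q in the polynomial ring
(injectivity), apply f. div: z / z' = (P Q') / (P' Q), f P' = τ' f Q' ≠ 0. aeval: MvPolynomial.induction_on (C a: the
integers; add; mul by a variable).
-/

set_option autoImplicit false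

noncomputable section

open MvPolynomial

namespace Pool.Agent.Lib.MP_1d68e1_al.TS

variable {n : ℕ}

variable {L : Type} [Field L] {f : MvPolynomial (Fin n ⊕ Fin n) ℤ →+* L}

theorem Plc.inj : Function.Injective
    (algebraMap (MvPolynomial (Fin n ⊕ Fin n) ℤ) (Amb n)) :=
  IsFractionRing.injective (MvPolynomial (Fin n ⊕ Fin n) ℤ) (Amb n)

theorem Plc.den_ne {Q : MvPolynomial (Fin n ⊕ Fin n) ℤ} (h : f Q ≠ 0) :
    algebraMap _ (Amb n) Q ≠ 0 := by
  intro h0
  apply h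
  have : Q = 0 := Plc.inj (h0.trans (map_zero _).symm)
  rw [this, map_zero]

theorem Plc.unique {z : Amb n} {τ τ' : L} (h : Plc f z τ) (h' : Plc f z τ') : τ = τ' := by
  obtain ⟨P, Q, hQ, hz, ht⟩ := h
  obtain ⟨P', Q', hQ', hz', ht'⟩ := h'
  have h1 : algebraMap _ (Amb n) (P * Q') = algebraMap _ (Amb n) (P' * Q) := by
    rw [map_mul, map_mul, ← hz, ← hz']; ring
  have h2 := congrArg f (Plc.inj h1)
  rw [map_mul, map_mul, ← ht, ← ht'] at h2
  have h3 : (τ - τ') * (f Q * f Q') = 0 := by linear_combination h2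
  rcases mul_eq_zero.mp h3 with h4 | h4
  · exact sub_eq_zero.mp h4
  · exact absurd h4 (mul_ne_zero hQ hQ')

theorem Plc.map (P : MvPolynomial (Fin n ⊕ Fin n) ℤ) :
    Plc f (algebraMap _ (Amb n) P) (f P) :=
  ⟨P, 1, by rw [map_one]; exact one_ne_zero, by rw [map_one, mul_one], by rw [map_one, mul_one]⟩

theorem Plc.one : Plc f (1 : Amb n) 1 := by
  have h := Plc.map (f := f) (1 : MvPolynomial (Fin n ⊕ Fin n) ℤ)
  rwa [map_one, map_one] at h

theorem Plc.add {z z' : Amb n} {τ τ' : L} (h : Plc f z τ) (h' : Plc f z' τ') :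
    Plc f (z + z') (τ + τ') := by
  obtain ⟨P, Q, hQ, hz, ht⟩ := h
  obtain ⟨P', Q', hQ', hz', ht'⟩ := h'
  refine ⟨P * Q' + P' * Q, Q * Q', ?_, ?_, ?_⟩
  · rw [map_mul]; exact mul_ne_zero hQ hQ'
  · rw [map_mul, map_add, map_mul, map_mul, ← hz, ← hz']; ring
  · rw [map_mul, map_add, map_mul, map_mul, ← ht, ← ht']; ring

theorem Plc.mul {z z' : Amb n} {τ τ' : L} (h : Plc f z τ) (h' : Plc f z' τ') :
    Plc f (z * z') (τ * τ') := by
  obtain ⟨P, Q, hQ, hz, ht⟩ := h
  obtain ⟨P', Q', hQ', hz', ht'⟩ := h'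
  refine ⟨P * P', Q * Q', ?_, ?_, ?_⟩
  · rw [map_mul]; exact mul_ne_zero hQ hQ'
  · rw [map_mul, map_mul, ← hz, ← hz']; ring
  · rw [map_mul, map_mul, ← ht, ← ht']; ring

theorem Plc.div {z z' : Amb n} {τ τ' : L} (h : Plc f z τ) (h' : Plc f z' τ') (h0 : τ' ≠ 0) :
    Plc f (z / z') (τ / τ') := by
  obtain ⟨P, Q, hQ, hz, ht⟩ := h
  obtain ⟨P', Q', hQ', hz', ht'⟩ := h'
  have hP' : f P' ≠ 0 := by rw [← ht']; exact mul_ne_zero h0 hQ'
  have hz0 : z' ≠ 0 := by
    rintro rfl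
    rw [zero_mul] at hz'
    exact Plc.den_ne hP' hz'.symm
  refine ⟨P * Q', P' * Q, ?_, ?_, ?_⟩
  · rw [map_mul]; exact mul_ne_zero hP' hQ
  · rw [map_mul, map_mul, ← hz, ← hz']; field_simp
  · rw [map_mul, map_mul, ← ht, ← ht']; field_simp

theorem Plc.pow {z : Amb n} {τ : L} (h : Plc f z τ) (m : ℕ) : Plc f (z ^ m) (τ ^ m) := by
  induction m with
  | zero => rw [pow_zero, pow_zero]; exact Plc.one
  | succ m ih => rw [pow_succ, pow_succ]; exact ih.mul h

theorem Plc.prod {ι : Type} (S : Finset ι) (z : ι → Amb n) (τ : ι → L)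
    (h : ∀ i ∈ S, Plc f (z i) (τ i)) : Plc f (∏ i ∈ S, z i) (∏ i ∈ S, τ i) := by
  classical
  induction S using Finset.induction_on with
  | empty => rw [Finset.prod_empty, Finset.prod_empty]; exact Plc.one
  | insert a S ha ih =>
    rw [Finset.prod_insert ha, Finset.prod_insert ha]
    exact (h a (Finset.mem_insert_self a S)).mul
      (ih fun i hi => h i (Finset.mem_insert_of_mem hi))

theorem Plc.aeval {σ : Type} (z : σ → Amb n) (τ : σ → L) (h : ∀ i, Plc f (z i) (τ i))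
    (P : MvPolynomial σ ℤ) :
    Plc f (MvPolynomial.aeval z P) (MvPolynomial.aeval τ P) := by
  induction P using MvPolynomial.induction_on with
  | C a =>
    rw [MvPolynomial.aeval_C, MvPolynomial.aeval_C]
    have h1 := Plc.map (f := f) (MvPolynomial.C a : MvPolynomial (Fin n ⊕ Fin n) ℤ)
    have h2 : algebraMap (MvPolynomial (Fin n ⊕ Fin n) ℤ) (Amb n) (MvPolynomial.C a) =
        algebraMap ℤ (Amb n) a := by
      simp
    have h3 : f (MvPolynomial.C a) = algebraMap ℤ L a := by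
      simp
    rwa [h2, h3] at h1
  | add p q hp hq => rw [_root_.map_add, _root_.map_add]; exact hp.add hq
  | mul_X p i hp =>
    rw [_root_.map_mul, _root_.map_mul, MvPolynomial.aeval_X, MvPolynomial.aeval_X]
    exact hp.mul (h i)

end Pool.Agent.Lib.MP_1d68e1_al.TS
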