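import Pool.Agent.Lib.MP_1d68e1_al_ts.P1

/-!
# P2 (40 min): the places fpl k c

plc_x, plc_y: Plc.map. zpow_poly: if a < 0 then 1 = p * X^(-a) in Z[X] (injectivity of Polynomial Z -> QT),
evaluate at 0. plc_xk: ((initSeed B).mutate k).x k = (prod x_i^[b_ik] * prod y_j^[1_jk] + prod x_i^[-b_ik] * prod
y_j^[-1_jk]) / x_k; at c = 1 all x_i (i <> k) are 1, x_k has the exponent 0 (b_kk = 0), the y-products are y_k = T - 1 and 1;
so the value is ((T - 1) + 1) / T = 1. val_nil: seedAt B [] = initSeed B, row k of the identity.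
-/

set_option autoImplicit false

noncomputable section

open MvPolynomial

namespace Pool.Agent.Lib.MP_1d68e1_al.TS

variable {n : ℕ}

theorem P2_inj : Function.Injective (algebraMap (Polynomial ℤ) QT) :=
  IsFractionRing.injective (Polynomial ℤ) QT

theorem TT_ne_zero : TT ≠ 0 := by
  intro h
  exact Polynomial.X_ne_zero (P2_inj (h.trans (map_zero _).symm))

theorem P2_fpl_X (k : Fin n) (c : ℕ) (s : Fin n ⊕ Fin n) : fpl k c (X s) = vpl k c s :=
  MvPolynomial.aeval_X _ _

theorem plc_x (k : Fin n) (c : ℕ) (i : Fin n) :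
    Plc (fpl k c) (algebraMap (MvPolynomial (Fin n ⊕ Fin n) ℤ) (Amb n) (X (Sum.inl i)))
      (if i = k then TT ^ c else 1) := by
  have h := Plc.map (f := fpl k c) (X (Sum.inl i))
  rwa [P2_fpl_X] at h

theorem plc_y (k : Fin n) (c : ℕ) (j : Fin n) :
    Plc (fpl k c) (yv j) (if j = k then TT - 1 else 0) := by
  have h := Plc.map (f := fpl k c) (X (Sum.inr j))
  rwa [P2_fpl_X] at h

theorem zpow_poly {a : ℤ} {p : Polynomial ℤ} (h : TT ^ a = algebraMap (Polynomial ℤ) QT p) :
    0 ≤ a := by
  by_contra hneg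
  push Not at hneg
  obtain ⟨m, hm⟩ : ∃ m : ℕ, a = -((m : ℤ) + 1) := ⟨(-a - 1).toNat, by omega⟩
  have h1 : (1 : QT) = algebraMap (Polynomial ℤ) QT (p * Polynomial.X ^ (m + 1)) := by
    rw [map_mul, ← h, map_pow, hm]
    change (1 : QT) = TT ^ (-((m : ℤ) + 1)) * TT ^ (m + 1)
    rw [← zpow_natCast TT (m + 1), ← zpow_add₀ TT_ne_zero]
    simp
  have h2 : (1 : Polynomial ℤ) = p * Polynomial.X ^ (m + 1) := by
    apply P2_inj
    rw [map_one]
    exact h1
  have h3 := congrArg (Polynomial.eval 0) h2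
  rw [Polynomial.eval_one, Polynomial.eval_mul, Polynomial.eval_pow, Polynomial.eval_X,
    zero_pow (Nat.succ_ne_zero m), mul_zero] at h3
  exact one_ne_zero h3

theorem plc_xk {B : Matrix (Fin n) (Fin n) ℤ} {k : Fin n} (hB : B k k = 0) :
    Plc (fpl k 1) (((initSeed B).mutate k).x k) 1 := by
  have hx : ∀ g : Fin n → ℕ, g k = 0 → Plc (fpl k 1) (∏ i, (initSeed B).x i ^ g i) 1 := by
    intro g hg
    have h1 := Plc.prod (f := fpl k 1) Finset.univ (fun i => (initSeed B).x i ^ g i)
      (fun i => (if i = k then TT ^ 1 else 1) ^ g i) (fun i _ => (plc_x k 1 i).pow (g i))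
    have h2 : ∏ i : Fin n, (if i = k then TT ^ 1 else 1) ^ g i = 1 := by
      apply Finset.prod_eq_one
      intro i _
      by_cases hi : i = k
      · rw [hi, hg, pow_zero]
      · rw [if_neg hi, one_pow]
    rwa [h2] at h1
  have hy1 : Plc (fpl k 1) (∏ j, yv j ^ ((initSeed B).C j k).toNat) (TT - 1) := by
    have h1 := Plc.prod (f := fpl k 1) Finset.univ (fun j => yv j ^ ((initSeed B).C j k).toNat)
      (fun j => (if j = k then TT - 1 else 0) ^ ((initSeed B).C j k).toNat)
      (fun j _ => (plc_y k 1 j).pow _)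
    have h2 : ∏ j : Fin n, (if j = k then TT - 1 else (0 : QT)) ^ ((initSeed B).C j k).toNat =
        TT - 1 := by
      rw [Finset.prod_eq_single k]
      · have h3 : (initSeed B).C k k = 1 := Matrix.one_apply_eq k
        rw [h3, if_pos rfl]
        exact pow_one _
      · intro j _ hj
        have h3 : (initSeed B).C j k = 0 := Matrix.one_apply_ne hj
        rw [h3]
        exact pow_zero _
      · intro h
        exact absurd (Finset.mem_univ k) h
    rwa [h2] at h1
  have hy2 : Plc (fpl k 1) (∏ j, yv j ^ (-(initSeed B).C j k).toNat) 1 := by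
    have h1 := Plc.prod (f := fpl k 1) Finset.univ (fun j => yv j ^ (-(initSeed B).C j k).toNat)
      (fun j => (if j = k then TT - 1 else 0) ^ (-(initSeed B).C j k).toNat)
      (fun j _ => (plc_y k 1 j).pow _)
    have h2 : ∏ j : Fin n, (if j = k then TT - 1 else (0 : QT)) ^ (-(initSeed B).C j k).toNat =
        1 := by
      apply Finset.prod_eq_one
      intro j _
      have h3 : (-(initSeed B).C j k).toNat = 0 := by
        change (-(1 : Matrix (Fin n) (Fin n) ℤ) j k).toNat = 0
        rw [Matrix.one_apply]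
        split_ifs <;> rfl
      rw [h3, pow_zero]
    rwa [h2] at h1
  have h1 : ((initSeed B).mutate k).x k =
      ((∏ i, (initSeed B).x i ^ ((initSeed B).B i k).toNat) *
        (∏ j, yv j ^ ((initSeed B).C j k).toNat) +
      (∏ i, (initSeed B).x i ^ (-(initSeed B).B i k).toNat) *
        (∏ j, yv j ^ (-(initSeed B).C j k).toNat)) / (initSeed B).x k := by
    unfold Seed.mutate
    exact Function.update_self _ _ _
  rw [h1]
  have e1 : ((initSeed B).B k k).toNat = 0 := by
    change (B k k).toNat = 0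
    rw [hB]; rfl
  have e2 : (-(initSeed B).B k k).toNat = 0 := by
    change (-B k k).toNat = 0
    rw [hB]; rfl
  have h2 : Plc (fpl k 1) ((initSeed B).x k) TT := by
    have h3 := plc_x k 1 k
    rwa [if_pos rfl, pow_one] at h3
  have h4 := (((hx (fun i => ((initSeed B).B i k).toNat) e1).mul hy1).add
    ((hx (fun i => (-(initSeed B).B i k).toNat) e2).mul hy2)).div h2 TT_ne_zero
  have h5 : (1 * (TT - 1) + 1 * 1) / TT = 1 := by
    rw [one_mul, one_mul, sub_add_cancel, div_self TT_ne_zero]
  rwa [h5] at h4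

theorem val_nil (B : Matrix (Fin n) (Fin n) ℤ) (k : Fin n) :
    Val B [] k ((1 : Matrix (Fin n) (Fin n) ℤ) k) := by
  intro c _ j
  have h := plc_x k c j
  have h1 : (if j = k then TT ^ c else 1) = TT ^ ((c : ℤ) * (1 : Matrix (Fin n) (Fin n) ℤ) k j +
      max (-(1 : Matrix (Fin n) (Fin n) ℤ) k j) 0) := by
    by_cases hj : j = k
    · subst hj
      rw [if_pos rfl, Matrix.one_apply_eq]
      simp
    · rw [if_neg hj, Matrix.one_apply_ne (fun h => hj h.symm)]
      simp
  rw [h1] at h
  exact h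

end Pool.Agent.Lib.MP_1d68e1_al.TS
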