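import Pool.Agent.Lib.MP_1d68e1_al_ts.P2

/-!
# P3 (40 min): Lemma P

Lau: z * (prod s.x i)^N = aeval (Sum.elim s.x yv) P. The values of the point: s = initSeed B, c = 0: x_i = 1; s = the
seed mutated at k, c = 1: x_j = 1 for j <> k (plc_x; the cluster variable j <> k is unchanged), x_k' = 1 (plc_xk); y_k = T - 1,
y_j = 0. So the left side has the value TT^a * 1^N, the right side aeval (values) P (Plc.aeval) which is the image of a
polynomial in Z[T] (all values are algebraMap of polynomials: MvPolynomial.aeval of algebraMap-values =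
algebraMap (aeval ..), e.g. `MvPolynomial.aeval_algebraMap_apply` or `map_aeval`). Plc.unique and zpow_poly.
-/

set_option autoImplicit false

noncomputable section

open MvPolynomial

namespace Pool.Agent.Lib.MP_1d68e1_al.TS

variable {n : ℕ}

/-- A Laurent polynomial has a nonnegative exponent when all cluster variables have the value 1. -/
theorem lemP_aux {s : Seed n} {z : Amb n} (hL : Lau s z) {k : Fin n} {c : ℕ}
    (hx : ∀ i, Plc (fpl k c) (s.x i) 1) {a : ℤ} (h : Plc (fpl k c) z (TT ^ a)) : 0 ≤ a := by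
  obtain ⟨N, P, hP⟩ := hL
  set v : Fin n ⊕ Fin n → Polynomial ℤ :=
    Sum.elim (fun _ => 1) (fun j => if j = k then Polynomial.X - 1 else 0) with hv
  have h1 : Plc (fpl k c) (z * (∏ i, s.x i) ^ N) (TT ^ a * (∏ _i : Fin n, (1 : QT)) ^ N) :=
    h.mul ((Plc.prod Finset.univ s.x (fun _ => (1 : QT)) fun i _ => hx i).pow N)
  have h2 := Plc.aeval (L := QT) (f := fpl k c) (Sum.elim s.x yv)
    (fun i => algebraMap (Polynomial ℤ) QT (v i)) (by
      rintro (i | j)
      · simpa [hv] using hx i
      · have := plc_y k c j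
        simp only [hv, Sum.elim_inr]
        by_cases hj : j = k
        · simpa [hj, TT] using this
        · simpa [hj] using this) P
  rw [hP] at h1
  have h3 := h1.unique h2
  rw [@MvPolynomial.aeval_def ℤ QT _ _ _ (Ring.toIntAlgebra QT), show @algebraMap ℤ QT _ _
    (Ring.toIntAlgebra QT) = (algebraMap (Polynomial ℤ) QT).comp (algebraMap ℤ (Polynomial ℤ)) from
    RingHom.ext_int _ _] at h3
  have h4 := MvPolynomial.eval₂_comp_left (algebraMap (Polynomial ℤ) QT)
    (algebraMap ℤ (Polynomial ℤ)) v P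
  refine zpow_poly (p := MvPolynomial.eval₂ (algebraMap ℤ (Polynomial ℤ)) v P) ?_
  rw [h4]
  have h5 : (⇑(algebraMap (Polynomial ℤ) QT) ∘ v) = fun i => algebraMap (Polynomial ℤ) QT (v i) :=
    rfl
  rw [h5, ← h3]
  simp

theorem lemP0 {B : Matrix (Fin n) (Fin n) ℤ} {z : Amb n} (hL : Lau (initSeed B) z)
    {k : Fin n} {a : ℤ} (h : Plc (fpl k 0) z (TT ^ a)) : 0 ≤ a := by
  refine lemP_aux hL (k := k) (c := 0) (fun i => ?_) h
  have := plc_x k 0 i
  simpa [initSeed] using this

theorem lemP1 {B : Matrix (Fin n) (Fin n) ℤ} {k : Fin n} (hB : B k k = 0) {z : Amb n}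
    (hL : Lau ((initSeed B).mutate k) z) {a : ℤ} (h : Plc (fpl k 1) z (TT ^ a)) : 0 ≤ a := by
  refine lemP_aux hL (k := k) (c := 1) (fun i => ?_) h
  by_cases hi : i = k
  · subst hi
    exact plc_xk hB
  · have := plc_x k 1 i
    simp only [hi, if_false] at this
    have h5 : ((initSeed B).mutate k).x i = (initSeed B).x i := by
      simp [Seed.mutate, Function.update, hi]
    rw [h5]
    exact this

end Pool.Agent.Lib.MP_1d68e1_al.TS
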