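import Pool.Agent.Lib.MP_1d68e1_al_ts.T0

/-!
# T4 (25 min): the C-matrix along a word

Cm is the second component of a foldl whose first component is mutWord (prove this first, by
List.reverseRecOn; `List.foldl_append`). seedAt is a foldl of Seed.mutate. RW_word: induction on RW as
in RW.word (Lib Red), using Cm_concat.
-/

set_option autoImplicit false

noncomputable section

open MvPolynomial

namespace Pool.Agent.Lib.MP_1d68e1_al.TS

variable {n : ℕ}

theorem Cm_nil (B : Matrix (Fin n) (Fin n) ℤ) : Cm B [] = 1 := rfl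

theorem t4_fst (w : List (Fin n)) (B C : Matrix (Fin n) (Fin n) ℤ) :
    (w.foldl (fun q k => (mutB k q.1, mutC k q.1 q.2)) (B, C)).1 = mutWord B w := by
  induction w generalizing B C with
  | nil => rfl
  | cons a w ih =>
    rw [List.foldl_cons, ih]
    rfl

theorem Cm_concat (B : Matrix (Fin n) (Fin n) ℤ) (w : List (Fin n)) (l : Fin n) :
    Cm B (w ++ [l]) = mutC l (mutWord B w) (Cm B w) := by
  unfold Cm
  rw [List.foldl_append]
  show mutC l (w.foldl (fun q k => (mutB k q.1, mutC k q.1 q.2)) (B, 1)).1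
    (w.foldl (fun q k => (mutB k q.1, mutC k q.1 q.2)) (B, 1)).2 = _
  rw [t4_fst]

theorem seedAt_nil (B : Matrix (Fin n) (Fin n) ℤ) : seedAt B [] = initSeed B := rfl

theorem seedAt_concat (B : Matrix (Fin n) (Fin n) ℤ) (w : List (Fin n)) (l : Fin n) :
    seedAt B (w ++ [l]) = (seedAt B w).mutate l := by
  unfold seedAt
  rw [List.foldl_append]
  rfl

theorem seedAt_B (B : Matrix (Fin n) (Fin n) ℤ) (w : List (Fin n)) :
    (seedAt B w).B = mutWord B w := by
  induction w using List.reverseRecOn with
  | nil => rfl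
  | append_singleton w l ih =>
    rw [seedAt_concat, mutWord_concat]
    show mutB l (seedAt B w).B = _
    rw [ih]

theorem seedAt_C (B : Matrix (Fin n) (Fin n) ℤ) (w : List (Fin n)) :
    (seedAt B w).C = Cm B w := by
  induction w using List.reverseRecOn with
  | nil => rfl
  | append_singleton w l ih =>
    rw [seedAt_concat, Cm_concat]
    show mutC l (seedAt B w).B (seedAt B w).C = _
    rw [ih, seedAt_B]

theorem RW_word {B0 : Matrix (Fin n) (Fin n) ℤ} {d : Dat n} {last : Option (Fin n)}
    (h : RW B0 d last) : ∃ w, d.B = mutWord B0 w ∧ d.C = Cm B0 w := by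
  induction h with
  | base => exact ⟨[], rfl, rfl⟩
  | step d last k _ _ ih =>
    obtain ⟨w, hw1, hw2⟩ := ih
    refine ⟨w ++ [k], ?_, ?_⟩
    · rw [mutWord_concat, ← hw1]; rfl
    · rw [Cm_concat, ← hw1, ← hw2]; rfl

end Pool.Agent.Lib.MP_1d68e1_al.TS
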