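import Pool.Agent.Lib.MP_1d68e1_al_ts.P3
import Pool.Agent.Lib.MP_1d68e1_al_ts.T4

/-!
# P4 (60 min): the step (a)

b = mutWord B w, x' = new variable = (prod x_i^[b_il] prod y_j^[c_jl] + prod x_i^[-b_il] prod y_j^[-c_jl]) / x_l
(seedAt_concat, seedAt_B, seedAt_C). Let e = 1: all c_jl >= 0 and c_il > 0 for some i <> k: the first product contains
y_i^(positive), value 0; the second y-product is 1 (exponents (-c_jl).toNat = 0). e = -1: the two terms exchange roles. So for
both places c = 0, 1: value(x') = prod_i value(x_i)^((-(e * b_il)).toNat) / value(x_l), value(x_j) = TT^(c G_j + m_j), m_j =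
max (-G j) 0, so value(x') = TT^(c g' + M), g' = -G l + sum_j G j * max (-(e b_jl)) 0, M = -m_l + sum_j m_j * max (-(e b_jl)) 0
(`(a.toNat : ℤ) = max a 0`; zpow arithmetic, TT ≠ 0). s = 1: all m_j = 0 (G j >= 0), M = 0, lemP1 (c = 1) gives g' >= 0, so
max (-g') 0 = 0 = M. s = -1: m_j = -G j, M = -g', lemP0 (c = 0) gives -g' >= 0, so max (-g') 0 = -g' = M. The other cluster
variables are unchanged (Function.update).
-/

set_option autoImplicit false

noncomputable section

open MvPolynomial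

namespace Pool.Agent.Lib.MP_1d68e1_al.TS

variable {n : ℕ}

theorem P4_prod_zpow {ι : Type} (S : Finset ι) (u : ι → ℤ) :
    ∏ i ∈ S, TT ^ (u i) = TT ^ (∑ i ∈ S, u i) := by
  classical
  induction S using Finset.induction_on with
  | empty => simp
  | insert a S ha ih => rw [Finset.prod_insert ha, Finset.sum_insert ha, ih, zpow_add₀ TT_ne_zero]

/-- the value of a product of powers of the cluster variables -/
theorem P4_xprod {B : Matrix (Fin n) (Fin n) ℤ} {w : List (Fin n)} {k : Fin n} {c : ℕ}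
    {t : Fin n → ℤ} (h : ∀ j, Plc (fpl k c) ((seedAt B w).x j) (TT ^ t j)) (a : Fin n → ℤ) :
    Plc (fpl k c) (∏ i, (seedAt B w).x i ^ (a i).toNat) (TT ^ (∑ i, t i * max (a i) 0)) := by
  have h1 : Plc (fpl k c) (∏ i, (seedAt B w).x i ^ (a i).toNat)
      (∏ i, (TT ^ t i) ^ (a i).toNat) :=
    Plc.prod Finset.univ _ _ (fun i _ => (h i).pow _)
  have h2 : ∏ i, (TT ^ t i) ^ (a i).toNat = TT ^ (∑ i, t i * max (a i) 0) := by
    rw [← P4_prod_zpow]
    apply Finset.prod_congr rfl
    intro i _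
    rw [← zpow_natCast, ← zpow_mul, Int.toNat_eq_max]
  rw [← h2]
  exact h1

/-- the value of the product of the `y_j` if all exponents are `0` -/
theorem P4_yprod_one (k : Fin n) (c : ℕ) {a : Fin n → ℤ} (ha : ∀ j, a j ≤ 0) :
    Plc (fpl k c) (∏ j, yv j ^ (a j).toNat) 1 := by
  have h1 : ∏ j, (yv j : Amb n) ^ (a j).toNat = 1 := by
    apply Finset.prod_eq_one
    intro j _
    rw [Int.toNat_of_nonpos (ha j), pow_zero]
  rw [h1]
  exact Plc.one

/-- the value of the product of the `y_j` if one exponent with `i ≠ k` is positive -/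
theorem P4_yprod_zero {k : Fin n} (c : ℕ) {a : Fin n → ℤ} {i : Fin n} (hik : i ≠ k)
    (hi : 0 < a i) : Plc (fpl k c) (∏ j, yv j ^ (a j).toNat) 0 := by
  have h1 : Plc (fpl k c) (∏ j, yv j ^ (a j).toNat)
      (∏ j, (if j = k then TT - 1 else 0) ^ (a j).toNat) :=
    Plc.prod Finset.univ _ _ (fun j _ => (plc_y k c j).pow _)
  have h2 : ∏ j, (if j = k then TT - 1 else 0) ^ (a j).toNat = (0 : QT) := by
    apply Finset.prod_eq_zero (Finset.mem_univ i)
    rw [if_neg hik, zero_pow]
    omega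
  rw [← h2]
  exact h1

/-- the value of the new cluster variable -/
theorem P4_new {B : Matrix (Fin n) (Fin n) ℤ} {w : List (Fin n)} {k l : Fin n} {c : ℕ} {e : ℤ}
    (he : Sgn e) {t : Fin n → ℤ} (h : ∀ j, Plc (fpl k c) ((seedAt B w).x j) (TT ^ t j))
    (hc : ∀ i, 0 ≤ e * Cm B w i l) (hne : ∃ i, i ≠ k ∧ Cm B w i l ≠ 0) :
    Plc (fpl k c) ((seedAt B (w ++ [l])).x l)
      (TT ^ (-t l + ∑ j, t j * max (-(e * mutWord B w j l)) 0)) := by
  have hx : (seedAt B (w ++ [l])).x l =
      ((∏ i, (seedAt B w).x i ^ (mutWord B w i l).toNat) * (∏ j, yv j ^ (Cm B w j l).toNat) +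
        (∏ i, (seedAt B w).x i ^ (-mutWord B w i l).toNat) *
          (∏ j, yv j ^ (-Cm B w j l).toNat)) / (seedAt B w).x l := by
    rw [seedAt_concat]
    unfold Seed.mutate
    simp only [Function.update_self, seedAt_B, seedAt_C]
  rw [hx]
  obtain ⟨i, hik, hi⟩ := hne
  have hx1 := P4_xprod h (fun i => mutWord B w i l)
  have hx2 := P4_xprod h (fun i => -mutWord B w i l)
  rcases he with rfl | rfl
  · simp only [one_mul] at hc ⊢
    have hy1 : Plc (fpl k c) (∏ j, yv j ^ (Cm B w j l).toNat) 0 :=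
      P4_yprod_zero c (a := fun j => Cm B w j l) hik (lt_of_le_of_ne (hc i) (Ne.symm hi))
    have hy2 : Plc (fpl k c) (∏ j, yv j ^ (-Cm B w j l).toNat) 1 :=
      P4_yprod_one k c (a := fun j => -Cm B w j l) (fun j => by
        have := hc j
        show -Cm B w j l ≤ 0
        omega)
    have h1 := ((hx1.mul hy1).add (hx2.mul hy2)).div (h l) (zpow_ne_zero _ TT_ne_zero)
    have h2 : (TT ^ (∑ i, t i * max (mutWord B w i l) 0) * 0 +
        TT ^ (∑ i, t i * max (-mutWord B w i l) 0) * 1) / TT ^ t l =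
        TT ^ (-t l + ∑ j, t j * max (-mutWord B w j l) 0) := by
      rw [mul_zero, zero_add, mul_one, ← zpow_sub₀ TT_ne_zero]
      congr 1
      ring
    rw [← h2]
    exact h1
  · have hy1 : Plc (fpl k c) (∏ j, yv j ^ (Cm B w j l).toNat) 1 :=
      P4_yprod_one k c (a := fun j => Cm B w j l) (fun j => by
        have := hc j
        show Cm B w j l ≤ 0
        omega)
    have hy2 : Plc (fpl k c) (∏ j, yv j ^ (-Cm B w j l).toNat) 0 :=
      P4_yprod_zero c (a := fun j => -Cm B w j l) hik (by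
        have := hc i
        show 0 < -Cm B w i l
        omega)
    have h1 := ((hx1.mul hy1).add (hx2.mul hy2)).div (h l) (zpow_ne_zero _ TT_ne_zero)
    have h2 : (TT ^ (∑ i, t i * max (mutWord B w i l) 0) * 1 +
        TT ^ (∑ i, t i * max (-mutWord B w i l) 0) * 0) / TT ^ t l =
        TT ^ (-t l + ∑ j, t j * max (-(-1 * mutWord B w j l)) 0) := by
      have e1 : ∀ j, -(-1 * mutWord B w j l) = mutWord B w j l := fun j => by ring
      simp only [e1]
      rw [mul_zero, add_zero, mul_one, ← zpow_sub₀ TT_ne_zero]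
      congr 1
      ring
    rw [← h2]
    exact h1

theorem val_a {B : Matrix (Fin n) (Fin n) ℤ} {w : List (Fin n)} {k l : Fin n}
    {G : Fin n → ℤ} {e s : ℤ} (he : Sgn e) (hs : Sgn s) (hBk : B k k = 0)
    (hG : ∀ j, 0 ≤ s * G j) (hV : Val B w k G) (hc : ∀ i, 0 ≤ e * Cm B w i l)
    (hne : ∃ i, i ≠ k ∧ Cm B w i l ≠ 0)
    (hL0 : Lau (initSeed B) ((seedAt B (w ++ [l])).x l))
    (hL1 : Lau ((initSeed B).mutate k) ((seedAt B (w ++ [l])).x l)) :
    0 ≤ s * (-G l + ∑ j, G j * max (-(e * mutWord B w j l)) 0) ∧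
      Val B (w ++ [l]) k
        (Function.update G l (-G l + ∑ j, G j * max (-(e * mutWord B w j l)) 0)) := by
  set g : ℤ := -G l + ∑ j, G j * max (-(e * mutWord B w j l)) 0 with hg
  set M : ℤ := -max (-G l) 0 + ∑ j, max (-G j) 0 * max (-(e * mutWord B w j l)) 0 with hM
  have hval : ∀ c : ℕ, c ≤ 1 → Plc (fpl k c) ((seedAt B (w ++ [l])).x l)
      (TT ^ ((c : ℤ) * g + M)) := by
    intro c hc1
    have h1 := P4_new he (hV c hc1) hc hne
    have h2 : -((c : ℤ) * G l + max (-G l) 0) + ∑ j, ((c : ℤ) * G j + max (-G j) 0) *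
        max (-(e * mutWord B w j l)) 0 = (c : ℤ) * g + M := by
      rw [hg, hM]
      simp only [add_mul, Finset.sum_add_distrib, mul_add, Finset.mul_sum, mul_assoc]
      ring
    rw [h2] at h1
    exact h1
  have hold : ∀ j, j ≠ l → (seedAt B (w ++ [l])).x j = (seedAt B w).x j := by
    intro j hj
    rw [seedAt_concat]
    unfold Seed.mutate
    simp only
    rw [Function.update_of_ne hj]
  have hfin : max (-g) 0 = M → Val B (w ++ [l]) k (Function.update G l g) := by
    intro hgM c hc1 j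
    by_cases hj : j = l
    · subst hj
      rw [Function.update_self, hgM]
      exact hval c hc1
    · rw [Function.update_of_ne hj, hold j hj]
      exact hV c hc1 j
  rcases hs with rfl | rfl
  · have hG' : ∀ j, max (-G j) 0 = 0 := by
      intro j
      have := hG j
      rw [max_eq_right]
      omega
    have hM0 : M = 0 := by
      rw [hM]
      simp only [hG', zero_mul, Finset.sum_const_zero, neg_zero, add_zero]
    have h1 := hval 1 le_rfl
    rw [hM0] at h1
    have h2 : ((1 : ℕ) : ℤ) * g + 0 = g := by push_cast; ring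
    rw [h2] at h1
    have h3 := lemP1 hBk hL1 h1
    refine ⟨by omega, hfin ?_⟩
    rw [hM0, max_eq_right]
    omega
  · have hG' : ∀ j, max (-G j) 0 = -G j := by
      intro j
      have := hG j
      rw [max_eq_left]
      omega
    have hMg : M = -g := by
      rw [hM, hg]
      simp only [hG', neg_mul, Finset.sum_neg_distrib]
      ring
    have h1 := hval 0 (by omega)
    rw [hMg] at h1
    have h2 : ((0 : ℕ) : ℤ) * g + -g = -g := by push_cast; ring
    rw [h2] at h1
    have h3 := lemP0 hL0 h1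
    refine ⟨by omega, hfin ?_⟩
    rw [hMg, max_eq_left h3]

end Pool.Agent.Lib.MP_1d68e1_al.TS
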