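import Pool.Agent.Lib.MP_1d68e1_al_ts.P2
import Pool.Agent.Lib.MP_1d68e1_al_ts.T4

/-!
# P5 (45 min): the step (b)

The row G is s e_l and the column l of C is s e_k. value(x_j) = TT^(0) = 1 for j <> l, value(x_l) = TT^(c s + max (-s) 0)
(T^c for s = 1, T^(1-c) for s = -1). The exponent of x_l in the exchange relation is b_ll = 0 (hd), so both x-products have the value 1.
y-products: s = 1: y_k = T - 1 and 1; s = -1: 1 and y_k = T - 1. So the numerator has the value T and the new variable has the value
T / T^c = T^(1-c) (s = 1; expected: -c + max 1 0 = 1 - c) or T / T^(1-c) = T^c (s = -1; expected: c + max (-1) 0 = c).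
-/

set_option autoImplicit false

noncomputable section

open MvPolynomial

namespace Pool.Agent.Lib.MP_1d68e1_al.TS

variable {n : ℕ}

theorem val_b {B : Matrix (Fin n) (Fin n) ℤ} {w : List (Fin n)} {k l : Fin n} {s : ℤ}
    (hs : Sgn s) (hd : mutWord B w l l = 0)
    (hV : Val B w k (fun j => if j = l then s else 0))
    (hc : ∀ i, Cm B w i l = if i = k then s else 0) :
    Val B (w ++ [l]) k (fun j => if j = l then -s else 0) := by
  intro c hc1 j
  have hx : ∀ i, i ≠ l → Plc (fpl k c) ((seedAt B w).x i) 1 := by
    intro i hi
    have := hV c hc1 i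
    simpa [hi] using this
  have hxl : Plc (fpl k c) ((seedAt B w).x l) (TT ^ ((c : ℤ) * s + max (-s) 0)) := by
    have := hV c hc1 l
    simpa using this
  rw [seedAt_concat]
  by_cases hj : j = l
  · subst hj
    have hprodx : ∀ e : Fin n → ℕ, e j = 0 →
        Plc (fpl k c) (∏ i, (seedAt B w).x i ^ e i) 1 := by
      intro e he
      have := Plc.prod (f := fpl k c) Finset.univ (fun i => (seedAt B w).x i ^ e i)
        (fun _ => (1 : QT)) (fun i _ => by
          by_cases hi : i = j
          · subst hi
            rw [he, pow_zero]
            exact Plc.one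
          · have := (hx i hi).pow (e i)
            simpa using this)
      simpa using this
    have hprody : ∀ (e : Fin n → ℕ) (m : ℕ), (∀ i, e i = if i = k then m else 0) →
        Plc (fpl k c) (∏ i, yv i ^ e i) ((TT - 1) ^ m) := by
      intro e m he
      have := Plc.prod (f := fpl k c) Finset.univ (fun i => (yv i : Amb n) ^ e i)
        (fun i => if i = k then (TT - 1) ^ m else (1 : QT)) (fun i _ => by
          by_cases hi : i = k
          · subst hi
            have := (plc_y i c i).pow (e i)
            rw [he i] at this ⊢
            simpa using this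
          · rw [he i]
            simp only [hi, if_false, pow_zero]
            exact Plc.one)
      simpa using this
    have hp1 := hprodx (fun i => ((seedAt B w).B i j).toNat) (by
      simp [seedAt_B, hd])
    have hp2 := hprodx (fun i => (-(seedAt B w).B i j).toNat) (by
      simp [seedAt_B, hd])
    have hq1 := hprody (fun i => ((seedAt B w).C i j).toNat) s.toNat (by
      intro i
      simp only [seedAt_C, hc i]
      split_ifs <;> simp)
    have hq2 := hprody (fun i => (-(seedAt B w).C i j).toNat) (-s).toNat (by
      intro i
      simp only [seedAt_C, hc i]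
      split_ifs <;> simp)
    have hsum := ((hp1.mul hq1).add (hp2.mul hq2)).div hxl (zpow_ne_zero _ TT_ne_zero)
    have hval : (1 * (TT - 1) ^ s.toNat + 1 * (TT - 1) ^ (-s).toNat) /
        TT ^ ((c : ℤ) * s + max (-s) 0) = (TT : QT) ^ ((c : ℤ) * (-s) + max (-(-s)) 0) := by
      have hnum : (1 * (TT - 1) ^ s.toNat + 1 * (TT - 1) ^ (-s).toNat : QT) = TT ^ (1 : ℤ) := by
        rcases hs with rfl | rfl <;> simp
      rw [hnum, ← zpow_sub₀ TT_ne_zero]
      congr 1
      rcases hs with rfl | rfl
      · simp
        ring
      · simp
    rw [hval] at hsum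
    have hnew : ((seedAt B w).mutate j).x j =
        ((∏ i, (seedAt B w).x i ^ ((seedAt B w).B i j).toNat) *
            (∏ i, yv i ^ ((seedAt B w).C i j).toNat) +
          (∏ i, (seedAt B w).x i ^ (-(seedAt B w).B i j).toNat) *
            (∏ i, yv i ^ (-(seedAt B w).C i j).toNat)) / (seedAt B w).x j := by
      simp [Seed.mutate]
    rw [hnew]
    simpa using hsum
  · have h5 : ((seedAt B w).mutate l).x j = (seedAt B w).x j := by
      simp [Seed.mutate, Function.update, hj]
    rw [h5]
    have := hx j hj
    simpa [hj] using this

end Pool.Agent.Lib.MP_1d68e1_al.TS
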