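import Pool.Agent.Lib.MP_1d68e1_al_ts.T5

/-!
# T7 (40 min): columns of C that are unit vectors, rows of G that are unit vectors

col_unit: if column l of C is supported on {k}, then (C^T G^v) l l = C k l * G^v k l = 1 (CT_mul_G), so
C k l is a unit of Z (Int.isUnit_iff). row_of_col: (C^T G^v) l j = s * G^v k j = (if l = j then 1 else 0),
multiply by s (sgn_mul_self). col_of_row: (G^v C^T) k i = s * C i l. The primed versions are the same
with (Cm (-B^T), Gm B) and CvT_mul_G, G_mul_CvT. row_unit': if row k of G is supported on {l}, then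
(G C^vT) k k = G k l * C^v k l = 1. row_unit: the same for G^v and C.
-/

set_option autoImplicit false

noncomputable section

open MvPolynomial

namespace Pool.Agent.Lib.MP_1d68e1_al.TS

variable {n : ℕ}

private theorem T7_sgn_of_mul {a b : ℤ} (h : a * b = 1) : Sgn a := by
  have : IsUnit a := IsUnit.of_mul_eq_one b h
  exact Int.isUnit_iff.1 this

private theorem T7_unit_col {C G : Matrix (Fin n) (Fin n) ℤ} (h : C.transpose * G = 1)
    {l k : Fin n} (h0 : ∀ i, i ≠ k → C i l = 0) : Sgn (C k l) := by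
  have h1 : (C.transpose * G) l l = 1 := by rw [h]; exact Matrix.one_apply_eq l
  rw [Matrix.mul_apply, Finset.sum_eq_single k] at h1
  · exact T7_sgn_of_mul h1
  · intro i _ hi
    rw [Matrix.transpose_apply, h0 i hi, zero_mul]
  · intro hk
    exact absurd (Finset.mem_univ k) hk

private theorem T7_unit_row {C G : Matrix (Fin n) (Fin n) ℤ} (h : G * C.transpose = 1)
    {l k : Fin n} (h0 : ∀ j, j ≠ l → G k j = 0) : Sgn (G k l) := by
  have h1 : (G * C.transpose) k k = 1 := by rw [h]; exact Matrix.one_apply_eq k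
  rw [Matrix.mul_apply, Finset.sum_eq_single l] at h1
  · exact T7_sgn_of_mul h1
  · intro i _ hi
    rw [h0 i hi, zero_mul]
  · intro hk
    exact absurd (Finset.mem_univ l) hk

private theorem T7_row {C G : Matrix (Fin n) (Fin n) ℤ} (h : C.transpose * G = 1)
    {l k : Fin n} {s : ℤ} (hs : Sgn s) (hc : ∀ i, C i l = if i = k then s else 0) :
    ∀ j, G k j = if j = l then s else 0 := by
  intro j
  have h1 : (C.transpose * G) l j = (1 : Matrix (Fin n) (Fin n) ℤ) l j := by rw [h]
  rw [Matrix.mul_apply, Finset.sum_eq_single k] at h1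
  · rw [Matrix.transpose_apply, hc k, if_pos rfl, Matrix.one_apply] at h1
    have h2 : G k j = s * (s * G k j) := by
      rw [← mul_assoc, sgn_mul_self hs, one_mul]
    rw [h2, h1]
    by_cases hj : l = j
    · rw [if_pos hj, if_pos hj.symm, mul_one]
    · rw [if_neg hj, if_neg (fun e => hj e.symm), mul_zero]
  · intro i _ hi
    rw [Matrix.transpose_apply, hc i, if_neg hi, zero_mul]
  · intro hk
    exact absurd (Finset.mem_univ k) hk

private theorem T7_col {C G : Matrix (Fin n) (Fin n) ℤ} (h : G * C.transpose = 1)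
    {l k : Fin n} {s : ℤ} (hs : Sgn s) (hg : ∀ j, G k j = if j = l then s else 0) :
    ∀ i, C i l = if i = k then s else 0 := by
  intro i
  have h1 : (G * C.transpose) k i = (1 : Matrix (Fin n) (Fin n) ℤ) k i := by rw [h]
  rw [Matrix.mul_apply, Finset.sum_eq_single l] at h1
  · rw [Matrix.transpose_apply, hg l, if_pos rfl, Matrix.one_apply] at h1
    have h2 : C i l = s * (s * C i l) := by
      rw [← mul_assoc, sgn_mul_self hs, one_mul]
    rw [h2, h1]
    by_cases hj : k = i
    · rw [if_pos hj, if_pos hj.symm, mul_one]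
    · rw [if_neg hj, if_neg (fun e => hj e.symm), mul_zero]
  · intro j _ hj
    rw [hg j, if_neg hj, zero_mul]
  · intro hk
    exact absurd (Finset.mem_univ l) hk

theorem col_unit {r : ℕ} (hH : HH n r) {B : Matrix (Fin n) (Fin n) ℤ} (hB : TotallySignSkew B)
    {w : List (Fin n)} (hw : w.length ≤ r) {l k : Fin n}
    (h : ∀ i, i ≠ k → Cm B w i l = 0) : Sgn (Cm B w k l) :=
  T7_unit_col (CT_mul_G hH hB hw) h

theorem row_of_col {r : ℕ} (hH : HH n r) {B : Matrix (Fin n) (Fin n) ℤ}
    (hB : TotallySignSkew B) {w : List (Fin n)} (hw : w.length ≤ r) {l k : Fin n} {s : ℤ}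
    (hs : Sgn s) (h : ∀ i, Cm B w i l = if i = k then s else 0) :
    ∀ j, Gm (-B.transpose) w k j = if j = l then s else 0 :=
  T7_row (CT_mul_G hH hB hw) hs h

theorem col_of_row {r : ℕ} (hH : HH n r) {B : Matrix (Fin n) (Fin n) ℤ}
    (hB : TotallySignSkew B) {w : List (Fin n)} (hw : w.length ≤ r) {l k : Fin n} {s : ℤ}
    (hs : Sgn s) (h : ∀ j, Gm (-B.transpose) w k j = if j = l then s else 0) :
    ∀ i, Cm B w i l = if i = k then s else 0 :=
  T7_col (G_mul_CT hH hB hw) hs h

theorem row_of_col' {r : ℕ} (hH : HH n r) {B : Matrix (Fin n) (Fin n) ℤ}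
    (hB : TotallySignSkew B) {w : List (Fin n)} (hw : w.length ≤ r) {l k : Fin n} {s : ℤ}
    (hs : Sgn s) (h : ∀ i, Cm (-B.transpose) w i l = if i = k then s else 0) :
    ∀ j, Gm B w k j = if j = l then s else 0 :=
  T7_row (CvT_mul_G hH hB hw) hs h

theorem col_of_row' {r : ℕ} (hH : HH n r) {B : Matrix (Fin n) (Fin n) ℤ}
    (hB : TotallySignSkew B) {w : List (Fin n)} (hw : w.length ≤ r) {l k : Fin n} {s : ℤ}
    (hs : Sgn s) (h : ∀ j, Gm B w k j = if j = l then s else 0) :
    ∀ i, Cm (-B.transpose) w i l = if i = k then s else 0 :=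
  T7_col (G_mul_CvT hH hB hw) hs h

theorem row_unit {r : ℕ} (hH : HH n r) {B : Matrix (Fin n) (Fin n) ℤ} (hB : TotallySignSkew B)
    {w : List (Fin n)} (hw : w.length ≤ r) {l k : Fin n}
    (h : ∀ j, j ≠ l → Gm (-B.transpose) w k j = 0) : Sgn (Gm (-B.transpose) w k l) :=
  T7_unit_row (G_mul_CT hH hB hw) h

theorem row_unit' {r : ℕ} (hH : HH n r) {B : Matrix (Fin n) (Fin n) ℤ} (hB : TotallySignSkew B)
    {w : List (Fin n)} (hw : w.length ≤ r) {l k : Fin n}
    (h : ∀ j, j ≠ l → Gm B w k j = 0) : Sgn (Gm B w k l) :=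
  T7_unit_row (G_mul_CvT hH hB hw) h

end Pool.Agent.Lib.MP_1d68e1_al.TS
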