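import Pool.Agent.Lib.MP_1d68e1_al_ts.P4
import Pool.Agent.Lib.MP_1d68e1_al_ts.P5
import Pool.Agent.Lib.MP_1d68e1_al_ts.T7

/-!
# P6 (60 min): rows of G are coherent

hL0, hL1: the Laurent phenomenon (as hypotheses here). Induction on w (List.reverseRecOn); statement: there is a sign s with
SideAt B w k s, Val B w k (Gm B w k), Val (-B^T) w k (Gm (-B^T) w k). w = []: Gm = 1, s = 1, val_nil.
Step w ++ [l], w.length < r. e := common sign (hH). Rows of G at w ++ [l]: Gm_step and mul_F_apply_ne, mul_F_apply_self (T1), i.e.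
Gm B (w ++ [l]) k = Function.update (Gm B w k) l (-G l + sum_j G j * max (-(e * b_jl)) 0), also for -B^T (Gm_step for -B^T: CohAt (-B^T) w l e
is CohAt B w l e with the halves exchanged, -(-B^T)^T = B; mutWord_negT is not needed, keep mutWord (-B^T) w).
(A) both columns l (of C = Cm B w and C^v = Cm (-B^T) w) have a nonzero entry off k: val_a twice, same side s.
(B) column l of C vanishes off k: col_unit: it is s0 e_k; row_of_col: row k of G^v is s0 e_l; 0 <= s * s0: s0 = s. If column l of C^v has a
nonzero entry off k: val_a for -B^T gives 0 <= s * (-s + 0) = -1 (the sum vanishes: G^v j = 0 for j <> l and the diagonal entry is 0),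
contradiction. So column l of C^v is s1 e_k (col_unit for -B^T), row k of G is s1 e_l (row_of_col'), s1 = s. val_b for both, side -s;
the new rows are -s e_l (the sum vanishes).
(C) column l of C has a nonzero entry off k, column l of C^v vanishes off k: as in (B) with the roles exchanged: contradiction.
(Proving a one-sided auxiliary lemma first and using it for B and -B^T saves half of the work.)
-/

set_option autoImplicit false

noncomputable section

open MvPolynomial

namespace Pool.Agent.Lib.MP_1d68e1_al.TS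

variable {n : ℕ}

theorem P6_row {r : ℕ} (hH : HH n r) {B : Matrix (Fin n) (Fin n) ℤ} (hB : TotallySignSkew B)
    {w : List (Fin n)} (hw : w.length < r) {l : Fin n} {e : ℤ} (he : Sgn e)
    (hc : CohAt B w l e) (k : Fin n) : Gm B (w ++ [l]) k = Function.update (Gm B w k) l
      (-Gm B w k l + ∑ j, Gm B w k j * max (-(e * mutWord B w j l)) 0) := by
  funext j
  rw [Gm_step hH hB hw he hc]
  by_cases hj : j = l
  · subst hj
    rw [Function.update_self, mul_F_apply_self _ _ _ _ _ (tss_diag hB w j)]
  · rw [Function.update_of_ne hj, mul_F_apply_ne _ _ _ _ hj]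

theorem P6_coh {B : Matrix (Fin n) (Fin n) ℤ} {w : List (Fin n)} {l : Fin n} {e : ℤ}
    (hc : CohAt B w l e) : CohAt (-B.transpose) w l e := by
  refine ⟨hc.2, ?_⟩
  rw [neg_transpose_neg_transpose]
  exact hc.1

theorem P6_side {B : Matrix (Fin n) (Fin n) ℤ} {w : List (Fin n)} {k : Fin n} {s : ℤ}
    (hc : SideAt B w k s) : SideAt (-B.transpose) w k s := by
  refine ⟨hc.2, ?_⟩
  rw [neg_transpose_neg_transpose]
  exact hc.1

theorem P6_sum {B : Matrix (Fin n) (Fin n) ℤ} {w : List (Fin n)} {l : Fin n} {e s : ℤ}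
    (hd : mutWord B w l l = 0) {G : Fin n → ℤ} (hG : ∀ j, G j = if j = l then s else 0) :
    ∑ j, G j * max (-(e * mutWord B w j l)) 0 = 0 := by
  refine Finset.sum_eq_zero fun j _ => ?_
  rw [hG j]
  by_cases hj : j = l
  · rw [hj, hd, mul_zero, neg_zero, max_self, mul_zero]
  · rw [if_neg hj, zero_mul]

theorem P6_unit {r : ℕ} (hH : HH n r) {B : Matrix (Fin n) (Fin n) ℤ} (hB : TotallySignSkew B)
    {w : List (Fin n)} (hw : w.length < r) {l : Fin n} {e : ℤ} (he : Sgn e)
    (hc : CohAt B w l e) {k : Fin n} {s : ℤ} (hG : ∀ j, Gm B w k j = if j = l then s else 0) :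
    Gm B (w ++ [l]) k = fun j => if j = l then -s else 0 := by
  rw [P6_row hH hB hw he hc k, P6_sum (tss_diag hB w l) hG]
  funext j
  by_cases hj : j = l
  · subst hj
    rw [Function.update_self, hG, if_pos rfl, if_pos rfl, add_zero]
  · rw [Function.update_of_ne hj, hG, if_neg hj, if_neg hj]

theorem P6_one_side {s : ℤ} (hs : Sgn s) {l j : Fin n} : 0 ≤ -s * (if j = l then -s else 0) := by
  by_cases hj : j = l
  · rw [if_pos hj, neg_mul_neg, sgn_mul_self hs]
    exact zero_le_one
  · rw [if_neg hj, mul_zero]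

theorem P6_caseB
    (hL0 : ∀ B : Matrix (Fin n) (Fin n) ℤ, TotallySignSkew B → ∀ (w : List (Fin n)) (i : Fin n),
      Lau (initSeed B) ((seedAt B w).x i))
    (hL1 : ∀ B : Matrix (Fin n) (Fin n) ℤ, TotallySignSkew B → ∀ (k : Fin n)
      (w : List (Fin n)) (i : Fin n), Lau ((initSeed B).mutate k) ((seedAt B w).x i))
    {r : ℕ} (hH : HH n r) {B : Matrix (Fin n) (Fin n) ℤ} (hB : TotallySignSkew B)
    {w : List (Fin n)} (hw : w.length < r) {l k : Fin n} {e s : ℤ} (he : Sgn e)
    (hc : CohAt B w l e) (hs : Sgn s) (hside : SideAt B w k s)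
    (hV1 : Val B w k (Gm B w k)) (hV2 : Val (-B.transpose) w k (Gm (-B.transpose) w k))
    (hno : ∀ i, i ≠ k → Cm B w i l = 0) :
    ∃ s', Sgn s' ∧ SideAt B (w ++ [l]) k s' ∧ Val B (w ++ [l]) k (Gm B (w ++ [l]) k) ∧
      Val (-B.transpose) (w ++ [l]) k (Gm (-B.transpose) (w ++ [l]) k) := by
  have hT := tss_negT hB
  have hs0 := col_unit hH hB hw.le hno
  have hcol : ∀ i, Cm B w i l = if i = k then Cm B w k l else 0 := by
    intro i
    by_cases hi : i = k
    · rw [if_pos hi, hi]
    · rw [if_neg hi, hno i hi]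
  have hrow2 := row_of_col hH hB hw.le hs0 hcol
  have hs0ne : Cm B w k l ≠ 0 := by
    rcases hs0 with h | h <;> rw [h] <;> decide
  have es : s = Cm B w k l := by
    have h1 := hside.2 l
    rw [hrow2, if_pos rfl] at h1
    refine sgn_eq hs hs0 hs0ne h1 ?_
    rw [sgn_mul_self hs0]
    exact zero_le_one
  rw [← es] at hcol hrow2
  have hc' := P6_coh hc
  have hTd : (-B.transpose) k k = 0 := tss_diag hT [] k
  have hno2 : ∀ i, i ≠ k → Cm (-B.transpose) w i l = 0 := by
    by_contra hcon
    push Not at hcon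
    have h2 := (val_a he hs hTd hside.2 hV2 hc'.1 hcon
      (hL0 _ hT (w ++ [l]) l) (hL1 _ hT k (w ++ [l]) l)).1
    rw [P6_sum (tss_diag hT w l) hrow2, hrow2, if_pos rfl, add_zero, mul_neg,
      sgn_mul_self hs] at h2
    exact absurd h2 (by decide)
  have hs1 := col_unit hH hT hw.le hno2
  have hcol2 : ∀ i, Cm (-B.transpose) w i l = if i = k then Cm (-B.transpose) w k l else 0 := by
    intro i
    by_cases hi : i = k
    · rw [if_pos hi, hi]
    · rw [if_neg hi, hno2 i hi]
  have hrow := row_of_col' hH hB hw.le hs1 hcol2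
  have hs1ne : Cm (-B.transpose) w k l ≠ 0 := by
    rcases hs1 with h | h <;> rw [h] <;> decide
  have es1 : s = Cm (-B.transpose) w k l := by
    have h1 := hside.1 l
    rw [hrow, if_pos rfl] at h1
    refine sgn_eq hs hs1 hs1ne h1 ?_
    rw [sgn_mul_self hs1]
    exact zero_le_one
  rw [← es1] at hcol2 hrow
  have e1 := P6_unit hH hB hw he hc hrow
  have e2 := P6_unit hH hT hw he hc' hrow2
  have v1 : Gm B w k = fun j => if j = l then s else 0 := funext hrow
  have v2 : Gm (-B.transpose) w k = fun j => if j = l then s else 0 := funext hrow2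
  rw [v1] at hV1
  rw [v2] at hV2
  refine ⟨-s, sgn_neg hs, ⟨fun j => ?_, fun j => ?_⟩, ?_, ?_⟩
  · rw [e1]
    exact P6_one_side hs
  · rw [e2]
    exact P6_one_side hs
  · rw [e1]
    exact val_b hs (tss_diag hB w l) hV1 hcol
  · rw [e2]
    exact val_b hs (tss_diag hT w l) hV2 hcol2

theorem P6_main
    (hL0 : ∀ B : Matrix (Fin n) (Fin n) ℤ, TotallySignSkew B → ∀ (w : List (Fin n)) (i : Fin n),
      Lau (initSeed B) ((seedAt B w).x i))
    (hL1 : ∀ B : Matrix (Fin n) (Fin n) ℤ, TotallySignSkew B → ∀ (k : Fin n)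
      (w : List (Fin n)) (i : Fin n), Lau ((initSeed B).mutate k) ((seedAt B w).x i))
    {r : ℕ} (hH : HH n r) {B : Matrix (Fin n) (Fin n) ℤ} (hB : TotallySignSkew B) (k : Fin n)
    (w : List (Fin n)) : w.length ≤ r → ∃ s, Sgn s ∧ SideAt B w k s ∧ Val B w k (Gm B w k) ∧
      Val (-B.transpose) w k (Gm (-B.transpose) w k) := by
  have hT := tss_negT hB
  induction w using List.reverseRecOn with
  | nil =>
    intro _
    refine ⟨1, Or.inl rfl, ⟨fun j => ?_, fun j => ?_⟩, ?_, ?_⟩
    · rw [Gm_nil, Matrix.one_apply]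
      split_ifs <;> norm_num
    · rw [Gm_nil, Matrix.one_apply]
      split_ifs <;> norm_num
    · rw [Gm_nil]
      exact val_nil B k
    · rw [Gm_nil]
      exact val_nil _ k
  | append_singleton w l ih =>
    intro hwl
    have hw : w.length < r := by
      rw [List.length_append] at hwl
      exact hwl
    obtain ⟨s, hs, hside, hV1, hV2⟩ := ih hw.le
    obtain ⟨e, he, hc⟩ := hH B hB w hw l
    have hc' := P6_coh hc
    have hBd : B k k = 0 := tss_diag hB [] k
    have hTd : (-B.transpose) k k = 0 := tss_diag hT [] k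
    by_cases h1 : ∃ i, i ≠ k ∧ Cm B w i l ≠ 0
    · by_cases h2 : ∃ i, i ≠ k ∧ Cm (-B.transpose) w i l ≠ 0
      · have a1 := val_a he hs hBd hside.1 hV1 hc.1 h1
          (hL0 _ hB (w ++ [l]) l) (hL1 _ hB k (w ++ [l]) l)
        have a2 := val_a he hs hTd hside.2 hV2 hc'.1 h2
          (hL0 _ hT (w ++ [l]) l) (hL1 _ hT k (w ++ [l]) l)
        refine ⟨s, hs, ⟨fun j => ?_, fun j => ?_⟩, ?_, ?_⟩
        · rw [P6_row hH hB hw he hc k]
          by_cases hj : j = l
          · subst hj
            rw [Function.update_self]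
            exact a1.1
          · rw [Function.update_of_ne hj]
            exact hside.1 j
        · rw [P6_row hH hT hw he hc' k]
          by_cases hj : j = l
          · subst hj
            rw [Function.update_self]
            exact a2.1
          · rw [Function.update_of_ne hj]
            exact hside.2 j
        · rw [P6_row hH hB hw he hc k]
          exact a1.2
        · rw [P6_row hH hT hw he hc' k]
          exact a2.2
      · push Not at h2
        have hV1' : Val (-(-B.transpose).transpose) w k (Gm (-(-B.transpose).transpose) w k) := by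
          rw [neg_transpose_neg_transpose]
          exact hV1
        obtain ⟨s', hs', hside', b1, b2⟩ := P6_caseB hL0 hL1 hH hT hw he hc' hs (P6_side hside)
          hV2 hV1' h2
        have hside2 := P6_side hside'
        rw [neg_transpose_neg_transpose] at b2 hside2
        exact ⟨s', hs', hside2, b2, b1⟩
    · push Not at h1
      exact P6_caseB hL0 hL1 hH hB hw he hc hs hside hV1 hV2 h1

theorem rc_of_laurent
    (hL0 : ∀ B : Matrix (Fin n) (Fin n) ℤ, TotallySignSkew B → ∀ (w : List (Fin n)) (i : Fin n),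
      Lau (initSeed B) ((seedAt B w).x i))
    (hL1 : ∀ B : Matrix (Fin n) (Fin n) ℤ, TotallySignSkew B → ∀ (k : Fin n)
      (w : List (Fin n)) (i : Fin n), Lau ((initSeed B).mutate k) ((seedAt B w).x i))
    {r : ℕ} (hH : HH n r) : RCr n r := by
  intro B hB w hw k
  obtain ⟨s, hs, hside, -, -⟩ := P6_main hL0 hL1 hH hB k w hw
  exact ⟨s, hs, hside⟩

end Pool.Agent.Lib.MP_1d68e1_al.TS
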