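import Pool.Agent.Lib.MP_1d68e1_al.Red

/-!
# MP_1d68e1_al: sign-coherence for all totally sign-skew-symmetric matrices, definitions
-/

set_option autoImplicit false

noncomputable section

open MvPolynomial

namespace Pool.Agent.Lib.MP_1d68e1_al.TS

variable {n : ℕ}

/-- Row `k` is `([e b_kj]_+)_j`, the entry `(k, k)` is `-1`, otherwise the identity matrix. -/
def E (e : ℤ) (B : Matrix (Fin n) (Fin n) ℤ) (k : Fin n) : Matrix (Fin n) (Fin n) ℤ :=
  fun i j => if i = k then (if j = k then -1 else max (e * B k j) 0) else if i = j then 1 else 0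

/-- Column `k` is `([-e b_ik]_+)_i`, the entry `(k, k)` is `-1`, otherwise the identity matrix. -/
def F (e : ℤ) (B : Matrix (Fin n) (Fin n) ℤ) (k : Fin n) : Matrix (Fin n) (Fin n) ℤ :=
  fun i j => if j = k then (if i = k then -1 else max (-(e * B i k)) 0) else if i = j then 1 else 0

/-- The matrix with the row `v` at `m`, all other rows `0`. -/
def Rw (m : Fin n) (v : Fin n → ℤ) : Matrix (Fin n) (Fin n) ℤ := fun i j => if i = m then v j else 0

/-- The C-matrix along the word `w`, principal coefficients at `B`. -/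
def Cm (B : Matrix (Fin n) (Fin n) ℤ) (w : List (Fin n)) : Matrix (Fin n) (Fin n) ℤ :=
  (w.foldl (fun q k => (mutB k q.1, mutC k q.1 q.2)) (B, (1 : Matrix (Fin n) (Fin n) ℤ))).2

/-- The G-matrix along the word `w`: the inverse transpose of the C-matrix of `-Bᵀ`. -/
def Gm (B : Matrix (Fin n) (Fin n) ℤ) (w : List (Fin n)) : Matrix (Fin n) (Fin n) ℤ :=
  ((Cm (-B.transpose) w)⁻¹).transpose

/-- a sign -/
def Sgn (e : ℤ) : Prop := e = 1 ∨ e = -1

/-- The columns `l` of the C-matrices of `B` and of `-Bᵀ` have the sign `e`. -/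
def CohAt (B : Matrix (Fin n) (Fin n) ℤ) (w : List (Fin n)) (l : Fin n) (e : ℤ) : Prop :=
  (∀ i, 0 ≤ e * Cm B w i l) ∧ ∀ i, 0 ≤ e * Cm (-B.transpose) w i l

/-- Induction hypothesis: coherence with equal signs for all words of length `< r`. -/
def HH (n r : ℕ) : Prop :=
  ∀ B : Matrix (Fin n) (Fin n) ℤ, TotallySignSkew B → ∀ w : List (Fin n), w.length < r →
    ∀ l, ∃ e, Sgn e ∧ CohAt B w l e

/-- The rows `k` of the G-matrices of `B` and of `-Bᵀ` have the sign `s`. -/
def SideAt (B : Matrix (Fin n) (Fin n) ℤ) (w : List (Fin n)) (k : Fin n) (s : ℤ) : Prop :=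
  (∀ j, 0 ≤ s * Gm B w k j) ∧ ∀ j, 0 ≤ s * Gm (-B.transpose) w k j

/-- Row coherence for all words of length `≤ r`. -/
def RCr (n r : ℕ) : Prop :=
  ∀ B : Matrix (Fin n) (Fin n) ℤ, TotallySignSkew B → ∀ w : List (Fin n), w.length ≤ r →
    ∀ k, ∃ s, Sgn s ∧ SideAt B w k s

/-! ### Places -/

/-- `τ` is the value of `z` at the place given by the ring homomorphism `f`. -/
def Plc {L : Type} [Field L] (f : MvPolynomial (Fin n ⊕ Fin n) ℤ →+* L) (z : Amb n) (τ : L) :
    Prop :=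
  ∃ P Q : MvPolynomial (Fin n ⊕ Fin n) ℤ, f Q ≠ 0 ∧ z * algebraMap _ (Amb n) Q =
    algebraMap _ (Amb n) P ∧ τ * f Q = f P

/-- The field `Q(T)`. -/
abbrev QT : Type := FractionRing (Polynomial ℤ)

/-- The variable `T`. -/
def TT : QT := algebraMap (Polynomial ℤ) QT Polynomial.X

/-- The values of the variables: `X_k = T^c`, `X_j = 1` for `j ≠ k`, `Y_k = T - 1`, `Y_j = 0` for
`j ≠ k`. -/
def vpl (k : Fin n) (c : ℕ) : Fin n ⊕ Fin n → QT
  | Sum.inl i => if i = k then TT ^ c else 1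
  | Sum.inr j => if j = k then TT - 1 else 0

/-- The place `X_k = T^c`, `X_j = 1` for `j ≠ k`, `Y_k = T - 1`, `Y_j = 0` for `j ≠ k`. -/
def fpl (k : Fin n) (c : ℕ) : MvPolynomial (Fin n ⊕ Fin n) ℤ →+* QT :=
  (MvPolynomial.aeval (vpl k c) : MvPolynomial (Fin n ⊕ Fin n) ℤ →ₐ[ℤ] QT).toRingHom

/-- The values of the cluster variables along `w` at the places `fpl k 0`, `fpl k 1`, when the
row `k` of the G-matrix is `G`. -/
def Val (B : Matrix (Fin n) (Fin n) ℤ) (w : List (Fin n)) (k : Fin n) (G : Fin n → ℤ) : Prop :=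
  ∀ c : ℕ, c ≤ 1 → ∀ j, Plc (fpl k c) ((seedAt B w).x j) (TT ^ ((c : ℤ) * G j + max (-G j) 0))

/-! ### Laurent polynomials -/

/-- `z` is a Laurent polynomial in the cluster of `s` with coefficients in `ℤ[y]`. -/
def Lau (s : Seed n) (z : Amb n) : Prop :=
  ∃ (N : ℕ) (P : MvPolynomial (Fin n ⊕ Fin n) ℤ),
    z * (∏ i, s.x i) ^ N = MvPolynomial.aeval (Sum.elim s.x yv) P

/-- A good seed: a seed reached from the initial seed of a totally sign-skew-symmetric matrix. -/
def Good (s : Seed n) : Prop :=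
  ∃ (B : Matrix (Fin n) (Fin n) ℤ) (w : List (Fin n)), TotallySignSkew B ∧ s = seedAt B w

end Pool.Agent.Lib.MP_1d68e1_al.TS
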