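import Pool.Agent.Lib.MP_1d68e1_al_ts.T0

/-!
# T1 (30 min): the elementary matrices E, F

All by `ext i j`, `Matrix.mul_apply`, splitting the sum at the index `k` (only the entries `i`
and `k` of a row of `E` / a column of `F` matter); `Finset.sum_eq_single` or
`Finset.sum_ite_eq` after rewriting `E e B k i j = (if i = j then 1 else 0) + (if i = k then
(if j = k then -2 else max (e * B k j) 0) else 0)`. In E_mul_apply_self and mul_F_apply_self the
term of the sum at the index itself vanishes because the diagonal entry of `B` is `0`.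
E_mul_E: use mul_E_apply_ne / mul_E_apply_self.
E_mutB: row `k` of `mutB k B` is minus the row `k` of `B` (mutB_left).
E_neg_sign: `max x 0 - max (-x) 0 = x` (Lib: max_sub_max), x = s * B m j, s = 1 or -1.
-/

set_option autoImplicit false

noncomputable section

open MvPolynomial

namespace Pool.Agent.Lib.MP_1d68e1_al.TS

variable {n : ℕ}

theorem mul_E_apply_self (M B : Matrix (Fin n) (Fin n) ℤ) (e : ℤ) (l i : Fin n) :
    (M * E e B l) i l = -M i l := by
  rw [Matrix.mul_apply, Fintype.sum_eq_single l]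
  · simp [E]
  · intro x hx
    simp [E, hx]

theorem mul_E_apply_ne (M B : Matrix (Fin n) (Fin n) ℤ) (e : ℤ) {l j : Fin n} (i : Fin n)
    (h : j ≠ l) : (M * E e B l) i j = M i j + M i l * max (e * B l j) 0 := by
  rw [Matrix.mul_apply, Fintype.sum_eq_add j l h]
  · simp [E, h]
  · rintro x ⟨h1, h2⟩
    simp [E, h1, h2]

theorem mul_F_apply_ne (M B : Matrix (Fin n) (Fin n) ℤ) (e : ℤ) {l j : Fin n} (i : Fin n)
    (h : j ≠ l) : (M * F e B l) i j = M i j := by
  rw [Matrix.mul_apply, Fintype.sum_eq_single j]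
  · simp [F, h]
  · intro x hx
    simp [F, h, hx]

theorem mul_F_apply_self (M B : Matrix (Fin n) (Fin n) ℤ) (e : ℤ) (l i : Fin n)
    (hB : B l l = 0) :
    (M * F e B l) i l = -M i l + ∑ j, M i j * max (-(e * B j l)) 0 := by
  have h1 : ∀ x, M i x * F e B l x l =
      (if x = l then -M i l else 0) + M i x * max (-(e * B x l)) 0 := by
    intro x
    by_cases hx : x = l
    · subst hx
      simp [F, hB]
    · simp [F, hx]
  rw [Matrix.mul_apply, Finset.sum_congr rfl (fun x _ => h1 x), Finset.sum_add_distrib,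
    Finset.sum_ite_eq' Finset.univ l, if_pos (Finset.mem_univ l)]

theorem E_mul_apply_ne (Q B : Matrix (Fin n) (Fin n) ℤ) (e : ℤ) {m i : Fin n} (j : Fin n)
    (h : i ≠ m) : (E e B m * Q) i j = Q i j := by
  rw [Matrix.mul_apply, Fintype.sum_eq_single i]
  · simp [E, h]
  · intro x hx
    simp [E, h, hx.symm]

theorem E_mul_apply_self (Q B : Matrix (Fin n) (Fin n) ℤ) (e : ℤ) (m j : Fin n)
    (hB : B m m = 0) :
    (E e B m * Q) m j = -Q m j + ∑ i, max (e * B m i) 0 * Q i j := by
  have h1 : ∀ x, E e B m m x * Q x j =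
      (if x = m then -Q m j else 0) + max (e * B m x) 0 * Q x j := by
    intro x
    by_cases hx : x = m
    · subst hx
      simp [E, hB]
    · simp [E, hx]
  rw [Matrix.mul_apply, Finset.sum_congr rfl (fun x _ => h1 x), Finset.sum_add_distrib,
    Finset.sum_ite_eq' Finset.univ m, if_pos (Finset.mem_univ m)]

theorem E_mul_E {e : ℤ} {B : Matrix (Fin n) (Fin n) ℤ} {k : Fin n} (hB : B k k = 0) :
    E e B k * E e B k = 1 := by
  ext i j
  by_cases hj : j = k
  · subst hj
    rw [mul_E_apply_self]
    by_cases hi : i = j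
    · subst hi
      simp [E]
    · simp [E, hi]
  · rw [mul_E_apply_ne _ _ _ _ hj]
    by_cases hi : i = k
    · subst hi
      have hij : i ≠ j := fun h => hj h.symm
      simp [E, hj, hij]
    · by_cases hij : i = j
      · subst hij
        simp [E, hi]
      · simp [E, hi, hij]

theorem E_transpose (e : ℤ) (B : Matrix (Fin n) (Fin n) ℤ) (k : Fin n) :
    (E e B k).transpose = F e (-B.transpose) k := by
  ext i j
  have h1 : -(e * (-B.transpose) i k) = e * B k i := by
    rw [Matrix.neg_apply, Matrix.transpose_apply]; ring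
  rw [Matrix.transpose_apply]
  unfold E F
  rw [h1]
  by_cases hj : j = k
  · rw [if_pos hj, if_pos hj]
  · rw [if_neg hj, if_neg hj]
    by_cases hij : i = j
    · rw [if_pos hij, if_pos hij.symm]
    · rw [if_neg hij, if_neg (fun h => hij h.symm)]

theorem E_neg (e : ℤ) (B : Matrix (Fin n) (Fin n) ℤ) (k : Fin n) :
    E e (-B) k = E (-e) B k := by
  ext i j
  have h1 : e * (-B) k j = -e * B k j := by rw [Matrix.neg_apply]; ring
  unfold E
  rw [h1]

theorem E_mutB (e : ℤ) (B : Matrix (Fin n) (Fin n) ℤ) (k : Fin n) :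
    E e (mutB k B) k = E (-e) B k := by
  ext i j
  have h1 : e * mutB k B k j = -e * B k j := by rw [mutB_left]; ring
  unfold E
  rw [h1]

theorem E_neg_sign {s : ℤ} (hs : Sgn s) {B : Matrix (Fin n) (Fin n) ℤ} {m : Fin n}
    (hB : B m m = 0) : E (-s) B m = E s B m - s • Rw m (B m) := by
  ext i j
  rw [Matrix.sub_apply, Matrix.smul_apply, smul_eq_mul]
  unfold E Rw
  by_cases hi : i = m
  · rw [if_pos hi, if_pos hi, if_pos hi]
    by_cases hj : j = m
    · subst hj
      rw [if_pos rfl, if_pos rfl, hB, mul_zero, sub_zero]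
    · rw [if_neg hj, if_neg hj]
      have h1 := max_sub_max (s * B m j)
      have h2 : -s * B m j = -(s * B m j) := by ring
      rw [h2]
      linarith
  · rw [if_neg hi, if_neg hi, if_neg hi, mul_zero, sub_zero]

theorem sgn_mul_self {s : ℤ} (hs : Sgn s) : s * s = 1 := by
  rcases hs with rfl | rfl <;> norm_num

theorem sgn_neg {s : ℤ} (hs : Sgn s) : Sgn (-s) := by
  rcases hs with rfl | rfl
  · exact Or.inr rfl
  · exact Or.inl (by norm_num)

/-- two signs that both fit a nonzero number are equal -/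
theorem sgn_eq {s t x : ℤ} (hs : Sgn s) (ht : Sgn t) (hx : x ≠ 0) (h1 : 0 ≤ s * x)
    (h2 : 0 ≤ t * x) : s = t := by
  rcases hs with rfl | rfl <;> rcases ht with rfl | rfl
  · rfl
  · exact absurd (by linarith : x = 0) hx
  · exact absurd (by linarith : x = 0) hx
  · rfl

end Pool.Agent.Lib.MP_1d68e1_al.TS
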