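import Pool.Agent.Lib.MP_1d68e1_al_ts.T7

/-!
# T8 (45 min): crossing

e := common sign of the columns l (hH), s' := side at u ++ [l] (hR). G' = G F (Gm_step), also for -B^T
(apply Gm_step to -B^T, CohAt (-B^T) u l e is CohAt B u l e with the two halves exchanged and
-(-B^T)^T = B), so G' m j = G m j for j <> l and G' m l = -G m l + sum_j G m j * max (-(e b_jl)) 0 (T1).
Case A: column l of Cm B u vanishes off m. By col_unit it is s0 e_m, s0 a sign; row_of_col: row m of G^v is
s0 e_l, and 0 <= s * s0 gives s0 = s. The row m of G^v at u ++ [l] has the entry l = -s + 0 (b_ll = 0: all other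
entries of the row vanish), so s' = -s (sgn_eq: 0 <= s' * (-s), s' = -s). If G m j <> 0 for some j <> l then
0 <= s * G m j and 0 <= -s * G m j give a contradiction. So row m of G is supported on {l}, by row_unit' it is
s1 e_l, s1 = s. Second alternative.
Case B: some j <> m with Cm B u j l <> 0. If s' = -s then all entries j <> l of row m of G^v vanish (as in A), so by
row_unit and col_of_row the column l of Cm B u is +-e_m: contradiction. So s' = s (Sgn: s' = s or s' = -s).
-/

set_option autoImplicit false

noncomputable section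

open MvPolynomial

namespace Pool.Agent.Lib.MP_1d68e1_al.TS

variable {n : ℕ}

private theorem T8_sgn_ne {s : ℤ} (hs : Sgn s) : s ≠ 0 := by
  rcases hs with h | h <;> rw [h] <;> decide

private theorem T8_zero {s x : ℤ} (hs : Sgn s) (h1 : 0 ≤ s * x) (h2 : 0 ≤ (-s) * x) : x = 0 := by
  rcases hs with h | h <;> subst h <;> omega

private theorem T8_or {s t : ℤ} (hs : Sgn s) (ht : Sgn t) : t = s ∨ t = -s := by
  rcases hs with h | h <;> rcases ht with h' | h' <;> subst h <;> subst h' <;> simp

theorem cross {r : ℕ} (hH : HH n r) (hR : RCr n r) {B : Matrix (Fin n) (Fin n) ℤ}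
    (hB : TotallySignSkew B) {u : List (Fin n)} (hu : u.length < r) {l m : Fin n} {s : ℤ}
    (hs : Sgn s) (hside : SideAt B u m s) :
    ((∃ j, j ≠ m ∧ Cm B u j l ≠ 0) ∧ SideAt B (u ++ [l]) m s) ∨
    ((∀ j, Cm B u j l = if j = m then s else 0) ∧
      (∀ j, Gm B u m j = if j = l then s else 0) ∧ SideAt B (u ++ [l]) m (-s)) := by
  obtain ⟨e, he, hc⟩ := hH B hB u hu l
  obtain ⟨s', hs', hside'⟩ := hR B hB (u ++ [l]) (by simp; omega) m
  have hc' : CohAt (-B.transpose) u l e := by
    refine ⟨hc.2, ?_⟩
    rw [neg_transpose_neg_transpose]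
    exact hc.1
  have hst := Gm_step hH hB hu he hc
  have hst' := Gm_step hH (tss_negT hB) hu he hc'
  have hne : ∀ j, j ≠ l → Gm B (u ++ [l]) m j = Gm B u m j := by
    intro j hj
    rw [hst, mul_F_apply_ne _ _ _ _ hj]
  have hne' : ∀ j, j ≠ l → Gm (-B.transpose) (u ++ [l]) m j = Gm (-B.transpose) u m j := by
    intro j hj
    rw [hst', mul_F_apply_ne _ _ _ _ hj]
  by_cases hA : ∀ j, j ≠ m → Cm B u j l = 0
  · right
    have hs0 : Sgn (Cm B u m l) := col_unit hH hB (le_of_lt hu) hA
    have hcol0 : ∀ i, Cm B u i l = if i = m then Cm B u m l else 0 := by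
      intro i
      by_cases hi : i = m
      · rw [hi, if_pos rfl]
      · rw [if_neg hi, hA i hi]
    have hrow := row_of_col hH hB (le_of_lt hu) hs0 hcol0
    have h1 := hside.2 l
    rw [hrow l, if_pos rfl] at h1
    have hss : s = Cm B u m l := by
      refine sgn_eq hs hs0 (T8_sgn_ne hs0) h1 ?_
      rw [sgn_mul_self hs0]
      exact zero_le_one
    rw [← hss] at hcol0 hrow
    have hdiag : mutWord (-B.transpose) u l l = 0 := tss_diag (tss_negT hB) u l
    have hl : Gm (-B.transpose) (u ++ [l]) m l = -s := by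
      rw [hst', mul_F_apply_self _ _ _ _ _ hdiag, Finset.sum_eq_zero, hrow l, if_pos rfl, add_zero]
      intro j _
      by_cases hj : j = l
      · rw [hj, hdiag]
        simp
      · rw [hrow j, if_neg hj, zero_mul]
    have h2 := hside'.2 l
    rw [hl] at h2
    have hs'' : s' = -s := by
      refine sgn_eq hs' (sgn_neg hs) (T8_sgn_ne (sgn_neg hs)) h2 ?_
      rw [sgn_mul_self (sgn_neg hs)]
      exact zero_le_one
    rw [hs''] at hside'
    have hG0 : ∀ j, j ≠ l → Gm B u m j = 0 := by
      intro j hj
      have h3 := hside'.1 j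
      rw [hne j hj] at h3
      exact T8_zero hs (hside.1 j) h3
    have hs1 := row_unit' hH hB (le_of_lt hu) hG0
    have hs1' : s = Gm B u m l := by
      refine sgn_eq hs hs1 (T8_sgn_ne hs1) (hside.1 l) ?_
      rw [sgn_mul_self hs1]
      exact zero_le_one
    refine ⟨hcol0, ?_, hside'⟩
    intro j
    by_cases hj : j = l
    · rw [hj, if_pos rfl, ← hs1']
    · rw [if_neg hj, hG0 j hj]
  · left
    push Not at hA
    refine ⟨hA, ?_⟩
    rcases T8_or hs hs' with h | h
    · rw [h] at hside'
      exact hside'
    · exfalso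
      rw [h] at hside'
      have hG0 : ∀ j, j ≠ l → Gm (-B.transpose) u m j = 0 := by
        intro j hj
        have h3 := hside'.2 j
        rw [hne' j hj] at h3
        exact T8_zero hs (hside.2 j) h3
      have hs1 := row_unit hH hB (le_of_lt hu) hG0
      have hrow : ∀ j, Gm (-B.transpose) u m j =
          if j = l then Gm (-B.transpose) u m l else 0 := by
        intro j
        by_cases hj : j = l
        · rw [hj, if_pos rfl]
        · rw [if_neg hj, hG0 j hj]
      have hcol := col_of_row hH hB (le_of_lt hu) hs1 hrow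
      obtain ⟨j, hj, hj'⟩ := hA
      exact hj' (by rw [hcol j, if_neg hj])

end Pool.Agent.Lib.MP_1d68e1_al.TS
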