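import Pool.Agent.Lib.MP_1d68e1_al_ts.T1

/-!
# T9 (40 min): the matrix identity in the crossing step

E(-s,B,m) = E(s,B,m) - s Rw m (B m), E(-s,Bu,l) = E(s,Bu,l) - s Rw l (Bu l) (E_neg_sign).
Left side = E(s)QE(s) - s E(s,B,m) (Q Rw l (Bu l)); Q * Rw l v has entries Q i l * v j = (if i = m then s v j),
so it is s Rw m v; E(s,B,m) * Rw m v = -Rw m v (column m of E is -e_m). So left side = E(s)QE(s) + s*s Rw m (Bu l).
Right side = E(s)QE(s) - s Rw m (B m) * Q * E(s,Bu,l); Rw m v * Q = Rw m (v Q), v Q = (sum_i B m i * Q i j)_j = -s Bu l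
(hrow); so it is E(s)QE(s) + s*s Rw m (Bu l) * E(s,Bu,l), and the row vector (Bu l) * E(s,Bu,l) = Bu l because
Bu l l = 0 (mul_E_apply_ne / self).
-/

set_option autoImplicit false

noncomputable section

open MvPolynomial

namespace Pool.Agent.Lib.MP_1d68e1_al.TS

variable {n : ℕ}

theorem bs_identity {s : ℤ} (hs : Sgn s) {B Bu Q : Matrix (Fin n) (Fin n) ℤ} {m l : Fin n}
    (hB : B m m = 0) (hBu : Bu l l = 0) (hcol : ∀ i, Q i l = if i = m then s else 0)
    (hrow : ∀ j, ∑ i, B m i * Q i j = -(s * Bu l j)) :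
    E s B m * Q * E (-s) Bu l = E (-s) B m * (Q * E s Bu l) := by
  have hss := sgn_mul_self hs
  -- Q * Rw l v = s • Rw m v
  have h1 : ∀ v : Fin n → ℤ, Q * Rw l v = s • Rw m v := by
    intro v
    ext i j
    rw [Matrix.mul_apply, Finset.sum_eq_single l]
    · rw [hcol i]
      simp only [Rw, Matrix.smul_apply, smul_eq_mul]
      split_ifs <;> ring
    · intro x _ hx
      simp only [Rw, if_neg hx, mul_zero]
    · intro hx; exact absurd (Finset.mem_univ _) hx
  -- E s B m * Rw m v = - Rw m v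
  have h2 : ∀ v : Fin n → ℤ, E s B m * Rw m v = - Rw m v := by
    intro v
    ext i j
    rw [Matrix.mul_apply, Finset.sum_eq_single m]
    · simp only [Rw, E, if_true, Matrix.neg_apply]
      split_ifs <;> ring
    · intro x _ hx
      simp only [Rw, if_neg hx, mul_zero]
    · intro hx; exact absurd (Finset.mem_univ _) hx
  -- Rw m (B m) * Q = - s Rw m (Bu l)
  have h3 : Rw m (B m) * Q = -(s • Rw m (Bu l)) := by
    ext i j
    rw [Matrix.mul_apply]
    by_cases hi : i = m
    · simp only [Rw, if_pos hi, Matrix.neg_apply, Matrix.smul_apply, smul_eq_mul]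
      exact hrow j
    · simp only [Rw, if_neg hi, Matrix.neg_apply, Matrix.smul_apply, smul_eq_mul]
      simp
  -- Rw m (Bu l) * E s Bu l = Rw m (Bu l)
  have h4 : Rw m (Bu l) * E s Bu l = Rw m (Bu l) := by
    ext i j
    by_cases hj : j = l
    · subst hj
      rw [mul_E_apply_self]
      by_cases hi : i = m
      · simp only [Rw, if_pos hi, hBu, neg_zero]
      · simp [Rw, hi]
    · rw [mul_E_apply_ne _ _ _ _ hj]
      by_cases hi : i = m
      · simp only [Rw, if_pos hi, hBu, zero_mul, add_zero]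
      · simp [Rw, hi]
  rw [E_neg_sign hs hBu, E_neg_sign hs hB, mul_sub, Matrix.mul_smul, Matrix.mul_assoc, Matrix.mul_assoc,
    h1, Matrix.mul_smul, h2, Matrix.sub_mul, Matrix.smul_mul, ← Matrix.mul_assoc (Rw m (B m)) Q,
    h3, Matrix.neg_mul, Matrix.smul_mul, h4, smul_neg]

end Pool.Agent.Lib.MP_1d68e1_al.TS
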