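import Pool.Agent.Lib.MP_1d68e1_al_ts.T6
import Pool.Agent.Lib.MP_1d68e1_al_ts.T8
import Pool.Agent.Lib.MP_1d68e1_al_ts.T9

/-!
# T10 (60 min): change of the base point

Induction on u (List.reverseRecOn), B1 = mutB m B. u = []: Cm B [m] = mutC m B 1 = 1 * E 1 B m (mutC_eq with e = 1),
Gm B1 [] = 1, s = 1. Step u ++ [l], (u ++ [l]).length < r; s, hside, hP : Cm B (m :: u) = E s B m * Cm B1 u from the
induction hypothesis. mutWord B (m :: u) = mutWord B1 u =: Bu. P = Cm B (m :: u), Q = Cm B1 u. Signs: eP for column l of P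
(hH at the word m :: u of length < r), eQ for column l of Q. Cm B (m :: (u ++ [l])) = P * E eP Bu l, Cm B1 (u ++ [l]) =
Q * E eQ Bu l (Cm_step; (m :: u) ++ [l] = m :: (u ++ [l]) is List.cons_append). Use cross for B1, u, l, m, s.
First alternative: Q j l <> 0, j <> m, and P j l = Q j l (E_mul_apply_ne), so eP = eQ (sgn_eq), the same s works
(Matrix.mul_assoc). Second alternative: column l of Q is s e_m, so eQ = s; P m l = -s + sum_i max (s * B m i) 0 * Q i l =
-s (the term i = m has B m m = 0), so eP = -s. hrow: row m of Gm B1 u * mutWord B1 u = B1 * Cm B1 u (G_mul_B): s * Bu l j =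
sum_i B1 m i * Q i j = -sum_i B m i * Q i j (mutB_left). bs_identity gives P' = E (-s) B m * Q', side -s.
-/

set_option autoImplicit false

noncomputable section

open MvPolynomial

namespace Pool.Agent.Lib.MP_1d68e1_al.TS

variable {n : ℕ}

private theorem T10_one_nonneg (i j : Fin n) : 0 ≤ 1 * (1 : Matrix (Fin n) (Fin n) ℤ) i j := by
  rw [one_mul, Matrix.one_apply]
  split_ifs
  · exact zero_le_one
  · exact le_rfl

theorem bs {r : ℕ} (hH : HH n r) (hR : RCr n r) {B : Matrix (Fin n) (Fin n) ℤ}
    (hB : TotallySignSkew B) (m : Fin n) (u : List (Fin n)) (hu : u.length < r) :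
    ∃ s, Sgn s ∧ SideAt (mutB m B) u m s ∧
      Cm B (m :: u) = E s B m * Cm (mutB m B) u := by
  have hB1 : TotallySignSkew (mutB m B) := tss_mutB hB m
  have hBm : B m m = 0 := tss_diag hB [] m
  induction u using List.reverseRecOn with
  | nil =>
    refine ⟨1, Or.inl rfl, ⟨fun j => ?_, fun j => ?_⟩, ?_⟩
    · rw [Gm_nil]; exact T10_one_nonneg m j
    · rw [Gm_nil]; exact T10_one_nonneg m j
    · have h := Cm_step (B := B) (w := []) (l := m) (e := 1) (Or.inl rfl)
        (fun i => by rw [Cm_nil]; exact T10_one_nonneg i m)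
      rw [Cm_nil, one_mul, mutWord_nil] at h
      rw [Cm_nil, mul_one]
      exact h
  | append_singleton u l ih =>
    have hlen : u.length + 1 < r := by
      rw [List.length_append] at hu
      exact hu
    obtain ⟨s, hs, hside, hP⟩ := ih (by omega)
    obtain ⟨eP, heP, hcP⟩ := hH B hB (m :: u) (by rw [List.length_cons]; omega) l
    obtain ⟨eQ, heQ, hcQ⟩ := hH (mutB m B) hB1 u (by omega) l
    have hBu : mutWord B (m :: u) = mutWord (mutB m B) u := mutWord_cons B m u
    have hP' : Cm B (m :: (u ++ [l])) =
        Cm B (m :: u) * E eP (mutWord (mutB m B) u) l := by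
      rw [← hBu, ← List.cons_append]
      exact Cm_step heP hcP.1
    have hQ' : Cm (mutB m B) (u ++ [l]) =
        Cm (mutB m B) u * E eQ (mutWord (mutB m B) u) l := Cm_step heQ hcQ.1
    have hBul : mutWord (mutB m B) u l l = 0 := tss_diag hB1 u l
    rcases cross hH hR hB1 (u := u) (by omega) (l := l) (m := m) hs hside with
      ⟨⟨j, hj, hjl⟩, hside'⟩ | ⟨hcol, hrowG, hside'⟩
    · refine ⟨s, hs, hside', ?_⟩
      have h1 : Cm B (m :: u) j l = Cm (mutB m B) u j l := by
        rw [hP, E_mul_apply_ne _ _ _ _ hj]
      have h2 : eP = eQ := by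
        refine sgn_eq heP heQ hjl ?_ (hcQ.1 j)
        rw [← h1]
        exact hcP.1 j
      rw [hP', hQ', hP, h2, Matrix.mul_assoc]
    · refine ⟨-s, sgn_neg hs, hside', ?_⟩
      have hs0 : s ≠ 0 := by
        rcases hs with h | h <;> rw [h] <;> norm_num
      have hss := sgn_mul_self hs
      have hQm : Cm (mutB m B) u m l = s := by rw [hcol m, if_pos rfl]
      have h1 : Cm B (m :: u) m l = -s := by
        rw [hP, E_mul_apply_self _ _ _ _ _ hBm, hQm]
        rw [Finset.sum_eq_zero]
        · rw [add_zero]
        · intro i _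
          by_cases him : i = m
          · rw [him, hBm, mul_zero, max_self, zero_mul]
          · rw [hcol i, if_neg him, mul_zero]
      have h2 : eQ = s := by
        refine sgn_eq heQ hs hs0 ?_ ?_
        · have := hcQ.1 m
          rwa [hQm] at this
        · rw [hss]; exact zero_le_one
      have h3 : eP = -s := by
        refine sgn_eq heP (sgn_neg hs) (neg_ne_zero.2 hs0) ?_ ?_
        · have := hcP.1 m
          rwa [h1] at this
        · rw [neg_mul_neg, hss]; exact zero_le_one
      have hrow : ∀ j, ∑ i, B m i * Cm (mutB m B) u i j = -(s * mutWord (mutB m B) u l j) := by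
        intro j
        have h4 := congrFun (congrFun (G_mul_B hH hB1 (w := u) (by omega)) m) j
        rw [Matrix.mul_apply, Matrix.mul_apply] at h4
        rw [Finset.sum_eq_single l] at h4
        · rw [hrowG l, if_pos rfl] at h4
          rw [h4, ← Finset.sum_neg_distrib]
          refine Finset.sum_congr rfl fun i _ => ?_
          rw [mutB_left]
          ring
        · intro i _ hi
          rw [hrowG i, if_neg hi, zero_mul]
        · intro h
          exact absurd (Finset.mem_univ l) h
      rw [hP', hQ', hP, h2, h3]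
      exact bs_identity hs hBm hBul hcol hrow

end Pool.Agent.Lib.MP_1d68e1_al.TS
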