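import Pool.Agent.Lib.MP_1d68e1_al_ts.T10

/-!
# T11 (45 min): C(B,w) C(-B_w, w^rev) = 1

Induction on w generalizing B. w = m :: u, B1 = mutB m B, Bw = mutWord B w = mutWord B1 u. w.reverse = u.reverse ++ [m].
h := common sign of the columns m of Cm (-Bw) u.reverse and Cm (-(-Bw)^T) u.reverse (hH at a word of length < r; tss_neg,
tss_mutWord). Cm_step: Cm (-Bw) (u.reverse ++ [m]) = Cm (-Bw) u.reverse * E h (mutWord (-Bw) u.reverse) m, and
mutWord (-Bw) u.reverse = -B1 (mutWord_neg, mutWord_reverse), E h (-B1) m = E (-h) B1 m = E h B m (E_neg, E_mutB).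
bs: Cm B w = E s B m * Cm B1 u. Induction hypothesis for B1: Cm B1 u * Cm (-Bw) u.reverse = 1. So the product is
E s B m * E h B m. Claim s = h, then E_mul_E. Induction hypothesis for -B1^T (mutWord_negT): Cm (-B1^T) u *
Cm (Bw^T) u.reverse = 1, so (Cm (-B1^T) u)^-1 = Cm (Bw^T) u.reverse (Matrix.inv_eq_right_inv) and
Gm B1 u m j = Cm (Bw^T) u.reverse j m; SideAt gives 0 <= s * Cm (Bw^T) u.reverse j m for all j, and h fits too
(-(-Bw)^T = Bw^T). The column is not zero (Cm_unit), so s = h (sgn_eq).
-/

set_option autoImplicit false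

noncomputable section

open MvPolynomial

namespace Pool.Agent.Lib.MP_1d68e1_al.TS

variable {n : ℕ}

theorem bc {r : ℕ} (hH : HH n r) (hR : RCr n r) (w : List (Fin n)) :
    ∀ B : Matrix (Fin n) (Fin n) ℤ, TotallySignSkew B → w.length ≤ r →
      Cm B w * Cm (-mutWord B w) w.reverse = 1 := by
  induction w with
  | nil =>
    intro B _ _
    show Cm B [] * Cm (-mutWord B []) [] = 1
    rw [Cm_nil, Cm_nil, one_mul]
  | cons m u ih =>
    intro B hB hw
    have hu : u.length < r := by
      rw [List.length_cons] at hw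
      omega
    obtain ⟨s, hs, hside, hbs⟩ := bs hH hR hB m u hu
    have hB1 : TotallySignSkew (mutB m B) := tss_mutB hB m
    have hm : mutWord B (m :: u) = mutWord (mutB m B) u := rfl
    set B1 := mutB m B with hB1def
    set Bw := mutWord B1 u with hBw
    have hTw : TotallySignSkew (-Bw) := tss_neg (tss_mutWord hB1 u)
    obtain ⟨h, hh, hc⟩ := hH (-Bw) hTw u.reverse (by rw [List.length_reverse]; exact hu) m
    have hstep := Cm_step hh hc.1
    have e1 : mutWord (-Bw) u.reverse = -B1 := by
      rw [mutWord_neg, hBw, mutWord_reverse]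
    have e2 : E h (-B1) m = E h B m := by
      rw [E_neg, hB1def, E_mutB, neg_neg]
    rw [e1, e2] at hstep
    have hI := ih B1 hB1 hu.le
    have hI2 := ih (-B1.transpose) (tss_negT hB1) hu.le
    have e3 : -mutWord (-B1.transpose) u = Bw.transpose := by
      rw [mutWord_negT, neg_neg]
    rw [e3] at hI2
    have hG : Gm B1 u = (Cm Bw.transpose u.reverse).transpose := by
      unfold Gm
      rw [Matrix.inv_eq_right_inv hI2]
    have e4 : -(-Bw).transpose = Bw.transpose := by
      rw [Matrix.transpose_neg, neg_neg]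
    have hc2 := hc.2
    rw [e4] at hc2
    have hex : ∃ i, Cm Bw.transpose u.reverse i m ≠ 0 := by
      by_contra hcon
      push Not at hcon
      have h5 := congrFun (congrFun hI2 m) m
      rw [Matrix.mul_apply, Matrix.one_apply_eq] at h5
      rw [Finset.sum_eq_zero fun i _ => by rw [hcon i, mul_zero]] at h5
      exact zero_ne_one h5
    obtain ⟨i, hi⟩ := hex
    have hsh : s = h := by
      refine sgn_eq hs hh hi ?_ (hc2 i)
      have h6 := hside.1 i
      rw [hG] at h6
      exact h6
    rw [hm, List.reverse_cons, hstep, hbs, hsh]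
    have h7 : E h B m * Cm B1 u * (Cm (-Bw) u.reverse * E h B m) =
        E h B m * (Cm B1 u * Cm (-Bw) u.reverse) * E h B m := by
      simp only [Matrix.mul_assoc]
    rw [h7, hI, Matrix.mul_one, E_mul_E (B := B) (tss_diag hB [] m)]

end Pool.Agent.Lib.MP_1d68e1_al.TS
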