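import Pool.Agent.Lib.MP_1d68e1_al_ts.T11

/-!
# T12 (30 min): the induction step

Let w.length < r + 1, i.e. <= r, and l a column. A := -mutWord B w, v := w.reverse, v.length <= r. bc for B:
(Cm A v) is the inverse of Cm B w, so Cm B w = (Cm A v)^-1 and Cm B w i l = Gm (-A^T) v l i (Gm (-A^T) v =
((Cm (-(-A^T)^T) v)^-1)^T = ((Cm A v)^-1)^T). bc for -B^T: -mutWord (-B^T) w = (mutWord B w)^T = -A^T (mutWord_negT), so
Cm (-B^T) w i l = ((Cm (-A^T) v)^-1) i l = Gm A v l i. hR for A (tss_neg, tss_mutWord), v, k = l gives the sign s for both.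
-/

set_option autoImplicit false

noncomputable section

open MvPolynomial

namespace Pool.Agent.Lib.MP_1d68e1_al.TS

variable {n : ℕ}

theorem hh_succ {r : ℕ} (hH : HH n r) (hR : RCr n r) : HH n (r + 1) := by
  intro B hB w hw l
  have hw' : w.length ≤ r := Nat.lt_succ_iff.1 hw
  have h1 := bc hH hR w B hB hw'
  have h2 := bc hH hR w (-B.transpose) (tss_negT hB) hw'
  rw [mutWord_negT, neg_neg] at h2
  have e1 : Gm (-(-mutWord B w).transpose) w.reverse = (Cm B w).transpose := by
    rw [Gm, neg_transpose_neg_transpose, Matrix.inv_eq_left_inv h1]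
  have e2 : Gm (-mutWord B w) w.reverse = (Cm (-B.transpose) w).transpose := by
    rw [Gm, Matrix.transpose_neg, neg_neg, Matrix.inv_eq_left_inv h2]
  obtain ⟨s, hs, hs1, hs2⟩ := hR (-mutWord B w) (tss_neg (tss_mutWord hB w)) w.reverse
    (by rw [List.length_reverse]; exact hw') l
  rw [e2] at hs1
  rw [e1] at hs2
  exact ⟨s, hs, fun i => hs2 i, fun i => hs1 i⟩

end Pool.Agent.Lib.MP_1d68e1_al.TS
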