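import Pool.Agent.Lib.MP_1d68e1_al_ts.T12
import Pool.Agent.Lib.MP_1d68e1_al_ts.P6
import Pool.Agent.Lib.MP_1d68e1_al_ts.L14

/-!
# T13: the final assembly
-/

set_option autoImplicit false

noncomputable section

open MvPolynomial

namespace Pool.Agent.Lib.MP_1d68e1_al.TS

variable {n : ℕ}

theorem hh_all (n r : ℕ) : HH n r := by
  induction r with
  | zero => intro B _ w hw; exact absurd hw (Nat.not_lt_zero _)
  | succ r ih =>
    refine hh_succ ih (rc_of_laurent ?_ ?_ ih)
    · intro B hB w i
      exact laurent (good_init hB) w i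
    · intro B hB k w i
      have h := laurent (good_mutate (good_init hB) k) (k :: w) i
      rw [List.foldl_cons, mutate_mutate (good_init hB) k] at h
      exact h

/-- The c-vectors are sign-coherent. -/
theorem coherent {B : Matrix (Fin n) (Fin n) ℤ} (hB : TotallySignSkew B) (w : List (Fin n))
    (l : Fin n) : (∀ i, 0 ≤ Cm B w i l) ∨ ∀ i, Cm B w i l ≤ 0 := by
  obtain ⟨e, he, h, -⟩ := hh_all n (w.length + 1) B hB w (Nat.lt_succ_self _) l
  rcases he with rfl | rfl
  · left; intro i; simpa using h i
  · right; intro i; have := h i; linarith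

/-- The g-vectors of a cluster are a basis. -/
theorem basis {B : Matrix (Fin n) (Fin n) ℤ} (hB : TotallySignSkew B) (w : List (Fin n)) :
    ∃ b : Module.Basis (Fin n) ℤ (Fin n → ℤ), ∀ i, IsGVector B ((seedAt B w).x i) (b i) := by
  refine basis_of_coherent B hB ?_ w
  intro d last hd k _
  obtain ⟨v, -, hv⟩ := RW_word hd
  rw [hv]
  exact coherent hB v k

end Pool.Agent.Lib.MP_1d68e1_al.TS
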