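import Pool.Agent.Lib.MP_1d68e1_al_ts.T6

/-!
# T14 (45 min): the g-vectors are the columns of Gm

hA: coherence along all words (proved in T13 from the other modules, here a hypothesis). match_at: `Match` (Lib Hom) for the data
`⟨mutWord B w, Cm B w, fun i r => Gm B w r i⟩`, induction on w (List.reverseRecOn): [] is match_init (Gm_nil). Step: Match.mutate needs
`Dat.Rel`, which is G_mul_B (entry (r, k)); the new data are the data of w ++ [l]: B, C by mutWord_concat, Cm_concat; G: newG = -G_l + sum_i max (b_il) 0 G_i
- sum_j max (c_jl) 0 B_rj; if the column l of C has the sign e = 1 the last sum is sum_j c_jl B_rj = sum_i b_il G_i (relation), so newG = -G_l + sum_i max (-b_il) 0 G_i;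
e = -1: the last sum is 0. This is Gm_step with mul_F_apply_self / mul_F_apply_ne (T1). gvec: PH.isGVector.
-/

set_option autoImplicit false

noncomputable section

open MvPolynomial

namespace Pool.Agent.Lib.MP_1d68e1_al.TS

variable {n : ℕ}

theorem T14_rel (hA : ∀ r, HH n r) {B : Matrix (Fin n) (Fin n) ℤ} (hB : TotallySignSkew B)
    (w : List (Fin n)) :
    (⟨mutWord B w, Cm B w, fun i r => Gm B w r i⟩ : Dat n).Rel B := by
  intro k r
  have h := congrFun (congrFun (G_mul_B (hA w.length) hB (le_refl w.length)) r) k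
  rw [Matrix.mul_apply, Matrix.mul_apply] at h
  show ∑ i, mutWord B w i k * Gm B w r i = ∑ j, Cm B w j k * B r j
  rw [Finset.sum_congr rfl fun i _ => mul_comm (mutWord B w i k) (Gm B w r i), h]
  exact Finset.sum_congr rfl fun j _ => mul_comm _ _

theorem T14_newG (hA : ∀ r, HH n r) {B : Matrix (Fin n) (Fin n) ℤ} (hB : TotallySignSkew B)
    (w : List (Fin n)) (l r : Fin n) :
    newG B ⟨mutWord B w, Cm B w, fun i r => Gm B w r i⟩ l r = Gm B (w ++ [l]) r l := by
  obtain ⟨e, he, hc⟩ := hA (w.length + 1) B hB w (Nat.lt_succ_self _) l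
  have hrel := T14_rel hA hB w l r
  change ∑ i, mutWord B w i l * Gm B w r i = ∑ j, Cm B w j l * B r j at hrel
  have hd : mutWord B w l l = 0 := (hB w).diag l
  rw [Gm_step (hA (w.length + 1)) hB (Nat.lt_succ_self _) he hc,
    mul_F_apply_self _ _ _ _ _ hd]
  show -Gm B w r l + ∑ i, max (mutWord B w i l) 0 * Gm B w r i - ∑ j, max (Cm B w j l) 0 * B r j = _
  rcases he with rfl | rfl
  · have h1 : ∀ j, max (Cm B w j l) 0 * B r j = Cm B w j l * B r j := by
      intro j
      have := hc.1 j
      rw [one_mul] at this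
      rw [max_eq_left this]
    rw [Finset.sum_congr rfl fun j _ => h1 j, ← hrel, add_sub_assoc, ← Finset.sum_sub_distrib]
    congr 1
    refine Finset.sum_congr rfl fun i _ => ?_
    rcases le_total 0 (mutWord B w i l) with h | h
    · rw [max_eq_left h, max_eq_right (by linarith)]
      ring
    · rw [max_eq_right h, max_eq_left (by linarith)]
      ring
  · have h1 : ∀ j, max (Cm B w j l) 0 * B r j = 0 := by
      intro j
      have := hc.1 j
      rw [max_eq_right (by linarith), zero_mul]
    rw [Finset.sum_congr rfl fun j _ => h1 j, Finset.sum_const_zero, sub_zero]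
    congr 1
    refine Finset.sum_congr rfl fun i _ => ?_
    rw [neg_mul, one_mul, neg_neg]
    ring

theorem match_at (hA : ∀ r, HH n r) {B : Matrix (Fin n) (Fin n) ℤ} (hB : TotallySignSkew B)
    (w : List (Fin n)) :
    Match B (seedAt B w) ⟨mutWord B w, Cm B w, fun i r => Gm B w r i⟩ := by
  induction w using List.reverseRecOn with
  | nil =>
    refine ⟨rfl, rfl, fun i => ?_⟩
    have h1 : (fun r => Gm B [] r i) = (Pi.single i 1 : Fin n → ℤ) := by
      funext r
      rw [Gm_nil, Matrix.one_apply, Pi.single_apply]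
    show PH B _ (fun r => Gm B [] r i)
    rw [h1]
    exact PH.varx B i
  | append_singleton w l ih =>
    have h := ih.mutate (T14_rel hA hB w) l
    rw [seedAt_concat, mutWord_concat, Cm_concat]
    have h2 : (⟨mutB l (mutWord B w), mutC l (mutWord B w) (Cm B w),
        fun i r => Gm B (w ++ [l]) r i⟩ : Dat n) =
        (⟨mutWord B w, Cm B w, fun i r => Gm B w r i⟩ : Dat n).mutate B l := by
      unfold Dat.mutate
      congr 1
      funext i r
      by_cases hi : i = l
      · subst hi
        rw [Function.update_self, T14_newG hA hB]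
      · obtain ⟨e, he, hc⟩ := hA (w.length + 1) B hB w (Nat.lt_succ_self _) l
        rw [Function.update_of_ne hi, Gm_step (hA (w.length + 1)) hB (Nat.lt_succ_self _) he hc,
          mul_F_apply_ne _ _ _ _ hi]
    rw [h2]
    exact h

theorem gvec (hA : ∀ r, HH n r) {B : Matrix (Fin n) (Fin n) ℤ} (hB : TotallySignSkew B)
    (w : List (Fin n)) (i : Fin n) :
    IsGVector B ((seedAt B w).x i) (fun r => Gm B w r i) :=
  ((match_at hA hB w).hG i).isGVector

end Pool.Agent.Lib.MP_1d68e1_al.TS
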