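import Pool.Agent.Lib.MP_1d68e1_al_ts.T10

/-!
# T15 (45 min): change of the initial seed for the g-vectors (Fomin-Zelevinsky 7.12)

hH, hR at r = u.length + 1. B1 = mutB m B. bs for -B^T (mutB m (-B^T) = -B1^T): Cm (-B^T) (m :: u) = E s (-B^T) m * Cm (-B1^T) u, s a sign with
SideAt (-B1^T) u m s, i.e. 0 <= s * Gm (-B1^T) u m j and 0 <= s * Gm B1 u m j (-(-B1^T)^T = B1). Inverse and transpose: Gm B (m :: u) =
((E s (-B^T) m)^-1)^T-part: (E X)^-1 = X^-1 E (E * E = 1), transposed: E^T * Gm B1 u = F s B m * Gm B1 u (E_transpose, neg_transpose_neg_transpose).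
Entries: row m: -Gm B1 u m j. Row i <> m: Gm B1 u i j + max (-(s * B i m)) 0 * Gm B1 u m j. B1 i m = -B i m (mutB_right). s = 1: g = Gm B1 u m j >= 0,
min g 0 = 0; s = -1: g <= 0, min g 0 = g and max (B1 i m) 0 - B1 i m = max (-B1 i m) 0 = max (B i m) 0.
-/

set_option autoImplicit false

noncomputable section

open MvPolynomial

namespace Pool.Agent.Lib.MP_1d68e1_al.TS

variable {n : ℕ}

theorem T15_F_mul (Q B : Matrix (Fin n) (Fin n) ℤ) (e : ℤ) (m r j : Fin n) :
    (F e B m * Q) r j = if r = m then -Q m j else Q r j + max (-(e * B r m)) 0 * Q m j := by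
  rw [Matrix.mul_apply]
  by_cases hr : r = m
  · subst hr
    rw [if_pos rfl, Finset.sum_eq_single r]
    · unfold F
      rw [if_pos rfl, if_pos rfl]
      ring
    · intro i _ hi
      unfold F
      rw [if_neg hi, if_neg hi.symm, zero_mul]
    · intro h
      exact absurd (Finset.mem_univ r) h
  · rw [if_neg hr, ← Finset.add_sum_erase _ _ (Finset.mem_univ m),
      Finset.sum_eq_single r]
    · unfold F
      rw [if_pos rfl, if_neg hr, if_neg hr, if_pos rfl]
      ring
    · intro i hi hir
      unfold F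
      rw [if_neg (Finset.ne_of_mem_erase hi), if_neg hir.symm, zero_mul]
    · intro h
      exact absurd (Finset.mem_erase.mpr ⟨hr, Finset.mem_univ r⟩) h

theorem gm_base (hA : ∀ r, HH n r) (hR : ∀ r, RCr n r) {B : Matrix (Fin n) (Fin n) ℤ}
    (hB : TotallySignSkew B) (m : Fin n) (u : List (Fin n)) (r j : Fin n) :
    Gm B (m :: u) r j = if r = m then -Gm (mutB m B) u m j else
      Gm (mutB m B) u r j + max (mutB m B r m) 0 * Gm (mutB m B) u m j -
        mutB m B r m * min (Gm (mutB m B) u m j) 0 := by
  obtain ⟨s, hs, hside, hbs⟩ := bs (hA (u.length + 1)) (hR (u.length + 1)) (tss_negT hB) m u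
    (Nat.lt_succ_self _)
  have e1 : mutB m (-B.transpose) = -(mutB m B).transpose := by
    rw [mutB_neg, mutB_transpose]
  rw [e1] at hside hbs
  have hside2 := hside.2
  rw [neg_transpose_neg_transpose] at hside2
  have hd : (-B.transpose) m m = 0 := tss_diag (tss_negT hB) [] m
  have hG : Gm B (m :: u) = F s B m * Gm (mutB m B) u := by
    unfold Gm
    rw [hbs, Matrix.mul_inv_rev, Matrix.transpose_mul, E_inv hd, E_transpose,
      neg_transpose_neg_transpose]
  have e2 : mutB m B r m = -B r m := by
    unfold mutB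
    rw [if_pos (Or.inr rfl)]
  rw [hG, T15_F_mul, e2]
  by_cases hr : r = m
  · rw [if_pos hr, if_pos hr]
  · rw [if_neg hr, if_neg hr]
    have h1 := hside2 j
    rcases hs with rfl | rfl
    · rw [one_mul] at h1
      rw [min_eq_right h1, one_mul]
      ring
    · have h2 : Gm (mutB m B) u m j ≤ 0 := by linarith
      rw [min_eq_left h2]
      have h3 : max (-(-1 * B r m)) 0 = max (-B r m) 0 + B r m := by
        rcases le_total 0 (B r m) with h | h
        · rw [max_eq_left (by linarith), max_eq_right (by linarith)]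
          ring
        · rw [max_eq_right (by linarith), max_eq_left (by linarith)]
          ring
      rw [h3]
      ring

end Pool.Agent.Lib.MP_1d68e1_al.TS
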