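import Pool.Agent.Lib.MP_1d68e1_al_ts.T13
import Pool.Agent.Lib.MP_1d68e1_al_ts.T14

/-!
# T16: final statements
-/

set_option autoImplicit false

noncomputable section

open MvPolynomial

namespace Pool.Agent.Lib.MP_1d68e1_al.TS

variable {n : ℕ}

theorem rcr_all (n r : ℕ) : RCr n r := by
  refine rc_of_laurent ?_ ?_ (hh_all n r)
  · intro B hB w i
    exact laurent (good_init hB) w i
  · intro B hB k w i
    have h := laurent (good_mutate (good_init hB) k) (k :: w) i
    rw [List.foldl_cons, mutate_mutate (good_init hB) k] at h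
    exact h

/-- Rows of G are sign-coherent. -/
theorem row_coherent {B : Matrix (Fin n) (Fin n) ℤ} (hB : TotallySignSkew B)
    (w : List (Fin n)) (k : Fin n) : (∀ j, 0 ≤ Gm B w k j) ∨ ∀ j, Gm B w k j ≤ 0 := by
  obtain ⟨s, hs, h, -⟩ := rcr_all n w.length B hB w le_rfl k
  rcases hs with rfl | rfl
  · left; intro i; simpa using h i
  · right; intro i; have := h i; linarith

/-- The complete statement. -/
theorem main {B : Matrix (Fin n) (Fin n) ℤ} (hB : TotallySignSkew B) (w : List (Fin n)) :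
    (∃ b : Module.Basis (Fin n) ℤ (Fin n → ℤ),
      (∀ i, IsGVector B ((seedAt B w).x i) (b i)) ∧
      ∀ k, (∀ i, 0 ≤ b i k) ∨ ∀ i, b i k ≤ 0) ∧
    (∀ j, (∀ i, 0 ≤ (seedAt B w).C i j) ∨ ∀ i, (seedAt B w).C i j ≤ 0) := by
  constructor
  · obtain ⟨b, hb⟩ := basis hB w
    refine ⟨b, hb, fun k => ?_⟩
    have h1 : ∀ i, b i = fun r => Gm B w r i := fun i =>
      (gvec (hh_all n) hB w i).2 _ (hb i).1
    rcases row_coherent hB w k with h | h
    · left; intro i; rw [h1]; exact h i
    · right; intro i; rw [h1]; exact h i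
  · intro j
    rw [seedAt_C]
    exact coherent hB w j

end Pool.Agent.Lib.MP_1d68e1_al.TS
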