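import Pool.Agent.Lib.MP_1d68e1_al_ts.T0

/-!
# T17: degrees in the Laurent ring `ℤ[Y][X^±1]`
-/

set_option autoImplicit false

noncomputable section

open MvPolynomial

namespace Pool.Agent.Lib.MP_1d68e1_al.TS

variable {n : ℕ}

/-- The initial variable `x_i` of the ambient field. -/
def xv (i : Fin n) : Amb n := algebraMap (MvPolynomial (Fin n ⊕ Fin n) ℤ) (Amb n) (X (Sum.inl i))

/-- `z` is a nonzero homogeneous element of degree `g` of the ring `ℤ[Y][X^±1]`, graded by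
`wt B`: for some `N` the product of `z` and `(x_1 ⋯ x_n)^N` is a nonzero polynomial `P` in
`ℤ[X, Y]`, homogeneous of degree `g + N (1, …, 1)`. -/
def LaurentDeg (B : Matrix (Fin n) (Fin n) ℤ) (z : Amb n) (g : Fin n → ℤ) : Prop :=
  ∃ (N : ℕ) (P : MvPolynomial (Fin n ⊕ Fin n) ℤ), P ≠ 0 ∧
    z * (∏ i, xv i) ^ N = algebraMap _ (Amb n) P ∧
    IsWeightedHomogeneous (wt B) P (fun i => g i + N)

/-- `g` is the g-vector of `z`: `z` lies in `ℤ[Y][X^±1]`, is homogeneous there, and `g` is its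
degree (the only one). -/
def IsGVec (B : Matrix (Fin n) (Fin n) ℤ) (z : Amb n) (g : Fin n → ℤ) : Prop :=
  LaurentDeg B z g ∧ ∀ g', LaurentDeg B z g' → g' = g

theorem hom_of_mul {B : Matrix (Fin n) (Fin n) ℤ} {P Q : MvPolynomial (Fin n ⊕ Fin n) ℤ}
    {r q : Fin n → ℤ} (hQ : Q ≠ 0) (hq : IsWeightedHomogeneous (wt B) Q q)
    (h : IsWeightedHomogeneous (wt B) (P * Q) (r + q)) : IsWeightedHomogeneous (wt B) P r := by
  classical
  let _ := MvPolynomial.weightedGradedAlgebra ℤ (wt B)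
  intro d hd
  by_contra hne
  have h1 := DirectSum.coe_decompose_mul_add_of_right_mem (weightedHomogeneousSubmodule ℤ (wt B))
    (a := P) (b := Q) (i := Finsupp.weight (wt B) d) (j := q) hq
  have h2 := DirectSum.decompose_of_mem_ne (weightedHomogeneousSubmodule ℤ (wt B))
    (x := P * Q) (i := r + q) (j := Finsupp.weight (wt B) d + q) h
    (fun h0 => hne (add_right_cancel h0).symm)
  rw [h2] at h1
  have h3 := (mul_eq_zero.mp h1.symm).resolve_right hQ
  have h4 : ((DirectSum.decompose (weightedHomogeneousSubmodule ℤ (wt B)) P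
      (Finsupp.weight (wt B) d) : MvPolynomial (Fin n ⊕ Fin n) ℤ)) =
      weightedHomogeneousComponent (wt B) (Finsupp.weight (wt B) d) P :=
    weightedDecomposition.decompose'_apply ℤ (wt B) P _
  rw [h4] at h3
  apply hd
  have h5 := coeff_weightedHomogeneousComponent (w := wt B) (Finsupp.weight (wt B) d) P d
  rw [h3, if_pos rfl, coeff_zero] at h5
  exact h5.symm

theorem prod_hom (B : Matrix (Fin n) (Fin n) ℤ) (N : ℕ) :
    IsWeightedHomogeneous (wt B)
      ((∏ i : Fin n, (X (Sum.inl i) : MvPolynomial (Fin n ⊕ Fin n) ℤ)) ^ N)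
      (fun _ => (N : ℤ)) := by
  have h := (IsWeightedHomogeneous.prod (w := wt B) Finset.univ
    (fun i : Fin n => (X (Sum.inl i) : MvPolynomial (Fin n ⊕ Fin n) ℤ))
    (fun i => wt B (Sum.inl i)) (fun i _ => isWeightedHomogeneous_X ℤ (wt B) (Sum.inl i))).pow N
  have h1 : N • (∑ i : Fin n, wt B (Sum.inl i)) = fun _ => (N : ℤ) := by
    funext j
    rw [Pi.smul_apply, Finset.sum_apply]
    have h2 : ∀ i : Fin n, wt B (Sum.inl i) j = if i = j then (1 : ℤ) else 0 := by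
      intro i
      show (Pi.single i (1 : ℤ) : Fin n → ℤ) j = _
      rw [Pi.single_apply]
      simp only [eq_comm]
    rw [Finset.sum_congr rfl (fun i _ => h2 i), Finset.sum_ite_eq' Finset.univ j,
      if_pos (Finset.mem_univ j), nsmul_eq_mul, mul_one]
  rw [h1] at h
  exact h

theorem prod_xv (N : ℕ) : (∏ i : Fin n, xv i) ^ N = algebraMap _ (Amb n)
    ((∏ i : Fin n, (X (Sum.inl i) : MvPolynomial (Fin n ⊕ Fin n) ℤ)) ^ N) := by
  rw [map_pow, map_prod]
  rfl

theorem prod_ne (N : ℕ) :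
    ((∏ i : Fin n, (X (Sum.inl i) : MvPolynomial (Fin n ⊕ Fin n) ℤ)) ^ N) ≠ 0 :=
  pow_ne_zero _ (Finset.prod_ne_zero_iff.mpr (fun i _ => X_ne_zero _))

theorem amb_inj {a b : MvPolynomial (Fin n ⊕ Fin n) ℤ}
    (h : algebraMap _ (Amb n) a = algebraMap _ (Amb n) b) : a = b :=
  IsFractionRing.injective (MvPolynomial (Fin n ⊕ Fin n) ℤ) (Amb n) h

theorem homogDeg_of_laurentDeg {B : Matrix (Fin n) (Fin n) ℤ} {z : Amb n} {g : Fin n → ℤ}
    (h : LaurentDeg B z g) : HomogDeg B z g := by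
  obtain ⟨N, P, hP, hz, hd⟩ := h
  refine ⟨P, _, _, _, hP, prod_ne N, hd, prod_hom B N, ?_, ?_⟩
  · rw [← hz, prod_xv, mul_div_cancel_right₀]
    intro h0
    exact prod_ne N (amb_inj (h0.trans (map_zero _).symm))
  · funext i
    simp

theorem aeval_init (B : Matrix (Fin n) (Fin n) ℤ) (P : MvPolynomial (Fin n ⊕ Fin n) ℤ) :
    MvPolynomial.aeval (Sum.elim (initSeed B).x yv) P = algebraMap _ (Amb n) P := by
  have h : (MvPolynomial.aeval (Sum.elim (initSeed B).x yv) :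
      MvPolynomial (Fin n ⊕ Fin n) ℤ →ₐ[ℤ] Amb n) =
      IsScalarTower.toAlgHom ℤ (MvPolynomial (Fin n ⊕ Fin n) ℤ) (Amb n) := by
    apply MvPolynomial.algHom_ext
    intro v
    rw [aeval_X]
    rcases v with v | v <;> rfl
  rw [h]
  rfl

/-- A homogeneous element of the ambient field that lies in `ℤ[Y][X^±1]` is homogeneous there. -/
theorem isGVec_of {B : Matrix (Fin n) (Fin n) ℤ} {z : Amb n} {g : Fin n → ℤ}
    (hL : Lau (initSeed B) z) (h : IsGVector B z g) : IsGVec B z g := by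
  refine ⟨?_, fun g' hg' => h.2 g' (homogDeg_of_laurentDeg hg')⟩
  obtain ⟨N, P, hP⟩ := hL
  obtain ⟨P', Q', p, q, hP', hQ', hPp, hQq, hz, hg⟩ := h.1
  have hx : (∏ i, (initSeed B).x i) ^ N = (∏ i : Fin n, xv i) ^ N := rfl
  rw [aeval_init, hx] at hP
  have hQa : algebraMap _ (Amb n) Q' ≠ 0 := fun h0 =>
    hQ' (amb_inj (h0.trans (map_zero _).symm))
  have h1 : P * Q' =
      P' * (∏ i : Fin n, (X (Sum.inl i) : MvPolynomial (Fin n ⊕ Fin n) ℤ)) ^ N := by
    apply amb_inj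
    rw [map_mul, map_mul, ← hP, ← prod_xv, hz]
    field_simp
  have hP0 : P ≠ 0 := by
    intro h0
    rw [h0, zero_mul] at h1
    exact mul_ne_zero hP' (prod_ne N) h1.symm
  refine ⟨N, P, hP0, hP, hom_of_mul hQ' hQq ?_⟩
  rw [h1]
  have h2 := hPp.mul (prod_hom B N)
  have h3 : p + (fun _ => (N : ℤ)) = (fun i => g i + N) + q := by
    funext i
    rw [hg]
    simp only [Pi.add_apply, Pi.sub_apply]
    ring
  rw [h3] at h2
  exact h2

end Pool.Agent.Lib.MP_1d68e1_al.TS
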