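import Pool.Agent.Lib.MP_1d68e1_al_ts.T16
import Pool.Agent.Lib.MP_1d68e1_al_ts.T17

/-!
# T18: final statements in the Laurent ring `ℤ[Y][X^±1]`
-/

set_option autoImplicit false

noncomputable section

open MvPolynomial

namespace Pool.Agent.Lib.MP_1d68e1_al.TS

variable {n : ℕ}

/-- The degrees of the cluster variables of every seed are a basis of `ℤ^n`. -/
theorem basis_laurent {B : Matrix (Fin n) (Fin n) ℤ} (hB : TotallySignSkew B)
    (w : List (Fin n)) :
    ∃ b : Module.Basis (Fin n) ℤ (Fin n → ℤ), ∀ i, IsGVec B ((seedAt B w).x i) (b i) := by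
  obtain ⟨b, hb⟩ := basis hB w
  exact ⟨b, fun i => isGVec_of (laurent (good_init hB) w i) (hb i)⟩

/-- The g-vectors of every cluster are sign-coherent. -/
theorem g_coherent {B : Matrix (Fin n) (Fin n) ℤ} (hB : TotallySignSkew B)
    (w : List (Fin n)) (g : Fin n → Fin n → ℤ)
    (hg : ∀ i, IsGVec B ((seedAt B w).x i) (g i)) (k : Fin n) :
    (∀ i, 0 ≤ g i k) ∨ ∀ i, g i k ≤ 0 := by
  have h1 : ∀ i, g i = fun r => Gm B w r i := fun i =>
    (gvec (hh_all n) hB w i).2 _ (homogDeg_of_laurentDeg (hg i).1)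
  rcases row_coherent hB w k with h | h
  · left; intro i; rw [h1]; exact h i
  · right; intro i; rw [h1]; exact h i

/-- The c-vectors of every seed are sign-coherent. -/
theorem c_coherent {B : Matrix (Fin n) (Fin n) ℤ} (hB : TotallySignSkew B)
    (w : List (Fin n)) (j : Fin n) :
    (∀ i, 0 ≤ (seedAt B w).C i j) ∨ ∀ i, (seedAt B w).C i j ≤ 0 := by
  rw [seedAt_C]
  exact coherent hB w j

end Pool.Agent.Lib.MP_1d68e1_al.TS
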