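import Pool.Agent.Lib.MP_1d68e1_al_ts.T1

/-!
# T2 (40 min): mutation is multiplication by E and F

mutC_eq: entry (i, j), j <> k: mutC_ne (Lib Hom) gives `C i j + (max (C i k) 0 * B k j + C i k *
max (-B k j) 0)`; if e = 1 then `C i k >= 0`, the bracket is `C i k * max (B k j) 0`
(max_sub_max); if e = -1 then `C i k <= 0`, the bracket is `C i k * max (-B k j) 0`. Column k:
mutC_right. Right hand side by mul_E_apply_ne, mul_E_apply_self (T1).
F_mul_mutB: entries. i = k: `F` has the row `-e_k`, so the left side is `-mutB k B k j = B k j`,
the right side `B k j + B k k * ..`, `-B k k`. i <> k: left side `mutB k B i j + max (-(e * B i k)) 0 *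
(-B k j)`; j = k: `-B i k`; j <> k: mutB_ne and max_sub_max, e = 1 or -1 separately.
-/

set_option autoImplicit false

noncomputable section

open MvPolynomial

namespace Pool.Agent.Lib.MP_1d68e1_al.TS

variable {n : ℕ}

theorem mutC_eq {e : ℤ} {B C : Matrix (Fin n) (Fin n) ℤ} {k : Fin n} (he : Sgn e)
    (hc : ∀ i, 0 ≤ e * C i k) : mutC k B C = C * E e B k := by
  ext i j
  by_cases hj : j = k
  · subst hj
    rw [mutC_right, mul_E_apply_self]
  · rw [mutC_ne B C hj, mul_E_apply_ne C B e i hj]
    congr 1
    have h1 := max_sub_max (B k j)
    rcases he with rfl | rfl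
    · have h2 := hc i
      rw [one_mul] at h2
      rw [max_eq_left h2, one_mul]
      have : max (B k j) 0 = B k j + max (-B k j) 0 := by linarith
      rw [this]; ring
    · have h2 := hc i
      have h3 : C i k ≤ 0 := by linarith
      rw [max_eq_right h3, zero_mul, zero_add]
      congr 2
      ring

theorem F_mul_mutB {e : ℤ} {B : Matrix (Fin n) (Fin n) ℤ} {k : Fin n} (he : Sgn e)
    (hB : B k k = 0) : F e B k * mutB k B = B * E e B k := by
  have hF : ∀ i j, (F e B k * mutB k B) i j =
      (if i = k then 0 else mutB k B i j) +
        (if i = k then -1 else max (-(e * B i k)) 0) * mutB k B k j := by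
    intro i j
    rw [Matrix.mul_apply]
    have e1 : ∀ l, F e B k i l * mutB k B l j = (if l = k then
        (if i = k then -1 else max (-(e * B i k)) 0) * mutB k B k j else 0) +
        (if l = i then (if i = k then 0 else mutB k B i j) else 0) := by
      intro l
      unfold F
      by_cases hl : l = k
      · subst hl
        by_cases hi : l = i
        · subst hi; simp
        · simp [hi]
      · by_cases hi : i = l
        · subst hi; simp [hl]
        · simp [hl, hi, Ne.symm hi]
    rw [Finset.sum_congr rfl fun l _ => e1 l, Finset.sum_add_distrib, Finset.sum_ite_eq',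
      Finset.sum_ite_eq', if_pos (Finset.mem_univ _), if_pos (Finset.mem_univ _), add_comm]
  ext i j
  rw [hF, mutB_left]
  by_cases hi : i = k
  · subst hi
    rw [if_pos rfl, if_pos rfl]
    by_cases hj : j = i
    · subst hj
      rw [mul_E_apply_self, hB]; simp
    · rw [mul_E_apply_ne B B e i hj, hB]; ring
  · rw [if_neg hi, if_neg hi]
    by_cases hj : j = k
    · subst hj
      rw [mul_E_apply_self, hB, mutB_right]; ring
    · rw [mul_E_apply_ne B B e i hj, mutB_ne B hi hj]
      have h1 := max_sub_max (B k j)
      have h2 := max_sub_max (B i k)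
      rcases he with rfl | rfl
      · rw [one_mul, one_mul]
        have e1 : max (B k j) 0 = B k j + max (-B k j) 0 := by linarith
        have e2 : max (B i k) 0 = B i k + max (-B i k) 0 := by linarith
        rw [e1, e2]; ring
      · have e3 : -(-1 * B i k) = B i k := by ring
        have e4 : -1 * B k j = -B k j := by ring
        rw [e3, e4]; ring

end Pool.Agent.Lib.MP_1d68e1_al.TS
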