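import Pool.Agent.Lib.MP_1d68e1_al_ts.T0

/-!
# T3 (40 min): symmetries of mutation

mutB_neg, mutB_transpose: entries, by mutB_ne (Lib Hom), mutB_left, mutB_right and max_sub_max
(`max x 0 - max (-x) 0 = x`): both sides are linear in `max (B i k) 0` etc. The words: induction on
`w` (mutWord is List.foldl). mutWord_reverse: induction with mutB_mutB (Lib Red). TSS: the words from
`mutWord B w` are words from `B` (append). SignSkew is invariant under `-`, transpose.
-/

set_option autoImplicit false

noncomputable section

open MvPolynomial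

namespace Pool.Agent.Lib.MP_1d68e1_al.TS

variable {n : ℕ}

theorem mutB_neg (k : Fin n) (B : Matrix (Fin n) (Fin n) ℤ) : mutB k (-B) = -mutB k B := by
  funext i j
  rw [Matrix.neg_apply]
  by_cases hi : i = k
  · subst hi; rw [mutB_left, mutB_left, Matrix.neg_apply]
  by_cases hj : j = k
  · subst hj; rw [mutB_right, mutB_right, Matrix.neg_apply]
  rw [mutB_ne _ hi hj, mutB_ne _ hi hj]
  simp only [Matrix.neg_apply, neg_neg]
  have h1 := max_sub_max (B i k)
  have h2 := max_sub_max (B k j)
  linear_combination (B k j) * h1 - (B i k) * h2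

theorem mutB_transpose (k : Fin n) (B : Matrix (Fin n) (Fin n) ℤ) :
    mutB k B.transpose = (mutB k B).transpose := by
  funext i j
  rw [Matrix.transpose_apply]
  by_cases hi : i = k
  · subst hi; rw [mutB_left, mutB_right, Matrix.transpose_apply]
  by_cases hj : j = k
  · subst hj; rw [mutB_right, mutB_left, Matrix.transpose_apply]
  rw [mutB_ne _ hi hj, mutB_ne _ hj hi]
  simp only [Matrix.transpose_apply]
  have h1 := max_sub_max (B j k)
  have h2 := max_sub_max (B k i)
  linear_combination (B j k) * h2 - (B k i) * h1

theorem mutWord_nil (B : Matrix (Fin n) (Fin n) ℤ) : mutWord B [] = B := rfl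

theorem mutWord_cons (B : Matrix (Fin n) (Fin n) ℤ) (k : Fin n) (w : List (Fin n)) :
    mutWord B (k :: w) = mutWord (mutB k B) w := rfl

theorem mutWord_append (B : Matrix (Fin n) (Fin n) ℤ) (u w : List (Fin n)) :
    mutWord B (u ++ w) = mutWord (mutWord B u) w := by
  unfold mutWord
  rw [List.foldl_append]

theorem mutWord_neg (B : Matrix (Fin n) (Fin n) ℤ) (w : List (Fin n)) :
    mutWord (-B) w = -mutWord B w := by
  induction w generalizing B with
  | nil => rfl
  | cons k w ih => rw [mutWord_cons, mutWord_cons, mutB_neg, ih]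

theorem mutWord_transpose (B : Matrix (Fin n) (Fin n) ℤ) (w : List (Fin n)) :
    mutWord B.transpose w = (mutWord B w).transpose := by
  induction w generalizing B with
  | nil => rfl
  | cons k w ih => rw [mutWord_cons, mutWord_cons, mutB_transpose, ih]

theorem mutWord_negT (B : Matrix (Fin n) (Fin n) ℤ) (w : List (Fin n)) :
    mutWord (-B.transpose) w = -(mutWord B w).transpose := by
  rw [mutWord_neg, mutWord_transpose]

theorem mutWord_reverse (B : Matrix (Fin n) (Fin n) ℤ) (w : List (Fin n)) :
    mutWord (mutWord B w) w.reverse = B := by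
  induction w generalizing B with
  | nil => rfl
  | cons k w ih =>
    rw [mutWord_cons, List.reverse_cons, mutWord_append, ih, mutWord_cons, mutWord_nil, mutB_mutB]

theorem tss_neg {B : Matrix (Fin n) (Fin n) ℤ} (h : TotallySignSkew B) :
    TotallySignSkew (-B) := by
  intro w i j
  rw [mutWord_neg]
  rcases h w i j with h1 | h1
  · left
    simp only [Matrix.neg_apply, h1.1, h1.2, neg_zero, and_self]
  · right
    simp only [Matrix.neg_apply, neg_mul_neg]
    exact h1

theorem tss_transpose {B : Matrix (Fin n) (Fin n) ℤ} (h : TotallySignSkew B) :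
    TotallySignSkew B.transpose := by
  intro w i j
  rw [mutWord_transpose]
  simp only [Matrix.transpose_apply]
  exact h w j i

theorem tss_negT {B : Matrix (Fin n) (Fin n) ℤ} (h : TotallySignSkew B) :
    TotallySignSkew (-B.transpose) := tss_neg (tss_transpose h)

theorem tss_mutB {B : Matrix (Fin n) (Fin n) ℤ} (h : TotallySignSkew B) (k : Fin n) :
    TotallySignSkew (mutB k B) := by
  intro w
  rw [← mutWord_cons]
  exact h (k :: w)

theorem tss_mutWord {B : Matrix (Fin n) (Fin n) ℤ} (h : TotallySignSkew B)
    (w : List (Fin n)) : TotallySignSkew (mutWord B w) := by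
  intro u
  rw [← mutWord_append]
  exact h (w ++ u)

theorem tss_diag {B : Matrix (Fin n) (Fin n) ℤ} (h : TotallySignSkew B) (w : List (Fin n))
    (k : Fin n) : mutWord B w k k = 0 := (h w).diag k

theorem neg_transpose_neg_transpose (B : Matrix (Fin n) (Fin n) ℤ) :
    -(-B.transpose).transpose = B := by
  rw [Matrix.transpose_neg, Matrix.transpose_transpose, neg_neg]

end Pool.Agent.Lib.MP_1d68e1_al.TS
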