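import Pool.Agent.Lib.MP_1d68e1_al_ts.T1
import Pool.Agent.Lib.MP_1d68e1_al_ts.T2
import Pool.Agent.Lib.MP_1d68e1_al_ts.T3
import Pool.Agent.Lib.MP_1d68e1_al_ts.T4

/-!
# T5 (45 min): C and G along coherent words

Cm_step: Cm_concat and mutC_eq. Cm_step_v: the same for `-B^T`, with mutWord_negT.
Cm_unit: induction on the word (List.reverseRecOn): by HH the column l is coherent, Cm (w ++ [l]) =
Cm w * E, and E * E = 1 (E_mul_E, tss_diag), so det E is a unit.
Gm_step: Gm B (w ++ [l]) = ((Cm (-B^T) w * E e (-(B_w)^T) l)^-1)^T = (E * (Cm (-B^T) w)^-1)^T (E^-1 = E by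
Matrix.inv_eq_left_inv / mul_inv_rev) = Gm B w * (E e (-(B_w)^T) l)^T = Gm B w * F e B_w l by E_transpose
and neg_transpose_neg_transpose.
The four duality identities: Gm (-B^T) w = ((Cm B w)^-1)^T since -(-B^T)^T = B; Matrix.mul_nonsing_inv,
Matrix.nonsing_inv_mul and transposition.
-/

set_option autoImplicit false

noncomputable section

open MvPolynomial

namespace Pool.Agent.Lib.MP_1d68e1_al.TS

variable {n : ℕ}

theorem Cm_step {B : Matrix (Fin n) (Fin n) ℤ} {w : List (Fin n)} {l : Fin n} {e : ℤ}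
    (he : Sgn e) (hc : ∀ i, 0 ≤ e * Cm B w i l) :
    Cm B (w ++ [l]) = Cm B w * E e (mutWord B w) l := by
  rw [Cm_concat]
  exact mutC_eq he hc

theorem Cm_unit {r : ℕ} (hH : HH n r) {B : Matrix (Fin n) (Fin n) ℤ} (hB : TotallySignSkew B)
    {w : List (Fin n)} (hw : w.length ≤ r) : IsUnit (Cm B w).det := by
  induction w using List.reverseRecOn with
  | nil => rw [Cm_nil, Matrix.det_one]; exact isUnit_one
  | append_singleton w l ih =>
    rw [List.length_append, List.length_singleton] at hw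
    obtain ⟨e, he, hc, -⟩ := hH B hB w (by omega) l
    rw [Cm_step he hc, Matrix.det_mul]
    refine (ih (by omega)).mul ?_
    have h1 : (E e (mutWord B w) l * E e (mutWord B w) l).det = 1 := by
      rw [E_mul_E (tss_diag hB w l), Matrix.det_one]
    rw [Matrix.det_mul] at h1
    exact IsUnit.of_mul_eq_one _ h1

theorem Gm_negT (B : Matrix (Fin n) (Fin n) ℤ) (w : List (Fin n)) :
    Gm (-B.transpose) w = ((Cm B w)⁻¹).transpose := by
  unfold Gm
  rw [neg_transpose_neg_transpose]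

theorem Gm_nil (B : Matrix (Fin n) (Fin n) ℤ) : Gm B [] = 1 := by
  unfold Gm
  rw [Cm_nil, inv_one, Matrix.transpose_one]

theorem E_inv {e : ℤ} {B : Matrix (Fin n) (Fin n) ℤ} {k : Fin n} (hB : B k k = 0) :
    (E e B k)⁻¹ = E e B k :=
  Matrix.inv_eq_left_inv (E_mul_E hB)

theorem Gm_step {r : ℕ} (hH : HH n r) {B : Matrix (Fin n) (Fin n) ℤ} (hB : TotallySignSkew B)
    {w : List (Fin n)} (hw : w.length < r) {l : Fin n} {e : ℤ} (he : Sgn e)
    (hc : CohAt B w l e) : Gm B (w ++ [l]) = Gm B w * F e (mutWord B w) l := by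
  have _ := hH
  have _ := hw
  unfold Gm
  rw [Cm_step he hc.2, Matrix.mul_inv_rev, E_inv (tss_diag (tss_negT hB) w l),
    Matrix.transpose_mul, mutWord_negT, E_transpose, neg_transpose_neg_transpose]

theorem CT_mul_G {r : ℕ} (hH : HH n r) {B : Matrix (Fin n) (Fin n) ℤ} (hB : TotallySignSkew B)
    {w : List (Fin n)} (hw : w.length ≤ r) :
    (Cm B w).transpose * Gm (-B.transpose) w = 1 := by
  rw [Gm_negT, ← Matrix.transpose_mul, Matrix.nonsing_inv_mul _ (Cm_unit hH hB hw),
    Matrix.transpose_one]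

theorem G_mul_CT {r : ℕ} (hH : HH n r) {B : Matrix (Fin n) (Fin n) ℤ} (hB : TotallySignSkew B)
    {w : List (Fin n)} (hw : w.length ≤ r) :
    Gm (-B.transpose) w * (Cm B w).transpose = 1 := by
  rw [Gm_negT, ← Matrix.transpose_mul, Matrix.mul_nonsing_inv _ (Cm_unit hH hB hw),
    Matrix.transpose_one]

theorem CvT_mul_G {r : ℕ} (hH : HH n r) {B : Matrix (Fin n) (Fin n) ℤ} (hB : TotallySignSkew B)
    {w : List (Fin n)} (hw : w.length ≤ r) :
    (Cm (-B.transpose) w).transpose * Gm B w = 1 := by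
  have h := CT_mul_G hH (tss_negT hB) hw
  rwa [neg_transpose_neg_transpose] at h

theorem G_mul_CvT {r : ℕ} (hH : HH n r) {B : Matrix (Fin n) (Fin n) ℤ} (hB : TotallySignSkew B)
    {w : List (Fin n)} (hw : w.length ≤ r) :
    Gm B w * (Cm (-B.transpose) w).transpose = 1 := by
  have h := G_mul_CT hH (tss_negT hB) hw
  rwa [neg_transpose_neg_transpose] at h

end Pool.Agent.Lib.MP_1d68e1_al.TS
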