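import Pool.Agent.Lib.MP_1d68e1_al_ts.T5

/-!
# T6 (20 min): the relation G B_w = B C

Induction on the word: G' B' = G F B' = G B_w E (F_mul_mutB) = B C E = B C' (Gm_step, Cm_step with the
common sign from HH; mutWord B (w ++ [l]) = mutB l (mutWord B w) is mutWord_concat, Lib Red).
-/

set_option autoImplicit false

noncomputable section

open MvPolynomial

namespace Pool.Agent.Lib.MP_1d68e1_al.TS

variable {n : ℕ}

theorem G_mul_B {r : ℕ} (hH : HH n r) {B : Matrix (Fin n) (Fin n) ℤ} (hB : TotallySignSkew B)
    {w : List (Fin n)} (hw : w.length ≤ r) : Gm B w * mutWord B w = B * Cm B w := by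
  induction w using List.reverseRecOn with
  | nil =>
    rw [Gm_nil, Cm_nil, Matrix.one_mul, Matrix.mul_one]
    rfl
  | append_singleton w l ih =>
    rw [List.length_append, List.length_singleton] at hw
    have ih' := ih (by omega)
    obtain ⟨e, he, hc⟩ := hH B hB w (by omega) l
    have hd : mutWord B w l l = 0 := (hB w).diag l
    rw [Gm_step hH hB (by omega) he hc, Cm_step he hc.1, mutWord_concat, Matrix.mul_assoc,
      F_mul_mutB he hd, ← Matrix.mul_assoc, ih', Matrix.mul_assoc]

end Pool.Agent.Lib.MP_1d68e1_al.TS
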